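import Mathlib
import Pool.Agent.H62CT.El2

/-!
# Tate forms on a part of a multiplicity free sum
-/

set_option autoImplicit false
set_option linter.unusedSectionVars false

namespace Pool.Agent.H62O

open Module Pool.Agent.H204R3.SP Pool.Agent.H204R3.GP Pool.Agent.W522.U
open Pool.Agent.H62CT Pool.Agent.H62CT.El2 Pool.Agent.TH118.WC

noncomputable section

section kills

variable {K : Type} [Field K] {X Y : Type} [AddCommGroup X] [Module K X]
  [AddCommGroup Y] [Module K Y] {κ : Type} [Fintype κ] [DecidableEq κ]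

theorem kills_comp (L : X →ₗ[K] Y) {x : End K X} {x' : End K Y} (h : ∀ v, L (x v) = x' (L v))
    {φ : MultilinearMap K (fun _ : κ => Y) K} (hφ : Kills x' φ) :
    Kills x (φ.compLinearMap (fun _ => L)) := by
  intro v
  rw [← hφ (fun k => L (v k))]
  refine Finset.sum_congr rfl fun k _ => ?_
  rw [MultilinearMap.compLinearMap_apply]
  congr 1
  funext k'
  by_cases hk : k' = k
  · subst hk
    rw [Function.update_self, Function.update_self, h]
  · rw [Function.update_of_ne hk, Function.update_of_ne hk]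

theorem kills_of_comp (L : X →ₗ[K] Y) (S : Y →ₗ[K] X) (hLS : ∀ y, L (S y) = y) {x : End K X}
    {x' : End K Y} (h : ∀ y, L (x (S y)) = x' y) {φ : MultilinearMap K (fun _ : κ => Y) K}
    (hφ : Kills x (φ.compLinearMap (fun _ => L))) : Kills x' φ := by
  intro w
  rw [← hφ (fun k => S (w k))]
  refine Finset.sum_congr rfl fun k _ => ?_
  rw [MultilinearMap.compLinearMap_apply]
  congr 1
  funext k'
  by_cases hk : k' = k
  · subst hk
    rw [Function.update_self, Function.update_self, h]
  · rw [Function.update_of_ne hk, Function.update_of_ne hk, hLS]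

end kills

variable {K : Type} [Field K] [CharZero K]
  {I : Type} [Fintype I] [DecidableEq I] {E : I → Type} [∀ i, AddCommGroup (E i)]
  [∀ i, Module K (E i)] [∀ i, FiniteDimensional K (E i)] {G : Type} [Group G]
  {r : ∀ i, Representation K G (E i)} {χ : G →* K} {st : I → I}
  (N : I → Prop) [DecidablePred N]

/-- Restriction to a part of the sum. -/
def res : (∀ i, E i) →ₗ[K] (∀ i : {i // N i}, E i.1) :=
  LinearMap.pi fun i => LinearMap.proj i.1

/-- Extension by zero. -/
def inc : (∀ i : {i // N i}, E i.1) →ₗ[K] (∀ i, E i) :=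
  LinearMap.pi fun i => if h : N i then LinearMap.proj (⟨i, h⟩ : {i // N i}) else 0

theorem res_apply (v : ∀ i, E i) (i : {i // N i}) : res (K := K) N v i = v i.1 := rfl

theorem inc_pos (y : ∀ i : {i // N i}, E i.1) {i : I} (h : N i) :
    inc (K := K) N y i = y ⟨i, h⟩ := by
  change (if h : N i then LinearMap.proj (⟨i, h⟩ : {i // N i}) else 0 : _ →ₗ[K] E i) y = _
  rw [dif_pos h]
  rfl

theorem inc_neg (y : ∀ i : {i // N i}, E i.1) {i : I} (h : ¬N i) : inc (K := K) N y i = 0 := by
  change (if h : N i then LinearMap.proj (⟨i, h⟩ : {i // N i}) else 0 : _ →ₗ[K] E i) y = _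
  rw [dif_neg h]
  rfl

theorem res_inc (y : ∀ i : {i // N i}, E i.1) : res (K := K) N (inc (K := K) N y) = y := by
  funext i
  rw [res_apply, inc_pos N y i.2]

theorem inc_single (i : {i // N i}) (u : E i.1) :
    inc (K := K) N (Pi.single i u) = Pi.single i.1 u := by
  funext j
  by_cases hj : N j
  · rw [inc_pos N _ hj]
    by_cases h : j = i.1
    · obtain ⟨i, hi⟩ := i
      subst h
      rw [Pi.single_eq_same, Pi.single_eq_same]
    · rw [Pi.single_eq_of_ne h, Pi.single_eq_of_ne (fun h' => h (congrArg Subtype.val h'))]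
  · rw [inc_neg N _ hj, Pi.single_eq_of_ne]
    rintro rfl
    exact hj i.2

theorem res_single {i : I} (h : N i) (u : E i) :
    res (K := K) N (Pi.single i u) = Pi.single (⟨i, h⟩ : {i // N i}) u := by
  rw [← inc_single (K := K) N ⟨i, h⟩ u, res_inc]

theorem res_rep (g : G) (v : ∀ i, E i) :
    res (K := K) N (piRep r g v) = piRep (fun i : {i // N i} => r i.1) g (res (K := K) N v) := rfl

theorem inc_rep (g : G) (y : ∀ i : {i // N i}, E i.1) :
    inc (K := K) N (piRep (fun i : {i // N i} => r i.1) g y) = piRep r g (inc (K := K) N y) := by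
  funext i
  rw [piRep_apply]
  by_cases h : N i
  · rw [inc_pos N _ h, inc_pos N _ h]
    rfl
  · rw [inc_neg N _ h, inc_neg N _ h, map_zero]

theorem tate_res {m : ℕ} {φ : MultilinearMap K (fun _ : Fin m × Fin 2 => ∀ i : {i // N i}, E i.1) K}
    (hφ : IsTate (piRep (fun i : {i // N i} => r i.1)) χ m φ) :
    IsTate (piRep r) χ m (φ.compLinearMap (fun _ => res (K := K) N)) := by
  obtain ⟨Δ, hΔ, h⟩ := hφ
  exact ⟨Δ, hΔ, fun g hg v => h g hg (fun k => res (K := K) N (v k))⟩

theorem tate_inc {m : ℕ} {φ : MultilinearMap K (fun _ : Fin m × Fin 2 => ∀ i, E i) K}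
    (hφ : IsTate (piRep r) χ m φ) :
    IsTate (piRep (fun i : {i // N i} => r i.1)) χ m (φ.compLinearMap (fun _ => inc (K := K) N)) := by
  obtain ⟨Δ, hΔ, h⟩ := hφ
  refine ⟨Δ, hΔ, fun g hg v => ?_⟩
  rw [MultilinearMap.compLinearMap_apply, MultilinearMap.compLinearMap_apply]
  simp only [inc_rep]
  exact h g hg _

variable (ω : (∀ i, E i) →ₗ[K] (∀ i, E i) →ₗ[K] K)
  (hnd : ∀ u, (∀ w, ω u w = 0) → u = 0)
  (hωρ : ∀ g u v, ω (piRep r g u) (piRep r g v) = χ g * ω u v)
  (hst : ∀ i, st (st i) = i)
  (hor : ∀ i j, j ≠ st i → ∀ (u : E i) (v : E j), ω (Pi.single i u) (Pi.single j v) = 0)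
  (hN : ∀ i, N i → N (st i))

/-- The restricted form. -/
def omS : (∀ i : {i // N i}, E i.1) →ₗ[K] (∀ i : {i // N i}, E i.1) →ₗ[K] K :=
  ω.compl₁₂ (inc (K := K) N) (inc (K := K) N)

theorem omS_apply (u v : ∀ i : {i // N i}, E i.1) :
    omS N ω u v = ω (inc (K := K) N u) (inc (K := K) N v) := rfl

/-- The involution of the part. -/
def stS : {i // N i} → {i // N i} := fun i => ⟨st i.1, hN i.1 i.2⟩

include hor in
theorem om_expand (u v : ∀ i, E i) :
    ω u v = ∑ i, ω (Pi.single i (u i)) (Pi.single (st i) (v (st i))) := by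
  conv_lhs => rw [← Finset.univ_sum_single u]
  rw [map_sum, LinearMap.sum_apply]
  refine Finset.sum_congr rfl fun i _ => ?_
  conv_lhs => rw [← Finset.univ_sum_single v]
  rw [map_sum, Finset.sum_eq_single (st i)]
  · intro j _ hj
    exact hor i j hj _ _
  · intro h
    exact absurd (Finset.mem_univ _) h

include hor hN in
theorem om_inc_left (y : ∀ i : {i // N i}, E i.1) (v : ∀ i, E i) :
    ω (inc (K := K) N y) v = ω (inc (K := K) N y) (inc (K := K) N (res (K := K) N v)) := by
  rw [om_expand ω hor, om_expand ω hor (inc (K := K) N y) (inc (K := K) N (res (K := K) N v))]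
  refine Finset.sum_congr rfl fun i _ => ?_
  by_cases h : N i
  · rw [inc_pos N (res (K := K) N v) (hN i h)]
    rfl
  · rw [inc_neg N y h, Pi.single_zero, map_zero, LinearMap.zero_apply, LinearMap.zero_apply]

include hst hor hN in
theorem om_inc_right (y : ∀ i : {i // N i}, E i.1) (v : ∀ i, E i) :
    ω v (inc (K := K) N y) = ω (inc (K := K) N (res (K := K) N v)) (inc (K := K) N y) := by
  rw [om_expand ω hor, om_expand ω hor (inc (K := K) N (res (K := K) N v))]
  refine Finset.sum_congr rfl fun i _ => ?_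
  by_cases h : N i
  · rw [inc_pos N (res (K := K) N v) h]
    rfl
  · have h1 : ¬N (st i) := fun h2 => h (by
      have h3 := hN _ h2
      rwa [hst] at h3)
    rw [inc_neg N y h1, Pi.single_zero, map_zero, map_zero]

include hnd hor hN in
theorem omS_nd (u : ∀ i : {i // N i}, E i.1) (hu : ∀ w, omS N ω u w = 0) : u = 0 := by
  have h1 : inc (K := K) N u = 0 := by
    apply hnd
    intro w
    rw [om_inc_left N ω hor hN]
    exact hu _
  rw [← res_inc (K := K) N u, h1, map_zero]

include hωρ in
theorem omS_rep (g : G) (u v : ∀ i : {i // N i}, E i.1) :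
    omS N ω (piRep (fun i : {i // N i} => r i.1) g u) (piRep (fun i : {i // N i} => r i.1) g v) =
      χ g * omS N ω u v := by
  rw [omS_apply, omS_apply, inc_rep, inc_rep, hωρ]

include hor in
theorem omS_or (i j : {i // N i}) (hij : j ≠ stS N hN i) (u : E i.1) (v : E j.1) :
    omS N ω (Pi.single i u) (Pi.single j v) = 0 := by
  rw [omS_apply, inc_single, inc_single]
  exact hor _ _ (fun h => hij (Subtype.ext h)) u v

include hor hst in
theorem omS_alt (hsk : ∀ i, N i → ∀ (u : E i) (v : E (st i)),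
    ω (Pi.single i u) (Pi.single (st i) v) = -ω (Pi.single (st i) v) (Pi.single i u))
    (u : ∀ i : {i // N i}, E i.1) : omS N ω u u = 0 := by
  have h1 : ω (inc (K := K) N u) (inc (K := K) N u) = -ω (inc (K := K) N u) (inc (K := K) N u) := by
    conv_lhs => rw [om_expand ω hor]
    rw [om_expand ω hor (inc (K := K) N u) (inc (K := K) N u), ← Finset.sum_neg_distrib]
    let e : I ≃ I := ⟨st, st, hst, hst⟩
    rw [← Equiv.sum_comp e (fun i => -ω (Pi.single i (inc (K := K) N u i))
      (Pi.single (st i) (inc (K := K) N u (st i))))]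
    refine Finset.sum_congr rfl fun i _ => ?_
    change _ = -ω (Pi.single (st i) (inc (K := K) N u (st i)))
      (Pi.single (st (st i)) (inc (K := K) N u (st (st i))))
    rw [hst]
    by_cases h : N i
    · exact hsk i h _ _
    · rw [inc_neg N u h, Pi.single_zero, map_zero, LinearMap.zero_apply, map_zero, neg_zero]
  have h2 : (2 : K) * ω (inc (K := K) N u) (inc (K := K) N u) = 0 := by linear_combination h1
  exact (mul_eq_zero.1 h2).resolve_left two_ne_zero

include hnd hωρ in
/-- The Lie algebra restricts. -/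
theorem lieT_sub {x : End K (∀ i, E i)} (hx : x ∈ lieT (piRep r) χ) :
    ∃ x' ∈ lieT (piRep (fun i : {i // N i} => r i.1)) χ,
      ∀ v, res (K := K) N (x v) = x' (res (K := K) N v) := by
  obtain ⟨Y, -, hY⟩ := lieT_block ω hnd hωρ hx
  have h1 : ∀ v, res (K := K) N (x v) = res (K := K) N (x (inc (K := K) N (res (K := K) N v))) := by
    intro v
    funext i
    rw [res_apply, res_apply, hY, blk_apply, blk_apply, inc_pos N _ i.2]
    rfl
  refine ⟨(res (K := K) N).comp (x.comp (inc (K := K) N)), fun m φ hφ => ?_, fun v => h1 v⟩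
  exact kills_of_comp (res (K := K) N) (inc (K := K) N) (res_inc N) (x := x) (fun y => rfl) (hx m _ (tate_res N hφ))

include hnd hωρ in
theorem log_sub (hlog : ∀ (m : ℕ) (φ : MultilinearMap K (fun _ : Fin m × Fin 2 => ∀ i, E i) K),
    (∀ x ∈ lieT (piRep r) χ, Kills x φ) → IsTate (piRep r) χ m φ)
    (m : ℕ) (φ : MultilinearMap K (fun _ : Fin m × Fin 2 => ∀ i : {i // N i}, E i.1) K)
    (hφ : ∀ x ∈ lieT (piRep (fun i : {i // N i} => r i.1)) χ, Kills x φ) :
    IsTate (piRep (fun i : {i // N i} => r i.1)) χ m φ := by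
  have h1 : IsTate (piRep r) χ m (φ.compLinearMap (fun _ => res (K := K) N)) := by
    refine hlog m _ fun x hx => ?_
    obtain ⟨x', hx', h⟩ := lieT_sub N ω hnd hωρ hx
    exact kills_comp (res (K := K) N) h (hφ x' hx')
  have h2 := tate_inc N h1
  have h3 : (φ.compLinearMap (fun _ => res (K := K) N)).compLinearMap (fun _ => inc (K := K) N) = φ := by
    refine MultilinearMap.ext fun v => ?_
    rw [MultilinearMap.compLinearMap_apply, MultilinearMap.compLinearMap_apply]
    simp only [res_inc]
  rwa [h3] at h2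

include hst hor hN in
theorem k_sub [IsAlgClosed K] (hk : ∀ x, BD ω x → (∀ i, LinearMap.trace K (E i) (bl x i) = 0) →
    ∀ φ : MultilinearMap K (fun _ : Fin 2 × Fin 2 => ∀ i, E i) K, IsTate (piRep r) χ 2 φ →
      Kills x φ) (x : End K (∀ i : {i // N i}, E i.1)) (hx : BD (omS N ω) x)
    (htr : ∀ i, LinearMap.trace K (E i.1) (bl x i) = 0)
    (φ : MultilinearMap K (fun _ : Fin 2 × Fin 2 => ∀ i : {i // N i}, E i.1) K)
    (hφ : IsTate (piRep (fun i : {i // N i} => r i.1)) χ 2 φ) : Kills x φ := by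
  let y : End K (∀ i, E i) := (inc (K := K) N).comp (x.comp (res (K := K) N))
  have hy : ∀ v, y v = inc (K := K) N (x (res (K := K) N v)) := fun _ => rfl
  refine kills_of_comp (res (K := K) N) (inc (K := K) N) (res_inc N) (x := y) (fun v => ?_)
    (hk y ⟨fun u v => ?_, fun c => ?_⟩ (fun i => ?_) _ (tate_res N hφ))
  · rw [hy, res_inc, res_inc]
  · rw [hy, hy, om_inc_left N ω hor hN _ v, om_inc_right N ω hst hor hN _ u]
    exact hx.1 _ _
  · have h1 := hx.2 (fun i => c i.1)
    refine LinearMap.ext fun v => ?_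
    have h2 : res (K := K) N (bs c v) = bs (fun i : {i // N i} => c i.1) (res (K := K) N v) := rfl
    have h3 : ∀ w : ∀ i : {i // N i}, E i.1, bs c (inc (K := K) N w) =
        inc (K := K) N (bs (fun i : {i // N i} => c i.1) w) := by
      intro w
      funext i
      rw [bs_apply]
      by_cases h : N i
      · rw [inc_pos N _ h, inc_pos N _ h]
        rfl
      · rw [inc_neg N _ h, inc_neg N _ h, smul_zero]
    rw [Module.End.mul_apply, Module.End.mul_apply, hy, hy, h2, h3]
    congr 1
    exact congrArg (fun f : End K (∀ i : {i // N i}, E i.1) => f (res (K := K) N v)) h1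
  · by_cases h : N i
    · rw [← htr ⟨i, h⟩]
      congr 1
      refine LinearMap.ext fun u => ?_
      rw [bl_apply, bl_apply, hy, inc_pos N _ h, res_single N h]
    · have h1 : bl y i = 0 := by
        refine LinearMap.ext fun u => ?_
        rw [bl_apply, hy, inc_neg N _ h]
        rfl
      rw [h1, map_zero]

include hnd hωρ hst hor hN in
/-- The theorem for a part which is a sum of alternating and of dual components. -/
theorem sub_det [IsAlgClosed K]
    (hsk : ∀ i, N i → ∀ (u : E i) (v : E (st i)),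
      ω (Pi.single i u) (Pi.single (st i) v) = -ω (Pi.single (st i) v) (Pi.single i u))
    (hirr : ∀ i, Irr (r i))
    (hdist : ∀ i j, i ≠ j → ∀ (Δ : Subgroup G), Δ.FiniteIndex → ∀ T : E i →ₗ[K] E j,
      (∀ g ∈ Δ, ∀ u, T (r i g u) = r j g (T u)) → T = 0)
    (hlog : ∀ (m : ℕ) (φ : MultilinearMap K (fun _ : Fin m × Fin 2 => ∀ i, E i) K),
      (∀ x ∈ lieT (piRep r) χ, Kills x φ) → IsTate (piRep r) χ m φ)
    (hpos : ∀ i, 0 < finrank K (E i))
    (hk : ∀ x, BD ω x → (∀ i, LinearMap.trace K (E i) (bl x i) = 0) →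
      ∀ φ : MultilinearMap K (fun _ : Fin 2 × Fin 2 => ∀ i, E i) K, IsTate (piRep r) χ 2 φ →
        Kills x φ) {m : ℕ}
    (φ : MultilinearMap K (fun _ : Fin m × Fin 2 => ∀ i : {i // N i}, E i.1) K)
    (hφ : IsTate (piRep (fun i : {i // N i} => r i.1)) χ m φ) :
    φ ∈ Submodule.span K (PiDet (fun i : {i // N i} => r i.1) χ (stS N hN) m) := by
  have hirr' : ∀ i : {i // N i}, Irr (r i.1) := fun i => hirr i.1
  have hst' : ∀ i, stS N hN (stS N hN i) = i := fun i => Subtype.ext (hst i.1)
  exact H62CT.main_pi_det (omS N ω) (omS_alt N ω hst hor hsk) (omS_nd N ω hnd hor hN)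
    (omS_rep N ω hωρ) hst' (omS_or N ω hor hN)
    (El2.hel_of_kills (omS N ω) (omS_alt N ω hst hor hsk) (omS_nd N ω hnd hor hN)
      (omS_rep N ω hωρ) hst' (omS_or N ω hor hN) hirr'
      (fun i j hij => hdist i.1 j.1 (fun h => hij (Subtype.ext h)))
      (log_sub N ω hnd hωρ hlog) (fun i => hpos i.1) (k_sub N ω hst hor hN hk)
      (hasProj_pi hirr'))
    hirr' (fun i => hpos i.1) φ hφ

end

end Pool.Agent.H62O
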