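import Mathlib
import Pool.Agent.H62O.Sub

/-!
# The orthogonal blocks
-/

set_option autoImplicit false
set_option linter.unusedSectionVars false

namespace Pool.Agent.H62O.Ort

open Module Pool.Agent.H204R3.SP Pool.Agent.H204R3.GP Pool.Agent.W522.U
open Pool.Agent.H62CT Pool.Agent.H62CT.El2 Pool.Agent.TH118.WC

noncomputable section

variable {K : Type} [Field K] [CharZero K] [IsAlgClosed K]
  {I : Type} [Fintype I] [DecidableEq I] {E : I → Type} [∀ i, AddCommGroup (E i)]
  [∀ i, Module K (E i)] [∀ i, FiniteDimensional K (E i)] {G : Type} [Group G]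
  {r : ∀ i, Representation K G (E i)} {χ : G →* K} {st : I → I}
  (ω : (∀ i, E i) →ₗ[K] (∀ i, E i) →ₗ[K] K)
  (hnd : ∀ u, (∀ w, ω u w = 0) → u = 0)
  (hωρ : ∀ g u v, ω (piRep r g u) (piRep r g v) = χ g * ω u v)
  (hst : ∀ i, st (st i) = i)
  (hor : ∀ i j, j ≠ st i → ∀ (u : E i) (v : E j), ω (Pi.single i u) (Pi.single j v) = 0)
  {o : I} (ho : st o = o)
  (hsy : ∀ u v : E o, ω (Pi.single o u) (Pi.single o v) = ω (Pi.single o v) (Pi.single o u))

include hor ho in
theorem om_left (a : E o) (v : ∀ i, E i) :
    ω (Pi.single o a) v = ω (Pi.single o a) (Pi.single o (v o)) := by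
  conv_lhs => rw [← Finset.univ_sum_single v, map_sum]
  rw [Finset.sum_eq_single o]
  · intro k _ hk
    exact hor o k (by rw [ho]; exact hk) _ _
  · intro h
    exact absurd (Finset.mem_univ _) h

include hst hor ho in
theorem om_right (a : E o) (v : ∀ i, E i) :
    ω v (Pi.single o a) = ω (Pi.single o (v o)) (Pi.single o a) := by
  conv_lhs => rw [← Finset.univ_sum_single v, map_sum, LinearMap.sum_apply]
  rw [Finset.sum_eq_single o]
  · intro k _ hk
    refine hor k o (fun h => hk ?_) _ _
    rw [← hst k, ← h, ho]
  · intro h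
    exact absurd (Finset.mem_univ _) h

include hst hor ho hsy in
theorem om_sym (a : E o) (v : ∀ i, E i) : ω v (Pi.single o a) = ω (Pi.single o a) v := by
  rw [om_right ω hst hor ho, hsy, ← om_left ω hor ho a v]

/-- The rotations. -/
def aa (A B : ∀ i, E i) : End K (∀ i, E i) := (ω B).smulRight A - (ω A).smulRight B

theorem aa_apply (A B v : ∀ i, E i) : aa ω A B v = ω B v • A - ω A v • B := rfl

theorem aa_bracket {x : End K (∀ i, E i)} (hx : ∀ u v, ω (x u) v + ω u (x v) = 0)
    (A B : ∀ i, E i) : x * aa ω A B - aa ω A B * x = aa ω (x A) B + aa ω A (x B) := by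
  refine LinearMap.ext fun v => ?_
  simp only [LinearMap.sub_apply, LinearMap.add_apply, Module.End.mul_apply, aa_apply, map_sub,
    map_smul]
  have h1 : ω B (x v) = -ω (x B) v := by linear_combination hx B v
  have h2 : ω A (x v) = -ω (x A) v := by linear_combination hx A v
  rw [h1, h2]
  module

include hst hor ho hsy in
theorem bd_aa (a b : E o) : BD ω (aa ω (Pi.single o a) (Pi.single o b)) := by
  refine ⟨fun u v => ?_, fun c => LinearMap.ext fun v => ?_⟩
  · simp only [aa_apply, map_sub, map_smul, LinearMap.sub_apply, LinearMap.smul_apply, smul_eq_mul]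
    rw [om_sym ω hst hor ho hsy a u, om_sym ω hst hor ho hsy b u]
    ring
  · have h1 : ∀ a : E o, ω (Pi.single o a) (bs c v) = c o * ω (Pi.single o a) v := by
      intro a
      rw [om_left ω hor ho a (bs c v), om_left ω hor ho a v, bs_apply, Pi.single_smul, map_smul,
        smul_eq_mul]
    rw [Module.End.mul_apply, Module.End.mul_apply, aa_apply, aa_apply, h1, h1, map_sub, map_smul,
      map_smul, bs_single, bs_single]
    module

include hnd hor ho in
theorem nd_block (a : E o) (h : ∀ b : E o, ω (Pi.single o a) (Pi.single o b) = 0) : a = 0 := by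
  have h1 : (Pi.single o a : ∀ i, E i) = 0 := by
    apply hnd
    intro w
    rw [om_left ω hor ho]
    exact h _
  have h2 := congrFun h1 o
  rwa [Pi.single_eq_same] at h2

include hnd hor ho hsy in
theorem exists_basis : ∃ b : Basis (Fin (finrank K (E o))) K (E o),
    (∀ j k, j ≠ k → ω (Pi.single o (b j)) (Pi.single o (b k)) = 0) ∧
    ∀ j, ω (Pi.single o (b j)) (Pi.single o (b j)) ≠ 0 := by
  let β : LinearMap.BilinForm K (E o) :=
    ω.compl₁₂ (LinearMap.single K E o) (LinearMap.single K E o)
  have hβ : ∀ u v, β u v = ω (Pi.single o u) (Pi.single o v) := fun _ _ => rfl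
  have : Invertible (2 : K) := invertibleOfNonzero two_ne_zero
  obtain ⟨b, hb⟩ := LinearMap.BilinForm.exists_orthogonal_basis (B := β) ⟨fun u v => hsy u v⟩
  have h1 : ∀ j k, j ≠ k → ω (Pi.single o (b j)) (Pi.single o (b k)) = 0 := fun j k hjk => hb hjk
  refine ⟨b, h1, fun j h => b.ne_zero j ?_⟩
  apply nd_block ω hnd hor ho
  intro w
  have h2 : β (b j) = 0 := by
    refine b.ext fun k => ?_
    rw [LinearMap.zero_apply, hβ]
    by_cases hk : j = k
    · subst hk
      exact h
    · exact h1 j k hk
  rw [← hβ, h2, LinearMap.zero_apply]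

variable
  (hirr : ∀ i, Irr (r i))
  (hdist : ∀ i j, i ≠ j → ∀ (Δ : Subgroup G), Δ.FiniteIndex → ∀ T : E i →ₗ[K] E j,
    (∀ g ∈ Δ, ∀ u, T (r i g u) = r j g (T u)) → T = 0)
  (hlog : ∀ (m : ℕ) (φ : MultilinearMap K (fun _ : Fin m × Fin 2 => ∀ i, E i) K),
    (∀ x ∈ lieT (piRep r) χ, Kills x φ) → IsTate (piRep r) χ m φ)
  (hpos : ∀ i, 0 < finrank K (E i))
  (hk : ∀ x, BD ω x → (∀ i, LinearMap.trace K (E i) (bl x i) = 0) →
    ∀ φ : MultilinearMap K (fun _ : Fin 2 × Fin 2 => ∀ i, E i) K, IsTate (piRep r) χ 2 φ →
      Kills x φ)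

include hnd hωρ hst hor ho hsy hirr hdist hlog hpos hk in
/-- The rotations are in the Lie algebra. -/
theorem aa_mem (h3 : 3 ≤ finrank K (E o)) (a b : E o) :
    aa ω (Pi.single o a) (Pi.single o b) ∈ lieT (piRep r) χ := by
  obtain ⟨e, he1, he2⟩ := exists_basis ω hnd hor ho hsy
  have key : ∀ j k, aa ω (Pi.single o (e j)) (Pi.single o (e k)) ∈ lieT (piRep r) χ := by
    intro j k
    by_cases hjk : j = k
    · subst hjk
      have h1 : aa ω (Pi.single o (e j)) (Pi.single o (e j)) = 0 := by
        refine LinearMap.ext fun v => ?_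
        rw [aa_apply, sub_self, LinearMap.zero_apply]
      rw [h1]
      exact Submodule.zero_mem _
    · obtain ⟨l, hlj, hlk⟩ : ∃ l, l ≠ j ∧ l ≠ k := by
        by_contra hcon
        push Not at hcon
        have h1 : (Finset.univ : Finset (Fin (finrank K (E o)))) ⊆ {j, k} := by
          intro l _
          rw [Finset.mem_insert, Finset.mem_singleton]
          by_cases h : l = j
          · exact Or.inl h
          · exact Or.inr (hcon l h)
        have h2 := Finset.card_le_card h1
        rw [Finset.card_univ, Fintype.card_fin] at h2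
        have h4 := Finset.card_le_two (a := j) (b := k)
        omega
      have h1 := bd_bracket' ω hnd hωρ hst hor hirr hdist hlog hpos hk (hasProj_pi hirr)
        (bd_aa ω hst hor ho hsy (e l) (e j)) (bd_aa ω hst hor ho hsy (e l) (e k))
      rw [aa_bracket ω (bd_aa ω hst hor ho hsy (e l) (e j)).1] at h1
      have h2 : aa ω (Pi.single o (e l)) (Pi.single o (e j)) (Pi.single o (e l)) =
          -(ω (Pi.single o (e l)) (Pi.single o (e l)) • Pi.single o (e j)) := by
        rw [aa_apply, he1 j l hlj.symm, zero_smul, zero_sub]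
      have h3 : aa ω (Pi.single o (e l)) (Pi.single o (e j)) (Pi.single o (e k)) = 0 := by
        rw [aa_apply, he1 j k hjk, he1 l k hlk, zero_smul, zero_smul, sub_zero]
      rw [h2, h3] at h1
      have h4 : aa ω (Pi.single o (e j)) (Pi.single o (e k)) =
          (-(ω (Pi.single o (e l)) (Pi.single o (e l)))⁻¹) •
          (aa ω (-(ω (Pi.single o (e l)) (Pi.single o (e l)) • Pi.single o (e j)))
            (Pi.single o (e k)) + aa ω (Pi.single o (e l)) 0) := by
        refine LinearMap.ext fun v => ?_
        simp only [LinearMap.smul_apply, LinearMap.add_apply, aa_apply, map_neg, map_smul,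
          LinearMap.neg_apply, map_zero, LinearMap.zero_apply, zero_smul, smul_zero,
          sub_zero, add_zero, smul_eq_mul]
        have h5 := he2 l
        generalize ω (Pi.single o (e l)) (Pi.single o (e l)) = d at h5
        match_scalars <;> field_simp
      rw [h4]
      exact Submodule.smul_mem _ _ h1
  -- expansion
  have hlin : ∀ (f g : Fin (finrank K (E o)) → K), aa ω (Pi.single o (∑ j, f j • e j))
      (Pi.single o (∑ k, g k • e k)) = ∑ j, ∑ k, (f j * g k) •
        aa ω (Pi.single o (e j)) (Pi.single o (e k)) := by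
    intro f g
    have hs : ∀ f : Fin (finrank K (E o)) → K, (Pi.single o (∑ j, f j • e j) : ∀ i, E i) =
        ∑ j, f j • Pi.single o (e j) := by
      intro f
      have h1 := map_sum (LinearMap.single K E o) (fun j => f j • e j) Finset.univ
      refine h1.trans (Finset.sum_congr rfl fun j _ => ?_)
      rw [map_smul]
      rfl
    rw [hs, hs]
    refine LinearMap.ext fun v => ?_
    simp only [aa_apply, map_sum, LinearMap.sum_apply, map_smul, LinearMap.smul_apply,
      smul_eq_mul, smul_sub, Finset.sum_sub_distrib]
    congr 1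
    · rw [Finset.sum_smul_sum]
      rw [Finset.sum_comm]
      refine Finset.sum_congr rfl fun j _ => Finset.sum_congr rfl fun k _ => ?_
      rw [smul_smul, smul_smul]
      congr 1
      ring
    · rw [Finset.sum_smul_sum]
      refine Finset.sum_congr rfl fun j _ => Finset.sum_congr rfl fun k _ => ?_
      rw [smul_smul, smul_smul]
      congr 1
      ring
  rw [← e.sum_repr a, ← e.sum_repr b, hlin]
  exact Submodule.sum_mem _ fun j _ => Submodule.sum_mem _ fun k _ => Submodule.smul_mem _ _ (key j k)

include hnd hωρ hst hor ho hsy hirr in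
/-- There are no orthogonal blocks of dimension two. -/
theorem ne_two : finrank K (E o) ≠ 2 := by
  intro h2
  obtain ⟨e₀, he1, he2⟩ := exists_basis ω hnd hor ho hsy
  let e : Basis (Fin 2) K (E o) := e₀.reindex (finCongr h2)
  have h01 : ω (Pi.single o (e 0)) (Pi.single o (e 1)) = 0 := by
    rw [Basis.reindex_apply, Basis.reindex_apply]
    refine he1 _ _ fun h => ?_
    have := (finCongr h2).symm.injective h
    exact absurd this (by decide)
  have h10 : ω (Pi.single o (e 1)) (Pi.single o (e 0)) = 0 := by rw [hsy, h01]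
  set d₀ := ω (Pi.single o (e 0)) (Pi.single o (e 0)) with hd₀
  set d₁ := ω (Pi.single o (e 1)) (Pi.single o (e 1)) with hd₁
  have hd0 : d₀ ≠ 0 := by
    rw [hd₀, Basis.reindex_apply]
    exact he2 _
  have hd1 : d₁ ≠ 0 := by
    rw [hd₁, Basis.reindex_apply]
    exact he2 _
  obtain ⟨c, hc⟩ := IsAlgClosed.exists_pow_nat_eq (-(d₀ / d₁)) (n := 2) (by norm_num)
  have hc' : c ^ 2 * d₁ = -d₀ := by
    rw [hc]
    field_simp
  have hc0 : c ≠ 0 := by
    rintro rfl
    apply hd0
    linear_combination hc'
  -- the form in coordinates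
  have hform : ∀ x y : E o, ω (Pi.single o x) (Pi.single o y) =
      e.repr x 0 * e.repr y 0 * d₀ + e.repr x 1 * e.repr y 1 * d₁ := by
    intro x y
    have hx : (Pi.single o x : ∀ i, E i) = e.repr x 0 • Pi.single o (e 0) +
        e.repr x 1 • Pi.single o (e 1) := by
      have h1 := e.sum_repr x
      rw [Fin.sum_univ_two] at h1
      conv_lhs => rw [← h1]
      rw [Pi.single_add, Pi.single_smul, Pi.single_smul]
    have hy : (Pi.single o y : ∀ i, E i) = e.repr y 0 • Pi.single o (e 0) +
        e.repr y 1 • Pi.single o (e 1) := by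
      have h1 := e.sum_repr y
      rw [Fin.sum_univ_two] at h1
      conv_lhs => rw [← h1]
      rw [Pi.single_add, Pi.single_smul, Pi.single_smul]
    rw [hx, hy]
    simp only [map_add, LinearMap.add_apply, map_smul, LinearMap.smul_apply, smul_eq_mul]
    rw [h01, h10, ← hd₀, ← hd₁]
    ring
  let u : E o := e 0 + c • e 1
  have hu0 : e.repr u 0 = 1 := by
    simp [u]
  have hu1 : e.repr u 1 = c := by
    simp [u]
  let L : Submodule K (E o) := Submodule.span K {u}
  -- isotropic vectors
  have hiso : ∀ x : E o, ω (Pi.single o x) (Pi.single o x) = 0 → x ≠ 0 →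
      x ∈ L ∨ e.repr x 1 = -(c * e.repr x 0) := by
    intro x hx hx0
    rw [hform] at hx
    have h1 : (e.repr x 1 - c * e.repr x 0) * (e.repr x 1 + c * e.repr x 0) = 0 := by
      apply mul_right_cancel₀ hd1
      linear_combination hx - (e.repr x 0) ^ 2 * hc'
    rcases mul_eq_zero.1 h1 with h | h
    · left
      rw [Submodule.mem_span_singleton]
      refine ⟨e.repr x 0, e.repr.injective (Finsupp.ext fun k => ?_)⟩
      rw [map_smul, Finsupp.smul_apply, smul_eq_mul]
      fin_cases k
      · change e.repr x 0 * e.repr u 0 = e.repr x 0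
        rw [hu0, mul_one]
      · change e.repr x 0 * e.repr u 1 = e.repr x 1
        rw [hu1]
        linear_combination -h
    · right
      linear_combination h
  have hun : u ≠ 0 := by
    intro h
    rw [h] at hu0
    simp at hu0
  have huu : ω (Pi.single o u) (Pi.single o u) = 0 := by
    rw [hform, hu0, hu1]
    linear_combination hc'
  have hgu : ∀ g, ω (Pi.single o (r o g u)) (Pi.single o (r o g u)) = 0 := by
    intro g
    rw [← piRep_single, hωρ, huu, mul_zero]
  have hgn : ∀ g, r o g u ≠ 0 := by
    intro g h
    apply hun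
    have h1 : r o g⁻¹ (r o g u) = u := by
      rw [← Module.End.mul_apply, ← map_mul, inv_mul_cancel, map_one, Module.End.one_apply]
    rw [← h1, h, map_zero]
  let H : Subgroup G :=
    { carrier := {g | r o g u ∈ L}
      mul_mem' := by
        intro g h hg hh
        obtain ⟨a, ha⟩ := Submodule.mem_span_singleton.1 hh
        change r o (g * h) u ∈ L
        rw [map_mul, Module.End.mul_apply, ← ha, map_smul]
        exact L.smul_mem _ hg
      one_mem' := by
        change r o 1 u ∈ L
        rw [map_one, Module.End.one_apply]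
        exact Submodule.mem_span_singleton_self u
      inv_mem' := by
        intro g hg
        obtain ⟨a, ha⟩ := Submodule.mem_span_singleton.1 hg
        have ha0 : a ≠ 0 := by
          rintro rfl
          rw [zero_smul] at ha
          exact hgn g ha.symm
        change r o g⁻¹ u ∈ L
        have h1 : r o g⁻¹ (a • u) = u := by
          rw [ha, ← Module.End.mul_apply, ← map_mul, inv_mul_cancel, map_one, Module.End.one_apply]
        rw [map_smul] at h1
        have h2 : r o g⁻¹ u = a⁻¹ • u := by
          rw [← h1, smul_smul, inv_mul_cancel₀ ha0, one_smul]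
          rw [h1]
        rw [h2]
        exact L.smul_mem _ (Submodule.mem_span_singleton_self u) }
  have hH : ∀ g, g ∈ H ↔ r o g u ∈ L := fun g => Iff.rfl
  have hfin : H.FiniteIndex := by
    have hq : ∀ g h : G, g ∉ H → h ∉ H → g⁻¹ * h ∈ H := by
      intro g h hg hh
      rw [hH] at hg hh ⊢
      have h1 := (hiso _ (hgu g) (hgn g)).resolve_left hg
      have h3 := (hiso _ (hgu h) (hgn h)).resolve_left hh
      have hg0 : e.repr (r o g u) 0 ≠ 0 := by
        intro h0
        apply hgn g
        refine e.repr.injective (Finsupp.ext fun k => ?_)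
        rw [map_zero, Finsupp.zero_apply]
        fin_cases k
        · exact h0
        · change e.repr (r o g u) 1 = 0
          rw [h1, h0, mul_zero, neg_zero]
      have h4 : r o h u = (e.repr (r o h u) 0 / e.repr (r o g u) 0) • r o g u := by
        refine e.repr.injective (Finsupp.ext fun k => ?_)
        rw [map_smul, Finsupp.smul_apply, smul_eq_mul]
        fin_cases k
        · change e.repr (r o h u) 0 = e.repr (r o h u) 0 / e.repr (r o g u) 0 * e.repr (r o g u) 0
          rw [div_mul_cancel₀ _ hg0]
        · change e.repr (r o h u) 1 = e.repr (r o h u) 0 / e.repr (r o g u) 0 * e.repr (r o g u) 1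
          rw [h1, h3]
          field_simp
      rw [map_mul, Module.End.mul_apply, h4, map_smul, ← Module.End.mul_apply, ← map_mul,
        inv_mul_cancel, map_one, Module.End.one_apply]
      exact L.smul_mem _ (Submodule.mem_span_singleton_self u)
    have : Finite (G ⧸ H) := by
      refine Finite.of_injective (fun q : G ⧸ H => (q = (QuotientGroup.mk (1 : G) : G ⧸ H))) ?_
      intro q q' hqq
      induction q using QuotientGroup.induction_on with
      | H g =>
        induction q' using QuotientGroup.induction_on with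
        | H h =>
          by_cases h1 : g ∈ H
          · have h5 : (QuotientGroup.mk g : G ⧸ H) = QuotientGroup.mk 1 := by
              rw [QuotientGroup.eq, mul_one]
              exact H.inv_mem h1
            have h6 : (QuotientGroup.mk h : G ⧸ H) = QuotientGroup.mk 1 := (iff_of_eq hqq).1 h5
            rw [h5, h6]
          · by_cases h3 : h ∈ H
            · have h5 : (QuotientGroup.mk h : G ⧸ H) = QuotientGroup.mk 1 := by
                rw [QuotientGroup.eq, mul_one]
                exact H.inv_mem h3
              have h6 : (QuotientGroup.mk g : G ⧸ H) = QuotientGroup.mk 1 := (iff_of_eq hqq).2 h5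
              rw [h5, h6]
            · exact QuotientGroup.eq.2 (hq g h h1 h3)
    exact Subgroup.finiteIndex_of_finite_quotient
  rcases hirr o H hfin L (fun g hg v hv => by
    obtain ⟨a, rfl⟩ := Submodule.mem_span_singleton.1 hv
    rw [map_smul]
    exact L.smul_mem _ hg) with h | h
  · apply hun
    have h1 : u ∈ L := Submodule.mem_span_singleton_self u
    rw [h, Submodule.mem_bot] at h1
    exact h1
  · have h1 := finrank_span_singleton (K := K) hun
    change finrank K L = 1 at h1
    rw [h, finrank_top, h2] at h1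
    exact absurd h1 (by norm_num)

end

end Pool.Agent.H62O.Ort
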