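import Mathlib
import Pool.Agent.H62O.Ort
import Pool.Agent.N995.Fso
import Pool.Agent.H62CT.Tr2

/-!
# Invariant forms in the variables of an orthogonal block
-/

set_option autoImplicit false
set_option linter.unusedSectionVars false

namespace Pool.Agent.H62O.Pol

open Module Pool.Agent.H204R3.SP Pool.Agent.H204R3.GP Pool.Agent.W522.U
open Pool.Agent.H62CT Pool.Agent.H62CT.El2 Pool.Agent.TH118.WC Pool.Agent.N995 Pool.Agent.TH125.Nod

noncomputable section

variable {K : Type} [Field K] [CharZero K] [IsAlgClosed K]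
  {I : Type} [Fintype I] [DecidableEq I] {E : I → Type} [∀ i, AddCommGroup (E i)]
  [∀ i, Module K (E i)] [∀ i, FiniteDimensional K (E i)] {G : Type} [Group G]
  {r : ∀ i, Representation K G (E i)} {χ : G →* K} {st : I → I}
  (ω : (∀ i, E i) →ₗ[K] (∀ i, E i) →ₗ[K] K) (o : I)

/-- The form of the block. -/
def bo : (∀ i, E i) →ₗ[K] (∀ i, E i) →ₗ[K] K :=
  ω.compl₁₂ ((LinearMap.single K E o).comp (LinearMap.proj o))
    ((LinearMap.single K E o).comp (LinearMap.proj o))

theorem bo_apply (u v : ∀ i, E i) : bo ω o u v = ω (Pi.single o (u o)) (Pi.single o (v o)) := rfl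

/-- The determinant of the block. -/
def dm : MultilinearMap K (fun _ : Fin (finrank K (E o)) => ∀ i, E i) K :=
  ((Matrix.detRowAlternating (R := K) (n := Fin (finrank K (E o)))).toMultilinearMap).compLinearMap
    (fun _ => LinearMap.pi fun s' => (bo ω o).flip (Pi.single o (finBasis K (E o) s')))

theorem dm_apply (y : Fin (finrank K (E o)) → ∀ i, E i) : dm ω o y =
    Matrix.det (Matrix.of fun s s' => bo ω o (y s) (Pi.single o (finBasis K (E o) s'))) := rfl

/-- The products of forms on pairs of variables and determinants. -/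
def Pm {S : Type} (P Q : Type) [Fintype P] [Fintype Q]
    (e : (P × Fin 2) ⊕ (Σ _ : Q, Fin (finrank K (E o))) ≃ S) :
    MultilinearMap K (fun _ : S => ∀ i, E i) K :=
  (sumMul (Tr2.pairs (fun _ : P => bo ω o)) (sigProd (fun _ : Q => dm ω o))).domDomCongr e

theorem Pm_apply {S : Type} (P Q : Type) [Fintype P] [Fintype Q]
    (e : (P × Fin 2) ⊕ (Σ _ : Q, Fin (finrank K (E o))) ≃ S) (y : S → ∀ i, E i) :
    Pm ω o P Q e y = (∏ p, bo ω o (y (e (Sum.inl (p, 0)))) (y (e (Sum.inl (p, 1))))) *
      ∏ q : Q, Matrix.det (Matrix.of fun s s' => bo ω o (y (e (Sum.inr ⟨q, s⟩)))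
        (Pi.single o (finBasis K (E o) s'))) := by
  change Tr2.pairs (fun _ : P => bo ω o) (fun k => y (e (Sum.inl k))) * _ = _
  rw [Tr2.pairs_apply]
  rfl

/-- The products with at most one determinant. -/
def PS (S : Type) : Set (MultilinearMap K (fun _ : S => ∀ i, E i) K) :=
  {φ | ∃ (P Q : Type) (_ : Fintype P) (_ : Fintype Q) (_ : Subsingleton Q)
    (e : (P × Fin 2) ⊕ (Σ _ : Q, Fin (finrank K (E o))) ≃ S), φ = Pm ω o P Q e}

/-- The matrix of the form. -/
def QM : Matrix (Fin (finrank K (E o))) (Fin (finrank K (E o))) K :=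
  Matrix.of fun j k => ω (Pi.single o (finBasis K (E o) j)) (Pi.single o (finBasis K (E o) k))

theorem bo_single (j k : Fin (finrank K (E o))) :
    bo ω o (Pi.single o (finBasis K (E o) j)) (Pi.single o (finBasis K (E o) k)) =
      QM ω o j k := by
  rw [bo_apply, Pi.single_eq_same, Pi.single_eq_same]
  rfl

theorem det_QM (y : Fin (finrank K (E o)) → Fin (finrank K (E o))) :
    Matrix.det (Matrix.of fun s s' => QM ω o (y s) s') = dJ K y * (QM ω o).det := by
  rw [dJ, ← Matrix.det_mul]
  congr 1
  ext a b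
  rw [Matrix.mul_apply, Finset.sum_eq_single (y a)]
  · simp
  · intro c _ hc
    rw [Matrix.of_apply, if_neg hc.symm, zero_mul]
  · intro h
    exact absurd (Finset.mem_univ _) h

variable (hnd : ∀ u, (∀ w, ω u w = 0) → u = 0)
  (hst : ∀ i, st (st i) = i)
  (hor : ∀ i j, j ≠ st i → ∀ (u : E i) (v : E j), ω (Pi.single i u) (Pi.single j v) = 0)
  (ho : st o = o)
  (hsy : ∀ u v : E o, ω (Pi.single o u) (Pi.single o v) = ω (Pi.single o v) (Pi.single o u))

include hnd hor ho hsy in
theorem det_ne : (QM ω o).det ≠ 0 := by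
  intro h
  obtain ⟨x, hx, hx0⟩ := Matrix.exists_mulVec_eq_zero_iff.2 h
  apply hx
  let u : E o := ∑ k, x k • finBasis K (E o) k
  have hu : u = 0 := by
    apply Ort.nd_block ω hnd hor ho
    intro w
    have h1 : ∀ j, ω (Pi.single o (finBasis K (E o) j)) (Pi.single o u) = 0 := by
      intro j
      have h2 : (Pi.single o u : ∀ i, E i) = ∑ k, x k • Pi.single o (finBasis K (E o) k) := by
        have h3 := map_sum (LinearMap.single K E o) (fun k => x k • finBasis K (E o) k) Finset.univ
        refine h3.trans (Finset.sum_congr rfl fun j _ => ?_)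
        rw [map_smul]
        rfl
      rw [h2, map_sum]
      have h3 := congrFun hx0 j
      rw [Matrix.mulVec, dotProduct] at h3
      rw [← h3.trans (Pi.zero_apply _)]
      refine Finset.sum_congr rfl fun k _ => ?_
      rw [map_smul, smul_eq_mul, mul_comm]
      rfl
    rw [hsy]
    have h4 : (ω.flip (Pi.single o u)).comp (LinearMap.single K E o) = 0 :=
      (finBasis K (E o)).ext fun j => h1 j
    exact congrArg (fun f : E o →ₗ[K] K => f w) h4
  have h5 : ∑ k, x k • finBasis K (E o) k = 0 := hu
  funext k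
  exact Fintype.linearIndependent_iff.1 (finBasis K (E o)).linearIndependent x h5 k

include hnd hor ho hsy in
theorem gs_mem {M : Type} [AddCommGroup M] [Module K M] {S : Type} [Fintype S] [DecidableEq S]
    {f : (S → Fin (finrank K (E o))) → M}
    (hf : f ∈ GS M (QM ω o) S (fun _ : Empty → Fin (finrank K (E o)) => (1 : K)) ⊔
      GS M (QM ω o) S (dJ K)) :
    f ∈ Submodule.span K {g | ∃ φ ∈ PS ω o S, ∃ w : M,
      g = fun x => φ (fun k => Pi.single o (finBasis K (E o) (x k))) • w} := by
  refine (sup_le ?_ ?_ : _ ≤ Submodule.span K _) hf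
  · refine Submodule.span_le.2 ?_
    rintro _ ⟨P, _, e, w, rfl⟩
    refine Submodule.subset_span ⟨_, ⟨P, Empty, inferInstance, inferInstance, inferInstance,
      (Equiv.sumCongr (Equiv.refl _) (Equiv.equivOfIsEmpty _ _)).trans e, rfl⟩, w, ?_⟩
    funext x
    rw [Pm_apply]
    unfold gS
    congr 1
    exact congrArg₂ (· * ·) (Finset.prod_congr rfl fun l _ => (bo_single ω o _ _).symm)
      (Fintype.prod_empty _).symm
  · refine Submodule.span_le.2 ?_
    rintro _ ⟨P, _, e, w, rfl⟩
    have hd := det_ne ω o hnd hor ho hsy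
    refine Submodule.subset_span ⟨_, ⟨P, Unit, inferInstance, inferInstance, inferInstance,
      (Equiv.sumCongr (Equiv.refl _) (Equiv.uniqueSigma _)).trans e, rfl⟩,
        ((QM ω o).det)⁻¹ • w, ?_⟩
    funext x
    rw [Pm_apply]
    unfold gS
    rw [smul_smul]
    congr 1
    have h1 : ∀ p, bo ω o (Pi.single o (finBasis K (E o) (x (e (Sum.inl (p, 0))))))
        (Pi.single o (finBasis K (E o) (x (e (Sum.inl (p, 1)))))) =
        QM ω o (x (e (Sum.inl (p, 0)))) (x (e (Sum.inl (p, 1)))) := fun p => bo_single ω o _ _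
    have h2 : Matrix.det (Matrix.of fun s s' => bo ω o
        (Pi.single o (finBasis K (E o) (x (e (Sum.inr s)))))
        (Pi.single o (finBasis K (E o) s'))) = dJ K (fun t => x (e (Sum.inr t))) *
        (QM ω o).det := by
      rw [← det_QM]
      congr 1
      ext s s'
      rw [Matrix.of_apply, Matrix.of_apply, bo_single]
    rw [Fintype.prod_unique (ι := Unit)]
    change _ = ((∏ p, bo ω o (Pi.single o (finBasis K (E o) (x (e (Sum.inl (p, 0))))))
        (Pi.single o (finBasis K (E o) (x (e (Sum.inl (p, 1))))))) *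
        Matrix.det (Matrix.of fun s s' => bo ω o
        (Pi.single o (finBasis K (E o) (x (e (Sum.inr s)))))
        (Pi.single o (finBasis K (E o) s')))) * _
    rw [h2, Finset.prod_congr rfl (fun p _ => h1 p)]
    field_simp

theorem exists_li (S : Type) [Finite S] : ∃ (N : ℕ)
    (p : Fin N → MultilinearMap K (fun _ : S => ∀ i, E i) K),
    (∀ j, p j ∈ PS ω o S) ∧ LinearIndependent K p ∧
      ∀ φ ∈ PS ω o S, φ ∈ Submodule.span K (Set.range p) := by
  obtain ⟨s, hs, hspan, hli⟩ := exists_linearIndependent K (PS ω o S)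
  have hfin : s.Finite := hli.setFinite
  have : Fintype s := hfin.fintype
  let e := (Fintype.equivFin s).symm
  refine ⟨Fintype.card s, fun j => (e j).1, fun j => hs (e j).2, hli.comp _ e.injective,
    fun φ hφ => ?_⟩
  have h1 : Set.range (fun j => (e j).1) = s := by
    ext x
    constructor
    · rintro ⟨j, rfl⟩
      exact (e j).2
    · intro hx
      exact ⟨e.symm ⟨x, hx⟩, by simp⟩
  rw [h1, hspan]
  exact Submodule.subset_span hφ

theorem evS_update {κ S : Type} [DecidableEq κ] [DecidableEq S]
    {V : Type} [AddCommGroup V] [Module K V]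
    (ψ : MultilinearMap K (fun _ : κ ⊕ S => V) K) (v : κ → V) (w : S → V) (k : κ) (x : V) :
    ψ (Function.update (Sum.elim v w) (Sum.inl k) x) = ψ (Sum.elim (Function.update v k x) w) := by
  rw [Sum.update_elim_inl]

include hnd hor ho hsy in
/-- **The forms are combinations of products.** -/
theorem decomp {κ S : Type} [Fintype κ] [DecidableEq κ] [Fintype S] [DecidableEq S]
    (ψ : MultilinearMap K (fun _ : κ ⊕ S => ∀ i, E i) K)
    (p₀ : (∀ i, E i) →ₗ[K] (∀ i, E i)) (hp₀ : ∀ v, p₀ v o = 0)
    (hp₁ : ∀ a : E o, p₀ (Pi.single o a) = 0) (hpp : ∀ v, p₀ (p₀ v) = p₀ v)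
    (hsupp : ∀ v, ψ (Sum.elim (fun k => p₀ (v (Sum.inl k)))
      (fun k => Pi.single o (v (Sum.inr k) o))) = ψ v)
    (hkill : ∀ a b : E o, Kills (Ort.aa ω (Pi.single o a) (Pi.single o b)) ψ)
    {N : ℕ} {p : Fin N → MultilinearMap K (fun _ : S => ∀ i, E i) K}
    (hp : ∀ φ ∈ PS ω o S, φ ∈ Submodule.span K (Set.range p))
    (hpP : ∀ j, p j ∈ PS ω o S) :
    ∃ w : Fin N → MultilinearMap K (fun _ : κ => ∀ i, E i) K,
      (∀ j v, w j (fun k => p₀ (v k)) = w j v) ∧ ψ = ∑ j, sumMul (w j) (p j) := by
  set b := finBasis K (E o) with hb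
  let f : (S → Fin (finrank K (E o))) → MultilinearMap K (fun _ : κ => ∀ i, E i) K := fun x =>
    evS (fun k => Pi.single o (b (x k))) ψ
  have hf : ∀ x v, f x v = ψ (Sum.elim v (fun k => Pi.single o (b (x k)))) := fun _ _ => rfl
  have hfp : ∀ x v, f x (fun k => p₀ (v k)) = f x v := by
    intro x v
    rw [hf, hf, ← hsupp, ← hsupp (Sum.elim v _)]
    congr 1
    funext k
    rcases k with k | k
    · exact hpp _
    · rfl
  -- invariance
  have hinv : Inv (fun _ : Fin (finrank K (E o)) => ()) (QM ω o) (fun _ => 1) f := by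
    intro u v _ x
    refine MultilinearMap.ext fun w => ?_
    have h1 := hkill (b u) (b v) (Sum.elim w (fun k => Pi.single o (b (x k))))
    rw [Fintype.sum_sum_type] at h1
    have h2 : ∑ k, ψ (Function.update (Sum.elim w (fun k => Pi.single o (b (x k)))) (Sum.inl k)
        (Ort.aa ω (Pi.single o (b u)) (Pi.single o (b v))
          (Sum.elim w (fun k => Pi.single o (b (x k))) (Sum.inl k)))) = 0 := by
      refine Finset.sum_eq_zero fun k _ => ?_
      rw [← hsupp]
      refine MultilinearMap.map_coord_zero _ (Sum.inl k) ?_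
      rw [Sum.elim_inl, Function.update_self, Sum.elim_inl, Ort.aa_apply, map_sub, map_smul, map_smul,
        hp₁, hp₁, smul_zero, smul_zero, sub_zero]
    rw [h2, zero_add] at h1
    rw [_root_.sum_apply, _root_.zero_apply, ← h1]
    refine Finset.sum_congr rfl fun k _ => ?_
    have h3 : Ort.aa ω (Pi.single o (b u)) (Pi.single o (b v)) (Pi.single o (b (x k))) =
        QM ω o v (x k) • Pi.single o (b u) - QM ω o u (x k) • Pi.single o (b v) := rfl
    have h4 : ∀ z : ∀ i, E i, ψ (Function.update (Sum.elim w (fun k => Pi.single o (b (x k))))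
        (Sum.inr k) z) = ψ (Sum.elim w (Function.update (fun k => Pi.single o (b (x k))) k z)) := by
      intro z
      rw [Sum.update_elim_inr]
    have h5 : ∀ l, f (Function.update x k l) w =
        ψ (Sum.elim w (Function.update (fun k => Pi.single o (b (x k))) k (Pi.single o (b l)))) := by
      intro l
      rw [hf]
      congr 2
      funext k'
      by_cases hk : k' = k
      · subst hk
        rw [Function.update_self, Function.update_self]
      · rw [Function.update_of_ne hk, Function.update_of_ne hk]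
    rw [Sum.elim_inr, h3, MultilinearMap.map_update_sub, MultilinearMap.map_update_smul,
      MultilinearMap.map_update_smul, h4, h4, ← h5, ← h5]
    simp
  have hQR : QM ω o * (QM ω o)⁻¹ = 1 :=
    Matrix.mul_nonsing_inv _ (isUnit_iff_ne_zero.2 (det_ne ω o hnd hor ho hsy))
  have h1 := gs_mem ω o hnd hor ho hsy (fso (Q := QM ω o) (R := (QM ω o)⁻¹)
    (fun a c => hsy _ _) hQR (Fintype.card S) S f rfl hinv)
  -- the coefficients
  have h2' : ∀ g ∈ Submodule.span K {g : (S → Fin (finrank K (E o))) →
      MultilinearMap K (fun _ : κ => ∀ i, E i) K | ∃ φ ∈ PS ω o S, ∃ w,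
        g = fun x => φ (fun k => Pi.single o (finBasis K (E o) (x k))) • w},
      ∃ w : Fin N → MultilinearMap K (fun _ : κ => ∀ i, E i) K,
      g = fun x => ∑ j, p j (fun k => Pi.single o (b (x k))) • w j := by
    intro g hg
    induction hg using Submodule.span_induction with
    | mem g hg =>
      obtain ⟨φ, hφ, w, rfl⟩ := hg
      obtain ⟨c, rfl⟩ := (Submodule.mem_span_range_iff_exists_fun K).1 (hp φ hφ)
      refine ⟨fun j => c j • w, ?_⟩
      funext x
      rw [_root_.sum_apply, Finset.sum_smul]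
      refine Finset.sum_congr rfl fun j _ => ?_
      rw [_root_.smul_apply, smul_smul, smul_eq_mul, mul_comm]
    | zero =>
      refine ⟨0, ?_⟩
      funext x
      simp
    | add g g' _ _ hg hg' =>
      obtain ⟨w, rfl⟩ := hg
      obtain ⟨w', rfl⟩ := hg'
      refine ⟨w + w', ?_⟩
      funext x
      rw [Pi.add_apply, ← Finset.sum_add_distrib]
      refine Finset.sum_congr rfl fun j _ => ?_
      rw [Pi.add_apply, smul_add]
    | smul c g _ hg =>
      obtain ⟨w, rfl⟩ := hg
      refine ⟨c • w, ?_⟩
      funext x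
      rw [Pi.smul_apply, Finset.smul_sum]
      refine Finset.sum_congr rfl fun j _ => ?_
      rw [Pi.smul_apply, smul_comm]
  obtain ⟨w, hw⟩ := h2' f h1
  refine ⟨fun j => (w j).compLinearMap (fun _ => p₀), fun j v => ?_, ?_⟩
  · rw [MultilinearMap.compLinearMap_apply, MultilinearMap.compLinearMap_apply]
    simp only [hpp]
  refine MultilinearMap.ext fun v => ?_
  rw [_root_.sum_apply]
  -- both sides depend only on the components in the block
  have hbb : ∀ u u' : ∀ i, E i, bo ω o (Pi.single o (u o)) u' = bo ω o u u' := by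
    intro u u'
    rw [bo_apply, bo_apply, Pi.single_eq_same]
  have hbb' : ∀ u u' : ∀ i, E i, bo ω o u (Pi.single o (u' o)) = bo ω o u u' := by
    intro u u'
    rw [bo_apply, bo_apply, Pi.single_eq_same]
  have hps : ∀ j (y : S → ∀ i, E i), p j (fun k => Pi.single o (y k o)) = p j y := by
    intro j y
    obtain ⟨P, Q, _, _, _, e, he⟩ := hpP j
    rw [he, Pm_apply, Pm_apply]
    simp only [hbb, hbb']
  let w' : κ → ∀ i, E i := fun k => p₀ (v (Sum.inl k))
  let L : MultilinearMap K (fun _ : S => E o) K :=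
    (evS w' (ψ.domDomCongr (Equiv.sumComm κ S))).compLinearMap (fun _ => LinearMap.single K E o)
  have hL : ∀ y, L y = ψ (Sum.elim w' (fun k => Pi.single o (y k))) := by
    intro y
    change ψ _ = ψ _
    congr 1
    funext k
    rcases k with k | k <;> rfl
  let L' : MultilinearMap K (fun _ : S => E o) K :=
    ∑ j, (w j w') • (p j).compLinearMap (fun _ => LinearMap.single K E o)
  have hL' : ∀ y, L' y = ∑ j, w j w' * p j (fun k => Pi.single o (y k)) := by
    intro y
    simp only [L']
    rw [_root_.sum_apply]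
    rfl
  have hLL : L = L' := by
    refine Basis.ext_multilinear (fun _ => b) fun x => ?_
    rw [hL, hL']
    have h3 : f x w' = (∑ j, p j (fun k => Pi.single o (b (x k))) • w j) w' := by rw [hw]
    rw [_root_.sum_apply] at h3
    rw [← hf, h3]
    refine Finset.sum_congr rfl fun j _ => ?_
    rw [_root_.smul_apply, smul_eq_mul, mul_comm]
  rw [← hsupp, ← hL (fun k => v (Sum.inr k) o), hLL, hL']
  refine Finset.sum_congr rfl fun j _ => ?_
  rw [sumMul_apply, hps]
  rfl

end

end Pool.Agent.H62O.Pol
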