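import Mathlib
import Pool.Agent.H62O.Pol

/-!
# Elimination of the orthogonal blocks
-/

set_option autoImplicit false
set_option linter.unusedSectionVars false
set_option linter.unusedVariables false

namespace Pool.Agent.H62O.Elim

open Module Pool.Agent.H204R3.SP Pool.Agent.H204R3.GP Pool.Agent.W522.U
open Pool.Agent.H62CT Pool.Agent.H62CT.El2 Pool.Agent.TH118.WC Pool.Agent.H62O.Pol

noncomputable section

variable {K : Type} [Field K] [CharZero K] [IsAlgClosed K]
  {I : Type} [Fintype I] [DecidableEq I] {E : I → Type} [∀ i, AddCommGroup (E i)]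
  [∀ i, Module K (E i)] [∀ i, FiniteDimensional K (E i)] {G : Type} [Group G]

/-- Semi-invariant forms. -/
def TG (r : ∀ i, Representation K G (E i)) (χ : G →* K) {κ : Type} [Fintype κ]
    (ψ : MultilinearMap K (fun _ : κ => ∀ i, E i) K) : Prop :=
  ∃ d : ℕ, 2 * d = Fintype.card κ ∧ ∃ Δ : Subgroup G, Δ.FiniteIndex ∧
    ∀ g ∈ Δ, ∀ v, ψ (fun k => piRep r g (v k)) = χ g ^ d * ψ v

/-- Products of bilinear Tate forms and determinants. -/
def PW (r : ∀ i, Representation K G (E i)) (χ : G →* K) (st : I → I) (A : I → Prop) (κ : Type) :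
    Set (MultilinearMap K (fun _ : κ => ∀ i, E i) K) :=
  {φ | ∃ (P Q : Type) (_ : Fintype P) (_ : Fintype Q) (i : Q → I)
    (e : (P × Fin 2) ⊕ (Σ q, Fin (finrank K (E (i q)))) ≃ κ)
    (B : P → (∀ i, E i) →ₗ[K] (∀ i, E i) →ₗ[K] K)
    (C : ∀ q, Fin (finrank K (E (i q))) → (∀ i, E i) →ₗ[K] (∀ i, E i) →ₗ[K] K),
    (∀ p, IsTate2 (piRep r) χ (B p)) ∧ (∀ q s, IsTate2 (piRep r) χ (C q s)) ∧
    (∀ q q', q ≠ q' → st (i q) ≠ i q') ∧ (∀ q, A (i q)) ∧
    (∃ (d : ℕ) (Δ : Subgroup G), Δ.FiniteIndex ∧ 2 * d = ∑ q, finrank K (E (i q)) ∧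
      ∀ g ∈ Δ, ∏ q, LinearMap.det (r (i q) g) = χ g ^ d) ∧
    ∀ v, φ v = (∏ p, B p (v (e (Sum.inl (p, 0)))) (v (e (Sum.inl (p, 1))))) *
      ∏ q, Matrix.det (Matrix.of fun s s' => C q s (v (e (Sum.inr ⟨q, s⟩)))
        (Pi.single (i q) (finBasis K (E (i q)) s')))}

variable {r : ∀ i, Representation K G (E i)} {χ : G →* K} {st : I → I}

theorem pw_congr {A : I → Prop} {κ κ' : Type} (σ : κ ≃ κ')
    {φ : MultilinearMap K (fun _ : κ => ∀ i, E i) K}
    (hφ : φ ∈ Submodule.span K (PW r χ st A κ)) :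
    φ.domDomCongr σ ∈ Submodule.span K (PW r χ st A κ') := by
  induction hφ using Submodule.span_induction with
  | mem φ hφ =>
    obtain ⟨P, Q, hP, hQ, i, e, B, C, h1, h2, h3, h4, h5, h6⟩ := hφ
    exact Submodule.subset_span ⟨P, Q, hP, hQ, i, e.trans σ, B, C, h1, h2, h3, h4, h5,
      fun v => h6 _⟩
  | zero =>
    have h : (0 : MultilinearMap K (fun _ : κ => ∀ i, E i) K).domDomCongr σ = 0 := rfl
    rw [h]
    exact Submodule.zero_mem _
  | add a b _ _ ha hb =>
    have h : (a + b).domDomCongr σ = a.domDomCongr σ + b.domDomCongr σ := rfl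
    rw [h]
    exact Submodule.add_mem _ ha hb
  | smul c a _ ha =>
    have h : (c • a).domDomCongr σ = c • a.domDomCongr σ := rfl
    rw [h]
    exact Submodule.smul_mem _ _ ha

/-- The Lie algebra kills the semi-invariant forms. -/
theorem kills_TG {κ : Type} [Fintype κ] [DecidableEq κ] {x : End K (∀ i, E i)}
    (hx : x ∈ lieT (piRep r) χ) {ψ : MultilinearMap K (fun _ : κ => ∀ i, E i) K}
    (hψ : TG r χ ψ) : Kills x ψ := by
  obtain ⟨d, hd, Δ, hΔ, h⟩ := hψ
  let σ : κ ≃ Fin d × Fin 2 := Fintype.equivOfCardEq (by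
    rw [Fintype.card_prod, Fintype.card_fin, Fintype.card_fin, ← hd, mul_comm])
  have h1 : IsTate (piRep r) χ d (ψ.domDomCongr σ) := ⟨Δ, hΔ, fun g hg v => h g hg _⟩
  intro v
  have h2 := hx d _ h1 (fun k => v (σ.symm k))
  rw [← h2, ← Equiv.sum_comp σ]
  refine Finset.sum_congr rfl fun k _ => ?_
  rw [σ.symm_apply_apply]
  change _ = ψ _
  congr 1
  funext k'
  by_cases hk : k' = k
  · subst hk
    rw [Function.update_self, Function.update_self]
  · rw [Function.update_of_ne hk, Function.update_of_ne (fun h' => hk (σ.injective h')),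
      σ.symm_apply_apply]

/-- The projection to some of the blocks. -/
def prj (A : I → Prop) : (∀ i, E i) →ₗ[K] (∀ i, E i) := by
  classical
  exact LinearMap.pi fun i => if A i then LinearMap.proj i else 0

theorem prj_pos {A : I → Prop} {i : I} (h : A i) (v : ∀ i, E i) :
    prj (K := K) A v i = v i := by
  classical
  change (if A i then LinearMap.proj i else 0 : (∀ i, E i) →ₗ[K] E i) v = _
  rw [if_pos h]
  rfl

theorem prj_neg {A : I → Prop} {i : I} (h : ¬A i) (v : ∀ i, E i) :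
    prj (K := K) A v i = 0 := by
  classical
  change (if A i then LinearMap.proj i else 0 : (∀ i, E i) →ₗ[K] E i) v = _
  rw [if_neg h]
  rfl

theorem prj_rep (A : I → Prop) (g : G) (v : ∀ i, E i) :
    prj (K := K) A (piRep r g v) = piRep r g (prj (K := K) A v) := by
  funext i
  rw [piRep_apply]
  by_cases h : A i
  · rw [prj_pos h, prj_pos h]
    rfl
  · rw [prj_neg h, prj_neg h, map_zero]

theorem prj_prj (A : I → Prop) (v : ∀ i, E i) :
    prj (K := K) A (prj (K := K) A v) = prj (K := K) A v := by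
  funext i
  by_cases h : A i
  · rw [prj_pos h]
  · rw [prj_neg h, prj_neg h]

variable
  (ω : (∀ i, E i) →ₗ[K] (∀ i, E i) →ₗ[K] K)
  (hnd : ∀ u, (∀ w, ω u w = 0) → u = 0)
  (hωρ : ∀ g u v, ω (piRep r g u) (piRep r g v) = χ g * ω u v)
  (hst : ∀ i, st (st i) = i)
  (hor : ∀ i j, j ≠ st i → ∀ (u : E i) (v : E j), ω (Pi.single i u) (Pi.single j v) = 0)

include hωρ in
theorem bo_rep (o : I) (g : G) (u v : ∀ i, E i) :
    bo ω o (piRep r g u) (piRep r g v) = χ g * bo ω o u v := by
  rw [bo_apply, bo_apply, piRep_apply, piRep_apply, ← piRep_single, ← piRep_single, hωρ]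

theorem det_lin (o : I) (T : End K (E o)) (z : Fin (finrank K (E o)) → E o) :
    Matrix.det (Matrix.of fun s s' => ω (Pi.single o (T (z s)))
      (Pi.single o (finBasis K (E o) s'))) = LinearMap.det T *
    Matrix.det (Matrix.of fun s s' => ω (Pi.single o (z s))
      (Pi.single o (finBasis K (E o) s'))) := by
  let A : E o [⋀^Fin (finrank K (E o))]→ₗ[K] K :=
    (Matrix.detRowAlternating (R := K) (n := Fin (finrank K (E o)))).compLinearMap
      (LinearMap.pi fun s' => (ω.comp (LinearMap.single K E o)).flip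
        (Pi.single o (finBasis K (E o) s')))
  have hA : ∀ z, A z = Matrix.det (Matrix.of fun s s' => ω (Pi.single o (z s))
      (Pi.single o (finBasis K (E o) s'))) := fun _ => rfl
  have h1 := A.eq_smul_basis_det (finBasis K (E o))
  have h2 : ∀ z, A z = A (finBasis K (E o)) * (finBasis K (E o)).det z := by
    intro z
    conv_lhs => rw [h1]
    rfl
  rw [← hA z, ← hA (fun s => T (z s)), h2, h2 z]
  have h3 := (finBasis K (E o)).det_comp T z
  change (finBasis K (E o)).det (fun s => T (z s)) = _ at h3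
  rw [h3]
  ring

include hnd hωρ hst hor in
theorem det_half {o : I} (ho : st o = o) {h : ℕ} (hh : finrank K (E o) = 2 * h) :
    ∃ Δ : Subgroup G, Δ.FiniteIndex ∧ ∀ g ∈ Δ, LinearMap.det (r o g) = χ g ^ h := by
  let ψ : G →* K :=
    { toFun := fun g => LinearMap.det (r o g) * (χ g)⁻¹ ^ h
      map_one' := by simp
      map_mul' := fun a b => by
        rw [map_mul, map_mul, map_mul, mul_inv, mul_pow]
        ring }
  obtain ⟨Δ, hΔ, h1⟩ := fi_of_pow ψ 2 (by norm_num) (fun g => by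
    have h2 := det_st ω hnd hωρ hst hor g o
    rw [ho, hh] at h2
    change (LinearMap.det (r o g) * (χ g)⁻¹ ^ h) ^ 2 = 1
    have h3 := chi_ne (χ := χ) g
    rw [mul_pow, pow_two (LinearMap.det (r o g)), h2, ← pow_mul, mul_comm h 2, inv_pow,
      mul_inv_cancel₀ (pow_ne_zero _ h3)])
  refine ⟨Δ, hΔ, fun g hg => ?_⟩
  have h2 : LinearMap.det (r o g) * (χ g)⁻¹ ^ h = 1 := h1 g hg
  rw [inv_pow] at h2
  exact (mul_inv_eq_one₀ (pow_ne_zero _ (chi_ne (χ := χ) g))).1 h2

include hωρ in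
theorem ps_semi {o : I} {h : ℕ} (hh : finrank K (E o) = 2 * h) {S : Type} [Fintype S]
    {p : MultilinearMap K (fun _ : S => ∀ i, E i) K} (hp : p ∈ PS ω o S) :
    ∃ a : ℕ, 2 * a = Fintype.card S ∧ ∀ g, LinearMap.det (r o g) = χ g ^ h →
      ∀ y, p (fun k => piRep r g (y k)) = χ g ^ a * p y := by
  obtain ⟨P, Q, _, _, _, e, rfl⟩ := hp
  refine ⟨Fintype.card P + Fintype.card Q * h, ?_, fun g hg y => ?_⟩
  · rw [← Fintype.card_congr e, Fintype.card_sum, Fintype.card_prod, Fintype.card_fin,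
      Fintype.card_sigma]
    simp only [Fintype.card_fin, Finset.sum_const, Finset.card_univ, smul_eq_mul]
    rw [hh]
    ring
  · rw [Pm_apply, Pm_apply]
    have h1 : ∀ y : Fin (finrank K (E o)) → ∀ i, E i,
        Matrix.det (Matrix.of fun s s' => bo ω o (piRep r g (y s))
          (Pi.single o (finBasis K (E o) s'))) = χ g ^ h *
        Matrix.det (Matrix.of fun s s' => bo ω o (y s)
          (Pi.single o (finBasis K (E o) s'))) := by
      intro y
      rw [← hg]
      have h2 := det_lin ω o (r o g) (fun s => y s o)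
      simp only [bo_apply, Pi.single_eq_same]
      exact h2
    rw [Finset.prod_congr rfl (fun p _ => bo_rep ω hωρ o g _ _),
      Finset.prod_congr rfl (fun q _ => h1 (fun s => y (e (Sum.inr ⟨q, s⟩)))),
      Finset.prod_mul_distrib, Finset.prod_mul_distrib, Finset.prod_const, Finset.prod_const,
      Finset.card_univ, Finset.card_univ, ← pow_mul, pow_add]
    ring

include hωρ in
/-- The coefficients are semi-invariant. -/
theorem coeff_TG {o : I} {h : ℕ} (hh : finrank K (E o) = 2 * h)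
    (hdet : ∃ Δ : Subgroup G, Δ.FiniteIndex ∧ ∀ g ∈ Δ, LinearMap.det (r o g) = χ g ^ h)
    {κ S : Type} [Fintype κ] [Fintype S] {N : ℕ}
    {p : Fin N → MultilinearMap K (fun _ : S => ∀ i, E i) K} (hp : ∀ j, p j ∈ PS ω o S)
    (hli : LinearIndependent K p) {w : Fin N → MultilinearMap K (fun _ : κ => ∀ i, E i) K}
    {ψ : MultilinearMap K (fun _ : κ ⊕ S => ∀ i, E i) K} (hψ : TG r χ ψ)
    (hw : ψ = ∑ j, sumMul (w j) (p j)) (j : Fin N) : TG r χ (w j) := by
  obtain ⟨d, hd, Δ, hΔ, hψ⟩ := hψ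
  obtain ⟨Δ', hΔ', hdet⟩ := hdet
  choose a ha hsemi using fun j => ps_semi ω hωρ hh (hp j)
  have haa : ∀ i, a i = a j := fun i => by
    have h1 := ha i
    have h2 := ha j
    omega
  have hcard := hd
  rw [Fintype.card_sum, ← ha j] at hcard
  refine ⟨d - a j, by omega, Δ ⊓ Δ', inferInstance, fun g hg v => ?_⟩
  have h1 : ∑ i, (χ g ^ (a j) * w i (fun k => piRep r g (v k)) - χ g ^ d * w i v) • p i = 0 := by
    refine MultilinearMap.ext fun y => ?_
    rw [_root_.sum_apply, _root_.zero_apply]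
    have h2 := hψ g hg.1 (Sum.elim v y)
    rw [hw, _root_.sum_apply, _root_.sum_apply] at h2
    have h3 : ∀ i, (sumMul (w i) (p i)) (fun k => piRep r g (Sum.elim v y k)) =
        χ g ^ (a j) * (w i (fun k => piRep r g (v k)) * p i y) := by
      intro i
      rw [sumMul_apply]
      have h4 := hsemi i g (hdet g hg.2) y
      rw [haa i] at h4
      change w i (fun k => piRep r g (v k)) * p i (fun k => piRep r g (y k)) = _
      rw [h4]
      ring
    have h5 : ∀ i, (sumMul (w i) (p i)) (Sum.elim v y) = w i v * p i y := fun i => rfl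
    rw [Finset.sum_congr rfl (fun i _ => h3 i), Finset.sum_congr rfl (fun i _ => h5 i),
      Finset.mul_sum, ← sub_eq_zero, ← Finset.sum_sub_distrib] at h2
    rw [← h2]
    refine Finset.sum_congr rfl fun i _ => ?_
    rw [_root_.smul_apply, smul_eq_mul]
    ring
  have h2 := Fintype.linearIndependent_iff.1 hli _ h1 j
  have h3 : χ g ^ d = χ g ^ (a j) * χ g ^ (d - a j) := by
    rw [← pow_add]
    congr 1
    omega
  rw [h3] at h2
  apply mul_left_cancel₀ (pow_ne_zero (a j) (chi_ne (χ := χ) g))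
  linear_combination h2

include hωρ hst in
/-- Products. -/
theorem mul_mem {o : I} (ho : st o = o) {h : ℕ} (hh : finrank K (E o) = 2 * h)
    (hdet : ∃ Δ : Subgroup G, Δ.FiniteIndex ∧ ∀ g ∈ Δ, LinearMap.det (r o g) = χ g ^ h)
    {A A' : I → Prop} (hA : ∀ i, A i → i ≠ o ∧ A' i) (hA' : A' o)
    {κ S : Type} {p : MultilinearMap K (fun _ : S => ∀ i, E i) K} (hp : p ∈ PS ω o S)
    {w : MultilinearMap K (fun _ : κ => ∀ i, E i) K}
    (hw : w ∈ Submodule.span K (PW r χ st A κ)) :
    sumMul w p ∈ Submodule.span K (PW r χ st A' (κ ⊕ S)) := by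
  induction hw using Submodule.span_induction with
  | mem w hw =>
    obtain ⟨P₁, Q₁, _, _, _, e₁, rfl⟩ := hp
    obtain ⟨P₂, Q₂, _, _, i₂, e₂, B₂, C₂, h1, h2, h3, h4, ⟨d₂, Δ₂, hΔ₂, hd₂, hdet₂⟩, h6⟩ := hw
    obtain ⟨Δ₁, hΔ₁, hdet₁⟩ := hdet
    let i : Q₂ ⊕ Q₁ → I := Sum.elim i₂ (fun _ => o)
    let e : ((P₂ ⊕ P₁) × Fin 2) ⊕ (Σ q, Fin (finrank K (E (i q)))) ≃ κ ⊕ S :=
      (Equiv.sumCongr (Equiv.sumProdDistrib P₂ P₁ (Fin 2))
        (Equiv.sumSigmaDistrib (fun q => Fin (finrank K (E (i q)))))).trans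
        ((Equiv.sumSumSumComm _ _ _ _).trans (Equiv.sumCongr e₂ e₁))
    let C : ∀ q, Fin (finrank K (E (i q))) → (∀ i, E i) →ₗ[K] (∀ i, E i) →ₗ[K] K := fun q =>
      match q with
      | Sum.inl q => C₂ q
      | Sum.inr _ => fun _ => bo ω o
    have hbo : IsTate2 (piRep r) χ (bo ω o) :=
      ⟨⊤, inferInstance, fun g _ u v => bo_rep ω hωρ o g u v⟩
    refine Submodule.subset_span ⟨P₂ ⊕ P₁, Q₂ ⊕ Q₁, inferInstance, inferInstance, i, e,
      Sum.elim B₂ (fun _ => bo ω o), C, ?_, ?_, ?_, ?_, ⟨d₂ + Fintype.card Q₁ * h, Δ₂ ⊓ Δ₁,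
        inferInstance, ?_, fun g hg => ?_⟩, fun v => ?_⟩
    · rintro (q | q)
      · exact h1 q
      · exact hbo
    · rintro (q | q) s
      · exact h2 q s
      · exact hbo
    · rintro (q | q) (q' | q') hq
      · exact h3 q q' (fun h => hq (by rw [h]))
      · change st (i₂ q) ≠ o
        intro h7
        apply (hA _ (h4 q)).1
        rw [← hst (i₂ q), h7, ho]
      · change st o ≠ i₂ q'
        rw [ho]
        exact (hA _ (h4 q')).1.symm
      · exact absurd (by rw [Subsingleton.elim q q']) hq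
    · rintro (q | q)
      · exact (hA _ (h4 q)).2
      · exact hA'
    · rw [Fintype.sum_sum_type]
      change _ = ∑ q, finrank K (E (i₂ q)) + ∑ _q : Q₁, finrank K (E o)
      rw [← hd₂, Finset.sum_const, Finset.card_univ, smul_eq_mul, hh]
      ring
    · rw [Fintype.prod_sum_type]
      change (∏ q, LinearMap.det (r (i₂ q) g)) * ∏ _q : Q₁, LinearMap.det (r o g) = _
      rw [hdet₂ g hg.1, hdet₁ g hg.2, Finset.prod_const, Finset.card_univ, ← pow_mul, pow_add,
        mul_comm h]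
    · rw [sumMul_apply, h6, Pm_apply, Fintype.prod_sum_type, Fintype.prod_sum_type]
      change _ = ((∏ p, B₂ p (v (Sum.inl (e₂ (Sum.inl (p, 0))))) (v (Sum.inl (e₂ (Sum.inl (p, 1)))))) *
        ∏ p : P₁, bo ω o (v (Sum.inr (e₁ (Sum.inl (p, 0))))) (v (Sum.inr (e₁ (Sum.inl (p, 1)))))) *
        ((∏ q, Matrix.det (Matrix.of fun s s' => C₂ q s (v (Sum.inl (e₂ (Sum.inr ⟨q, s⟩))))
          (Pi.single (i₂ q) (finBasis K (E (i₂ q)) s')))) *
        ∏ q : Q₁, Matrix.det (Matrix.of fun s s' => bo ω o (v (Sum.inr (e₁ (Sum.inr ⟨q, s⟩))))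
          (Pi.single o (finBasis K (E o) s'))))
      ring
  | zero =>
    have h : sumMul (0 : MultilinearMap K (fun _ : κ => ∀ i, E i) K) p = 0 := by
      refine MultilinearMap.ext fun v => ?_
      rw [sumMul_apply, _root_.zero_apply, zero_mul, _root_.zero_apply]
    rw [h]
    exact Submodule.zero_mem _
  | add a b _ _ ha hb =>
    have h : sumMul (a + b) p = sumMul a p + sumMul b p := by
      refine MultilinearMap.ext fun v => ?_
      rw [sumMul_apply, _root_.add_apply, _root_.add_apply, add_mul]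
      rfl
    rw [h]
    exact Submodule.add_mem _ ha hb
  | smul c a _ ha =>
    have h : sumMul (c • a) p = c • sumMul a p := by
      refine MultilinearMap.ext fun v => ?_
      rw [sumMul_apply, _root_.smul_apply, _root_.smul_apply, smul_eq_mul, mul_assoc]
      rfl
    rw [h]
    exact Submodule.smul_mem _ _ ha

end

end Pool.Agent.H62O.Elim
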