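import Mathlib
import Pool.Agent.H62O.Elim

/-!
# Products of determinants are not combinations of products of bilinear Tate forms
-/

set_option autoImplicit false
set_option linter.unusedSectionVars false
set_option linter.unusedVariables false

namespace Pool.Agent.H62O.Conv

open Module Pool.Agent.H204R3.SP Pool.Agent.H204R3.GP Pool.Agent.W522.U
open Pool.Agent.H62CT Pool.Agent.H62CT.El2 Pool.Agent.TH118.WC

noncomputable section

section lin

variable {K : Type} [Field K]

theorem det_lin' {ι F : Type} [Fintype ι] [DecidableEq ι] [AddCommGroup F] [Module K F]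
    (b : Basis ι K F) (f : ι → F →ₗ[K] K) (T : End K F) (z : ι → F) :
    Matrix.det (Matrix.of fun s s' => f s' (T (z s))) = LinearMap.det T *
      Matrix.det (Matrix.of fun s s' => f s' (z s)) := by
  let A : F [⋀^ι]→ₗ[K] K :=
    (Matrix.detRowAlternating (R := K) (n := ι)).compLinearMap (LinearMap.pi f)
  have hA : ∀ z, A z = Matrix.det (Matrix.of fun s s' => f s' (z s)) := fun _ => rfl
  have h1 := A.eq_smul_basis_det b
  have h2 : ∀ z, A z = A b * b.det z := by
    intro z
    conv_lhs => rw [h1]
    rfl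
  rw [← hA z, ← hA (fun s => T (z s)), h2, h2 z]
  have h3 := b.det_comp T z
  change b.det (fun s => T (z s)) = _ at h3
  rw [h3]
  ring

end lin

variable {K : Type} [Field K] [CharZero K] [IsAlgClosed K]
  {I : Type} [Fintype I] [DecidableEq I] {E : I → Type} [∀ i, AddCommGroup (E i)]
  [∀ i, Module K (E i)] [∀ i, FiniteDimensional K (E i)] {G : Type} [Group G]
  {r : ∀ i, Representation K G (E i)} {χ : G →* K} {st : I → I}
  (ω : (∀ i, E i) →ₗ[K] (∀ i, E i) →ₗ[K] K)
  (hnd : ∀ u, (∀ w, ω u w = 0) → u = 0)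
  (hωρ : ∀ g u v, ω (piRep r g u) (piRep r g v) = χ g * ω u v)
  (hst : ∀ i, st (st i) = i)
  (hor : ∀ i j, j ≠ st i → ∀ (u : E i) (v : E j), ω (Pi.single i u) (Pi.single j v) = 0)
  (hirr : ∀ i, Irr (r i))
  (hdist : ∀ i j, i ≠ j → ∀ (Δ : Subgroup G), Δ.FiniteIndex → ∀ T : E i →ₗ[K] E j,
    (∀ g ∈ Δ, ∀ u, T (r i g u) = r j g (T u)) → T = 0)

include hor hst in
theorem om_block (u : ∀ i, E i) (i : I) (b : E i) :
    ω u (Pi.single i b) = ω (Pi.single (st i) (u (st i))) (Pi.single i b) := by
  conv_lhs => rw [← Finset.univ_sum_single u]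
  rw [map_sum, LinearMap.sum_apply, Finset.sum_eq_single (st i)]
  · intro j _ hj
    exact hor j i (fun h => hj (by rw [h, hst])) _ _
  · intro h
    exact absurd (Finset.mem_univ _) h

include hor hst in
/-- Isometries which preserve the blocks. -/
theorem blk_iso (τ : ∀ j, End K (E j))
    (hτ : ∀ j (a : E j) (b : E (st j)), ω (Pi.single j (τ j a)) (Pi.single (st j) (τ (st j) b)) =
      ω (Pi.single j a) (Pi.single (st j) b)) (u v : ∀ i, E i) :
    ω (blk τ u) (blk τ v) = ω u v := by
  have hexp : ∀ u v : ∀ i, E i, ω u v =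
      ∑ i, ω (Pi.single i (u i)) (Pi.single (st i) (v (st i))) := by
    intro u v
    conv_lhs => rw [← Finset.univ_sum_single u]
    rw [map_sum, LinearMap.sum_apply]
    refine Finset.sum_congr rfl fun i _ => ?_
    conv_lhs => rw [← Finset.univ_sum_single v]
    rw [map_sum, Finset.sum_eq_single (st i)]
    · intro j _ hj
      exact hor i j hj _ _
    · intro h
      exact absurd (Finset.mem_univ _) h
  rw [hexp, hexp u v]
  refine Finset.sum_congr rfl fun i _ => ?_
  rw [blk_apply, blk_apply, hτ]

include hnd hωρ hirr hdist in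
/-- They preserve the bilinear Tate forms. -/
theorem blk_tate2 {τ : ∀ j, End K (E j)} (hiso : ∀ u v, ω (blk τ u) (blk τ v) = ω u v)
    {B : (∀ i, E i) →ₗ[K] (∀ i, E i) →ₗ[K] K} (hB : IsTate2 (piRep r) χ B) (u v : ∀ i, E i) :
    B (blk τ u) (blk τ v) = B u v := by
  obtain ⟨c, hc⟩ := tate2_bs ω hnd hωρ hirr hdist hB
  have h1 : bs c (blk τ u) = blk τ (bs c u) := by
    funext i
    rw [bs_apply, blk_apply, blk_apply, bs_apply, map_smul]
  rw [hc, hc, h1, hiso]

/-- They preserve the products of bilinear Tate forms. -/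
theorem blk_pt {τ : ∀ j, End K (E j)}
    (hτ : ∀ B, IsTate2 (piRep r) χ B → ∀ u v, B (blk τ u) (blk τ v) = B u v) {m : ℕ}
    {φ : MultilinearMap K (fun _ : Fin m × Fin 2 => ∀ i, E i) K}
    (hφ : φ ∈ Submodule.span K (PT (piRep r) χ m)) (v : Fin m × Fin 2 → ∀ i, E i) :
    φ (fun k => blk τ (v k)) = φ v := by
  induction hφ using Submodule.span_induction with
  | mem φ hφ =>
    obtain ⟨σ, B, hB, rfl⟩ := hφ
    rw [mmG_apply, mmG_apply]
    exact Finset.prod_congr rfl fun l _ => hτ _ (hB l) _ _
  | zero => rfl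
  | add a b _ _ ha hb =>
    rw [_root_.add_apply, _root_.add_apply, ha, hb]
  | smul c a _ ha =>
    rw [_root_.smul_apply, _root_.smul_apply, ha]

/-- The determinant of a block. -/
def dt (i : I) : MultilinearMap K (fun _ : Fin (finrank K (E i)) => ∀ i, E i) K :=
  ((Matrix.detRowAlternating (R := K) (n := Fin (finrank K (E i)))).toMultilinearMap).compLinearMap
    (fun _ => LinearMap.pi fun s' => ω.flip (Pi.single i (finBasis K (E i) s')))

theorem dt_apply (i : I) (y : Fin (finrank K (E i)) → ∀ i, E i) : dt ω i y =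
    Matrix.det (Matrix.of fun s s' => ω (y s) (Pi.single i (finBasis K (E i) s'))) := rfl

include hnd hst hor in
theorem dt_blk (τ : ∀ j, End K (E j)) (i : I) (y : Fin (finrank K (E i)) → ∀ i, E i) :
    dt ω i (fun s => blk τ (y s)) = LinearMap.det (τ (st i)) * dt ω i y := by
  have hfr : finrank K (E (st i)) = finrank K (E i) := finrank_st ω hnd st hst hor i
  have h1 := det_lin' ((finBasis K (E (st i))).reindex (finCongr hfr))
    (fun s' => (ω.flip (Pi.single i (finBasis K (E i) s'))).comp (LinearMap.single K E (st i)))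
    (τ (st i)) (fun s => y s (st i))
  rw [dt_apply, dt_apply]
  have h2 : ∀ u : ∀ i, E i, ∀ s', ω u (Pi.single i (finBasis K (E i) s')) =
      ((ω.flip (Pi.single i (finBasis K (E i) s'))).comp (LinearMap.single K E (st i)))
        (u (st i)) := fun u s' => om_block ω hst hor u i _
  simp only [h2]
  exact h1

include hnd hst hor in
/-- Values of the determinant of a block. -/
theorem exists_dt (i : I) : ∃ y, dt ω i y = 1 := by
  have h1 := (par_bij ω hnd st hst hor (st i) i (hst i).symm).2
  choose z hz using fun s => h1 ((finBasis K (E i)).coord s)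
  refine ⟨fun s => Pi.single (st i) (z s), ?_⟩
  rw [dt_apply]
  have h2 : (Matrix.of fun s s' => ω (Pi.single (st i) (z s))
      (Pi.single i (finBasis K (E i) s'))) = (1 : Matrix _ _ K) := by
    ext s s'
    rw [Matrix.of_apply, ← par_apply, hz, Basis.coord_apply, Basis.repr_self, Matrix.one_apply,
      Finsupp.single_apply]
    simp only [eq_comm]
  rw [h2, Matrix.det_one]

variable {Q : Type} [Fintype Q] (i : Q → I)

/-- The product of the determinants. -/
def pd {c : ℕ} (e : (Σ q, Fin (finrank K (E (i q)))) ≃ Fin c × Fin 2) :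
    MultilinearMap K (fun _ : Fin c × Fin 2 => ∀ i, E i) K :=
  (sigProd (fun q => dt ω (i q))).domDomCongr e

theorem pd_apply {c : ℕ} (e : (Σ q, Fin (finrank K (E (i q)))) ≃ Fin c × Fin 2)
    (v : Fin c × Fin 2 → ∀ i, E i) :
    pd ω i e v = ∏ q, dt ω (i q) (fun s => v (e ⟨q, s⟩)) := rfl

include hnd hst hor in
theorem pd_blk {c : ℕ} (e : (Σ q, Fin (finrank K (E (i q)))) ≃ Fin c × Fin 2)
    (τ : ∀ j, End K (E j)) (v : Fin c × Fin 2 → ∀ i, E i) :
    pd ω i e (fun k => blk τ (v k)) = (∏ q, LinearMap.det (τ (st (i q)))) * pd ω i e v := by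
  rw [pd_apply, pd_apply, ← Finset.prod_mul_distrib]
  exact Finset.prod_congr rfl fun q _ => dt_blk ω hnd hst hor τ (i q) _

include hnd hst hor in
theorem exists_pd {c : ℕ} (e : (Σ q, Fin (finrank K (E (i q)))) ≃ Fin c × Fin 2) :
    ∃ v, pd ω i e v = 1 := by
  choose y hy using fun q => exists_dt ω hnd hst hor (i q)
  refine ⟨fun k => y (e.symm k).1 (e.symm k).2, ?_⟩
  rw [pd_apply]
  refine Finset.prod_eq_one fun q _ => ?_
  rw [← hy q]
  congr 1
  funext s
  rw [e.symm_apply_apply]

include hnd hωρ hst hor in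
/-- The product of the determinants is a Tate form. -/
theorem pd_tate {c : ℕ} (e : (Σ q, Fin (finrank K (E (i q)))) ≃ Fin c × Fin 2)
    {Δ : Subgroup G} (hΔ : Δ.FiniteIndex)
    (hdet : ∀ g ∈ Δ, ∏ q, LinearMap.det (r (i q) g) = χ g ^ c) :
    IsTate (piRep r) χ c (pd ω i e) := by
  refine ⟨Δ, hΔ, fun g hg v => ?_⟩
  have h1 : ∀ v : ∀ i, E i, piRep r g v = blk (fun j => r j g) v := fun _ => rfl
  simp only [h1]
  rw [pd_blk ω hnd hst hor]
  congr 1
  have hcard := Fintype.card_congr e
  rw [Fintype.card_prod, Fintype.card_fin, Fintype.card_fin, Fintype.card_sigma] at hcard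
  simp only [Fintype.card_fin] at hcard
  have h2 : (∏ q, LinearMap.det (r (i q) g)) * ∏ q, LinearMap.det (r (st (i q)) g) =
      χ g ^ c * χ g ^ c := by
    rw [← Finset.prod_mul_distrib, Finset.prod_congr rfl (fun q _ =>
      det_st ω hnd hωρ hst hor g (i q)), Finset.prod_pow_eq_pow_sum, hcard, ← pow_add]
    congr 1
    ring
  rw [hdet g hg] at h2
  exact mul_left_cancel₀ (pow_ne_zero _ (chi_ne (χ := χ) g)) h2

/-- An isometry which does not preserve the product of the determinants. -/
theorem exists_tau (hnd : ∀ u, (∀ w, ω u w = 0) → u = 0) (hst : ∀ i, st (st i) = i)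
    (hor : ∀ i j, j ≠ st i → ∀ (u : E i) (v : E j), ω (Pi.single i u) (Pi.single j v) = 0)
    [Nonempty Q] (hi : ∀ q q', q ≠ q' → st (i q) ≠ i q')
    (hsym : ∀ q, st (i q) = i q → ∀ u v : E (i q),
      ω (Pi.single (i q) u) (Pi.single (i q) v) = ω (Pi.single (i q) v) (Pi.single (i q) u))
    (hpos : ∀ i, 0 < finrank K (E i)) :
    ∃ τ : ∀ j, End K (E j), (∀ u v, ω (blk τ u) (blk τ v) = ω u v) ∧
      ∏ q, LinearMap.det (τ (st (i q))) ≠ 1 := by
  classical
  obtain ⟨q₀⟩ := ‹Nonempty Q›
  by_cases h0 : st (i q₀) = i q₀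
  · -- a reflection
    obtain ⟨b, hb1, hb2⟩ := Ort.exists_basis ω hnd hor h0 (hsym q₀ h0)
    have hp := hpos (i q₀)
    obtain ⟨o, ho⟩ : ∃ o, o = i q₀ := ⟨_, rfl⟩
    rw [← ho] at h0 hp
    have hb : ∃ ρ : End K (E o), LinearMap.det ρ = -1 ∧ ∀ u v : E o,
        ω (Pi.single o (ρ u)) (Pi.single o (ρ v)) = ω (Pi.single o u) (Pi.single o v) := by
      subst ho
      let d : Fin (finrank K (E (i q₀))) → K := fun j => if j = ⟨0, hp⟩ then -1 else 1
      have hρ : ∀ j, Matrix.toLin b b (Matrix.diagonal d) (b j) = d j • b j := by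
        intro j
        rw [Matrix.toLin_self, Finset.sum_eq_single j]
        · rw [Matrix.diagonal_apply_eq]
        · intro k _ hk
          rw [Matrix.diagonal_apply_ne _ hk, zero_smul]
        · intro h
          exact absurd (Finset.mem_univ _) h
      refine ⟨Matrix.toLin b b (Matrix.diagonal d), ?_, ?_⟩
      · rw [LinearMap.det_toLin, Matrix.det_diagonal]
        simp [d]
      · let β : E (i q₀) →ₗ[K] E (i q₀) →ₗ[K] K :=
          ω.compl₁₂ (LinearMap.single K E (i q₀)) (LinearMap.single K E (i q₀))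
        have hβ : ∀ u v, β u v = ω (Pi.single (i q₀) u) (Pi.single (i q₀) v) := fun _ _ => rfl
        have h1 : β.compl₁₂ (Matrix.toLin b b (Matrix.diagonal d))
            (Matrix.toLin b b (Matrix.diagonal d)) = β := by
          refine b.ext fun j => b.ext fun k => ?_
          rw [LinearMap.compl₁₂_apply, hρ, hρ, map_smul, map_smul, LinearMap.smul_apply,
            smul_smul, smul_eq_mul]
          by_cases hjk : j = k
          · subst hjk
            have h2 : d j * d j = 1 := by
              simp only [d]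
              split_ifs <;> ring
            rw [h2, one_mul]
          · rw [hβ, hb1 j k hjk, mul_zero]
        intro u v
        exact congrArg (fun f : E (i q₀) →ₗ[K] E (i q₀) →ₗ[K] K => f u v) h1
    obtain ⟨ρ, hρ1, hρ2⟩ := hb
    let τ : ∀ j, End K (E j) := Function.update (fun j => (1 : End K (E j))) o ρ
    have hτo : τ o = ρ := Function.update_self _ _ _
    have hτn : ∀ j, j ≠ o → τ j = 1 := fun j hj => Function.update_of_ne hj _ _
    refine ⟨τ, blk_iso ω hst hor τ fun j a b' => ?_, ?_⟩
    · by_cases hj : j = o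
      · subst hj
        have key : ∀ (k : I) (hk : k = j) (b' : E k),
            ω (Pi.single j (τ j a)) (Pi.single k (τ k b')) =
              ω (Pi.single j a) (Pi.single k b') := by
          rintro k rfl b'
          rw [hτo]
          exact hρ2 a b'
        exact key (st j) h0 b'
      · rw [hτn j hj, hτn (st j) (fun h => hj (by rw [← hst j, h, h0]))]
        rfl
    · rw [Finset.prod_eq_single q₀]
      · have h1 : ∀ k, k = o → LinearMap.det (τ k) = -1 := by
          rintro k rfl
          rw [hτo, hρ1]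
        rw [h1 _ (by rw [← ho, h0])]
        norm_num
      · intro q _ hq
        rw [hτn _ (by rw [ho]; exact hi q q₀ hq), map_one]
      · intro h
        exact absurd (Finset.mem_univ _) h
  · -- scalars
    let c : I → K := fun j => if j = i q₀ then 2 else if j = st (i q₀) then 2⁻¹ else 1
    have hc : ∀ j, c j * c (st j) = 1 := by
      intro j
      simp only [c]
      by_cases h1 : j = i q₀
      · subst h1
        rw [if_pos rfl, if_neg h0, if_pos rfl]
        exact mul_inv_cancel₀ two_ne_zero
      · by_cases h2 : j = st (i q₀)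
        · subst h2
          rw [if_neg h0, if_pos rfl, hst, if_pos rfl]
          exact inv_mul_cancel₀ two_ne_zero
        · rw [if_neg h1, if_neg h2, if_neg (fun h3 => h2 (by rw [← h3, hst])),
            if_neg (fun h3 => h1 (by rw [← hst j, h3, hst])), mul_one]
    refine ⟨fun j => c j • (1 : End K (E j)), blk_iso ω hst hor _ fun j a b => ?_, ?_⟩
    · have h1 : ∀ (j : I) (a : E j), (Pi.single j ((c j • (1 : End K (E j))) a) : ∀ i, E i) =
          c j • Pi.single j a := by
        intro j a
        rw [LinearMap.smul_apply, Module.End.one_apply, Pi.single_smul]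
      rw [h1, h1, map_smul, map_smul, LinearMap.smul_apply, smul_smul, smul_eq_mul,
        mul_comm (c (st j)), hc, one_mul]
    · have h1 : ∀ q, LinearMap.det (c (st (i q)) • (1 : End K (E (st (i q))))) =
          (2⁻¹ : K) ^ (if i q = i q₀ then finrank K (E (st (i q))) else 0) := by
        intro q
        rw [LinearMap.det_smul, map_one, mul_one]
        simp only [c]
        have h2 : st (i q) ≠ i q₀ := by
          by_cases h : q = q₀
          · rw [h]
            exact h0
          · exact hi q q₀ h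
        rw [if_neg h2]
        by_cases h3 : i q = i q₀
        · rw [if_pos (by rw [h3]), if_pos h3]
        · rw [if_neg (fun h4 => h3 (by rw [← hst (i q), h4, hst])), if_neg h3, one_pow, pow_zero]
      rw [Finset.prod_congr rfl (fun q _ => h1 q), Finset.prod_pow_eq_pow_sum]
      intro h2
      have h3 : (2 : K) ^ (∑ q, if i q = i q₀ then finrank K (E (st (i q))) else 0) = 1 := by
        rw [inv_pow] at h2
        exact inv_eq_one.1 h2
      have h4 : (2 : ℕ) ^ (∑ q, if i q = i q₀ then finrank K (E (st (i q))) else 0) = 1 := by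
        exact_mod_cast h3
      have h5 : 0 < ∑ q, if i q = i q₀ then finrank K (E (st (i q))) else 0 := by
        refine lt_of_lt_of_le (hpos (st (i q₀))) ?_
        refine le_trans (le_of_eq ?_) (Finset.single_le_sum (f := fun q =>
          if i q = i q₀ then finrank K (E (st (i q))) else 0) (fun _ _ => Nat.zero_le _)
            (Finset.mem_univ q₀))
        simp
      have h6 := Nat.one_lt_two_pow h5.ne'
      omega

end

end Pool.Agent.H62O.Conv
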