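import Mathlib
import Pool.Agent.H62O.Mu1
import Pool.Agent.H62CT.PPi

/-!
# The exponents of the determinants, for any number of variables
-/

set_option autoImplicit false
set_option linter.unusedSectionVars false
set_option linter.unusedVariables false

namespace Pool.Agent.H62O.Mu

open Module Pool.Agent.H204R3.SP Pool.Agent.H204R3.GP Pool.Agent.W522.U
open Pool.Agent.H62CT Pool.Agent.TH118.WC

noncomputable section

section dbl

variable {κ : Type} [Fintype κ]

/-- The positions of the variables of the square. -/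
def sg (κ : Type) [Fintype κ] : κ ⊕ κ ≃ Fin (Fintype.card κ) × Fin 2 :=
  Fintype.equivOfCardEq (by
    rw [Fintype.card_sum, Fintype.card_prod, Fintype.card_fin, Fintype.card_fin]
    ring)

/-- Doubling a function on the variables. -/
def dd2 {R : Type} (J : κ → R) : Fin (Fintype.card κ) × Fin 2 → R :=
  fun x => Sum.elim J J ((sg κ).symm x)

theorem cnt_dd2 {R : Type} [DecidableEq R] (J : κ → R) (y : R) : cnt (dd2 J) y = 2 * cnt J y := by
  unfold cnt dd2
  rw [Equiv.sum_comp (sg κ).symm (fun z => if Sum.elim J J z = y then 1 else 0),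
    Fintype.sum_sum_type]
  exact (two_mul _).symm

theorem cnt_sum {R : Type} [Fintype R] [DecidableEq R] (J : κ → R) :
    ∑ y, cnt J y = Fintype.card κ := by
  unfold cnt
  rw [Finset.sum_comm]
  simp

end dbl

variable {K : Type} [Field K] [CharZero K] [IsAlgClosed K]
  {I : Type} [Fintype I] [DecidableEq I] {E : I → Type} [∀ i, AddCommGroup (E i)]
  [∀ i, Module K (E i)] [∀ i, FiniteDimensional K (E i)] {G : Type} [Group G]
  {r : ∀ i, Representation K G (E i)} {χ μ : G →* K} {st : I → I}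

/-- The square of a form. -/
def sq {κ : Type} [Fintype κ] (ψ : MultilinearMap K (fun _ : κ => ∀ i, E i) K) :
    MultilinearMap K (fun _ : Fin (Fintype.card κ) × Fin 2 => ∀ i, E i) K :=
  (sumMul ψ ψ).domDomCongr (sg κ)

theorem sq_apply {κ : Type} [Fintype κ] (ψ : MultilinearMap K (fun _ : κ => ∀ i, E i) K)
    (v : Fin (Fintype.card κ) × Fin 2 → ∀ i, E i) :
    sq ψ v = ψ (fun k => v (sg κ (Sum.inl k))) * ψ (fun k => v (sg κ (Sum.inr k))) := rfl

theorem sq_dd2 {κ : Type} [Fintype κ] (ψ : MultilinearMap K (fun _ : κ => ∀ i, E i) K)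
    (v : κ → ∀ i, E i) : sq ψ (dd2 v) = ψ v * ψ v := by
  rw [sq_apply]
  unfold dd2
  simp only [Equiv.symm_apply_apply, Sum.elim_inl, Sum.elim_inr]

variable (hμ : ∀ g, μ g ^ 2 = χ g)

include hμ in
theorem sq_tate {κ : Type} [Fintype κ] {ψ : MultilinearMap K (fun _ : κ => ∀ i, E i) K}
    {Δ : Subgroup G} (h : ∀ g ∈ Δ, ∀ v, ψ (fun k => piRep r g (v k)) = μ g ^ Fintype.card κ * ψ v)
    (g : G) (hg : g ∈ Δ) (v : Fin (Fintype.card κ) × Fin 2 → ∀ i, E i) :
    sq ψ (fun k => piRep r g (v k)) = χ g ^ Fintype.card κ * sq ψ v := by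
  rw [sq_apply, sq_apply, ← hμ, ← pow_mul, two_mul, pow_add, h g hg, h g hg]
  ring

variable (ω : (∀ i, E i) →ₗ[K] (∀ i, E i) →ₗ[K] K) (halt : ∀ u, ω u u = 0)
  (hnd : ∀ u, (∀ w, ω u w = 0) → u = 0)
  (hωρ : ∀ g u v, ω (piRep r g u) (piRep r g v) = χ g * ω u v)
  (hst : ∀ i, st (st i) = i)
  (hor : ∀ i j, j ≠ st i → ∀ (u : E i) (v : E j), ω (Pi.single i u) (Pi.single j v) = 0)
  (hel : ∀ i, 2 ≤ finrank K (E i) → ∀ (u : E i) (φ : Dual K (E i)),
    Ty (K := K) (fun i => st i = i) (fun i => par ω i i) i u φ →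
    ∃ X ∈ hh r χ, X i = φ.smulRight u ∧ ∀ j, j ≠ i → j ≠ st i → X j = 0)
  (hirr : ∀ i, Irr (r i))
  (hpos : ∀ i, 0 < finrank K (E i))

include hμ halt hnd hωρ hst hor hel hirr hpos in
theorem exps {κ : Type} [Fintype κ] [DecidableEq κ]
    (φ : MultilinearMap K (fun _ : κ => ∀ i, E i) K) (hφ : TM r μ φ)
    (t : κ → I) (v : ∀ k, E (t k)) (hv : φ (fun k => Pi.single (t k) (v k)) ≠ 0) :
    ∃ a : I → ℤ, (∀ i, (finrank K (E i) : ℤ) * a i = (cnt t i : ℤ) - cnt t (st i)) ∧
      (∀ i, a (st i) = -a i) ∧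
      Even (Fintype.card κ + ∑ i, (-a i).toNat * finrank K (E i)) := by
  classical
  obtain ⟨n, e, lab, α, hlab, hlab', he0, he1, -, -⟩ :=
    exists_graded (r := r) (χ := χ) ω halt hnd hωρ st hst hor 1
  obtain ⟨J, hJt, hJ⟩ := exists_type e lab hlab φ t v hv
  obtain ⟨Δ, hΔ, hΔφ⟩ := hφ
  have hW : ∀ y, (finrank K (E (lab y)) : ℤ) * ((cnt J y : ℤ) - cnt J y.swap) =
      (cnt (fun k => lab (J k)) (lab y) : ℤ) - cnt (fun k => lab (J k)) (st (lab y)) := by
    intro y
    have h0 : sq φ (fun k => e (dd2 J k)) ≠ 0 := by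
      have h1 : (fun k => e (dd2 J k)) = dd2 (fun k => e (J k)) := by
        funext x
        unfold dd2
        rcases (sg κ).symm x with z | z <;> rfl
      rw [h1, sq_dd2]
      exact mul_ne_zero hJ hJ
    have h1 := Pi.weight_one ω halt hnd hωρ st hst hor hel e lab hlab hlab'
      he0 he1 (sq φ) ⟨Δ, hΔ, sq_tate hμ hΔφ⟩ (dd2 J) h0 y
    have h2 : (fun k => lab (dd2 J k)) = dd2 (fun k => lab (J k)) := by
      funext x
      unfold dd2
      rcases (sg κ).symm x with z | z <;> rfl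
    rw [h2, cnt_dd2, cnt_dd2, cnt_dd2, cnt_dd2] at h1
    push_cast at h1
    linarith
  have hJt' : (fun k => lab (J k)) = t := funext hJt
  rw [hJt'] at hW
  have hex : ∀ i, ∃ y, lab y = i := by
    intro i
    have h1 := hpos i
    rw [finrank_lab e lab hlab, Finset.card_pos] at h1
    obtain ⟨y, hy⟩ := h1
    exact ⟨y, (Finset.mem_filter.1 hy).2⟩
  choose y hy using hex
  have hfr := finrank_st ω hnd st hst hor
  let a : I → ℤ := fun i => (cnt J (y i) : ℤ) - cnt J (y i).swap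
  have ha : ∀ i, (finrank K (E i) : ℤ) * a i = (cnt t i : ℤ) - cnt t (st i) := by
    intro i
    have h1 := hW (y i)
    rwa [hy] at h1
  have hne : ∀ i, (finrank K (E i) : ℤ) ≠ 0 := fun i => by
    have := hpos i
    omega
  have hast : ∀ i, a (st i) = -a i := by
    intro i
    apply mul_left_cancel₀ (hne i)
    have h1 := ha (st i)
    rw [hfr, hst] at h1
    rw [h1, mul_neg, ha]
    ring
  have hay : ∀ z, a (lab z) = (cnt J z : ℤ) - cnt J z.swap := by
    intro z
    apply mul_left_cancel₀ (hne (lab z))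
    rw [ha, ← hW z]
  refine ⟨a, ha, hast, ?_⟩
  -- the sum over the basis
  have h1 : ∑ i, (-a i).toNat * finrank K (E i) = ∑ z : Fin n ⊕ Fin n, (-a (lab z)).toNat := by
    rw [← Finset.sum_fiberwise (g := lab)]
    refine Finset.sum_congr rfl fun i _ => ?_
    rw [finrank_lab e lab hlab, Finset.sum_congr rfl (g := fun _ => (-a i).toNat), Finset.sum_const,
      smul_eq_mul, mul_comm]
    intro z hz
    rw [(Finset.mem_filter.1 hz).2]
  rw [h1, ← cnt_sum J, ← Finset.sum_add_distrib, Fintype.sum_sum_type, ← Finset.sum_add_distrib]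
  refine Finset.even_sum _ fun x _ => ?_
  have h4 := hay (Sum.inl x)
  have h5 : (Sum.inl x : Fin n ⊕ Fin n).swap = Sum.inr x := rfl
  rw [h5] at h4
  have h6 : a (lab (Sum.inr x)) = -a (lab (Sum.inl x)) := by
    rw [← h5, hlab', hast]
  rw [h6, h4, Nat.even_iff]
  omega

include hμ halt hnd hωρ hst hor hel in
theorem det_rel_mu (γ : G) {κ : Type} [Fintype κ] [DecidableEq κ]
    (φ : MultilinearMap K (fun _ : κ => ∀ i, E i) K)
    (Δ : Subgroup G) (hΔ : Δ.FiniteIndex)
    (hφ : ∀ g ∈ Δ, ∀ v, φ (fun k => piRep r g (v k)) = μ g ^ Fintype.card κ * φ v)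
    (M : ℕ) (hM : γ ^ M ∈ Δ) (t : κ → I) (v : ∀ k, E (t k))
    (hv : φ (fun k => Pi.single (t k) (v k)) ≠ 0) (a : I → ℤ)
    (ha : ∀ i, (finrank K (E i) : ℤ) * a i = (cnt t i : ℤ) - cnt t (st i)) :
    (∏ i, LinearMap.det (r i γ) ^ a i) ^ (2 * M) = 1 := by
  classical
  have h1 := Pi.det_rel ω halt hnd hωρ st hst hor hel γ (sq φ) Δ hΔ (sq_tate hμ hφ) M hM (dd2 t)
    (fun x => dd2 (fun k => (Pi.single (t k) (v k) : ∀ i, E i)) x (dd2 t x)) (by
      have h2 : (fun x => (Pi.single (dd2 t x)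
          (dd2 (fun k => (Pi.single (t k) (v k) : ∀ i, E i)) x (dd2 t x)) : ∀ i, E i)) =
          dd2 (fun k => (Pi.single (t k) (v k) : ∀ i, E i)) := by
        funext x
        unfold dd2
        rcases (sg κ).symm x with z | z
        · simp only [Sum.elim_inl]
          rw [Pi.single_eq_same]
        · simp only [Sum.elim_inr]
          rw [Pi.single_eq_same]
      rw [h2, sq_dd2]
      exact mul_ne_zero hv hv) (fun i => 2 * a i) (fun i => by
      rw [cnt_dd2, cnt_dd2]
      push_cast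
      linear_combination 2 * ha i)
  rw [pow_mul, ← h1]
  congr 1
  rw [← Finset.prod_pow]
  refine Finset.prod_congr rfl fun i _ => ?_
  rw [← zpow_natCast, ← zpow_mul, mul_comm]
  rfl

/-- The multiplier of the product of a form of type `t` and determinants. -/
def multm (r : ∀ i, Representation K G (E i)) (μ : G →* K) (st : I → I) {κ : Type} [Fintype κ]
    (t : κ → I) (b : I → ℕ) (d : ℕ) : (G × Tor K st) →* K where
  toFun x := (∏ k, ((x.2.1 (t k) : Kˣ) : K)) *
    (∏ i, (((x.2.1 i : Kˣ) : K) ^ finrank K (E i) * LinearMap.det (r i x.1)) ^ b i) *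
      ((μ x.1)⁻¹) ^ d
  map_one' := by simp
  map_mul' x y := by
    simp only [Prod.fst_mul, Prod.snd_mul, Subgroup.coe_mul, Pi.mul_apply, Units.val_mul,
      Finset.prod_mul_distrib, map_mul, mul_pow, mul_inv]
    ring

include hμ hnd hωρ hst hor in
theorem multm_pow {κ : Type} [Fintype κ] (t : κ → I) (a : I → ℤ)
    (ha : ∀ i, (finrank K (E i) : ℤ) * a i = (cnt t i : ℤ) - cnt t (st i))
    (hast : ∀ i, a (st i) = -a i) (d : ℕ)
    (hd : d = ∑ i, (-a i).toNat * finrank K (E i)) (M : ℕ)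
    (hM : ∀ g : G, (∏ i, LinearMap.det (r i g) ^ a i) ^ M = 1) (x : G × Tor K st) :
    multm r μ st t (fun i => (-a i).toNat) d x ^ (2 * M) = 1 := by
  have hfr := finrank_st ω hnd st hst hor
  obtain ⟨g, c⟩ := x
  -- the torus part
  have hA : ((∏ k, ((c.1 (t k) : Kˣ) : K)) *
      ∏ i, (((c.1 i : Kˣ) : K) ^ finrank K (E i)) ^ (-a i).toNat) ^ 2 = 1 := by
    have h1 : (∏ k, ((c.1 (t k) : Kˣ) : K)) *
        ∏ i, (((c.1 i : Kˣ) : K) ^ finrank K (E i)) ^ (-a i).toNat =
        ∏ i, ((c.1 i : Kˣ) : K) ^ (cnt t i + finrank K (E i) * (-a i).toNat) := by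
      rw [prod_cnt t (fun i => ((c.1 i : Kˣ) : K)), ← Finset.prod_mul_distrib]
      refine Finset.prod_congr rfl fun i _ => ?_
      rw [pow_add, pow_mul]
    have hN : ∀ i, cnt t (st i) + finrank K (E (st i)) * (-a (st i)).toNat =
        cnt t i + finrank K (E i) * (-a i).toNat := by
      intro i
      have h2 := ha i
      rw [hfr, hast, neg_neg]
      have h3 : (a i).toNat - ((-a i).toNat : ℤ) = a i := Int.toNat_sub_toNat_neg (a i)
      have h4 : ((cnt t (st i) + finrank K (E i) * (a i).toNat : ℕ) : ℤ) =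
          ((cnt t i + finrank K (E i) * (-a i).toNat : ℕ) : ℤ) := by
        push_cast
        linear_combination (finrank K (E i) : ℤ) * h3 + h2
      exact_mod_cast h4
    rw [h1, pow_two]
    have h5 : ∏ i, ((c.1 i : Kˣ) : K) ^ (cnt t i + finrank K (E i) * (-a i).toNat) =
        ∏ i, ((c.1 (st i) : Kˣ) : K) ^ (cnt t i + finrank K (E i) * (-a i).toNat) := by
      refine Finset.prod_bij' (fun i _ => st i) (fun i _ => st i) (fun i _ => Finset.mem_univ _)
        (fun i _ => Finset.mem_univ _) (fun i _ => hst i) (fun i _ => hst i) ?_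
      intro i _
      rw [hst, hN]
    refine (congrArg (fun z => (∏ i, ((c.1 i : Kˣ) : K) ^
      (cnt t i + finrank K (E i) * (-a i).toNat)) * z) h5).trans ?_
    rw [← Finset.prod_mul_distrib]
    refine Finset.prod_eq_one fun i _ => ?_
    rw [← mul_pow, tor_mul, one_pow]
  -- the determinant part
  have hD : ((∏ i, LinearMap.det (r i g) ^ (-a i).toNat) * ((μ g)⁻¹) ^ d) ^ 2 =
      (∏ i, LinearMap.det (r i g) ^ a i)⁻¹ := by
    have h1 : ∏ i, LinearMap.det (r i g) ^ a i =
        (∏ i, LinearMap.det (r i g) ^ (a i).toNat) / ∏ i, LinearMap.det (r i g) ^ (-a i).toNat := by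
      rw [← Finset.prod_div_distrib]
      refine Finset.prod_congr rfl fun i _ => ?_
      rw [← zpow_natCast, ← zpow_natCast, ← zpow_sub₀ (det_ne g i)]
      congr 1
      exact (Int.toNat_sub_toNat_neg (a i)).symm
    have h2 : ∏ i, LinearMap.det (r i g) ^ (a i).toNat =
        ∏ i, LinearMap.det (r (st i) g) ^ (-a i).toNat := by
      refine Finset.prod_bij' (fun i _ => st i) (fun i _ => st i) (fun i _ => Finset.mem_univ _)
        (fun i _ => Finset.mem_univ _) (fun i _ => hst i) (fun i _ => hst i) ?_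
      intro i _
      rw [hst, hast, neg_neg]
    have h3 : (∏ i, LinearMap.det (r i g) ^ (-a i).toNat) *
        ∏ i, LinearMap.det (r (st i) g) ^ (-a i).toNat = μ g ^ (2 * d) := by
      rw [← Finset.prod_mul_distrib, pow_mul, hμ, hd, ← Finset.prod_pow_eq_pow_sum]
      refine Finset.prod_congr rfl fun i _ => ?_
      rw [← mul_pow, det_st ω hnd hωρ hst hor, ← pow_mul, mul_comm]
    have h4 : ∏ i, LinearMap.det (r i g) ^ (-a i).toNat ≠ 0 :=
      Finset.prod_ne_zero_iff.2 fun i _ => pow_ne_zero _ (det_ne g i)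
    have h5 : ∏ i, LinearMap.det (r (st i) g) ^ (-a i).toNat ≠ 0 :=
      Finset.prod_ne_zero_iff.2 fun i _ => pow_ne_zero _ (det_ne g (st i))
    rw [h1, h2, inv_div, mul_pow, ← pow_mul, mul_comm d 2, inv_pow, ← h3]
    field_simp
  have h1 : multm r μ st t (fun i => (-a i).toNat) d (g, c) =
      ((∏ k, ((c.1 (t k) : Kˣ) : K)) *
        ∏ i, (((c.1 i : Kˣ) : K) ^ finrank K (E i)) ^ (-a i).toNat) *
      ((∏ i, LinearMap.det (r i g) ^ (-a i).toNat) * ((μ g)⁻¹) ^ d) := by
    change (∏ k, ((c.1 (t k) : Kˣ) : K)) *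
      (∏ i, (((c.1 i : Kˣ) : K) ^ finrank K (E i) * LinearMap.det (r i g)) ^ (-a i).toNat) *
        ((μ g)⁻¹) ^ d = _
    simp only [mul_pow, Finset.prod_mul_distrib]
    ring
  rw [h1, pow_mul, mul_pow, hA, hD, one_mul, inv_pow, hM, inv_one]

end

end Pool.Agent.H62O.Mu
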