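import Mathlib
import Pool.Agent.H62O.Mu3
import Pool.Agent.H62O.Elim2

/-!
# Elimination of the orthogonal blocks, for a square root of the multiplier
-/

set_option autoImplicit false
set_option linter.unusedSectionVars false
set_option linter.unusedVariables false

namespace Pool.Agent.H62O.Mu

open Module Pool.Agent.H204R3.SP Pool.Agent.H204R3.GP Pool.Agent.W522.U
open Pool.Agent.H62CT Pool.Agent.H62CT.El2 Pool.Agent.TH118.WC Pool.Agent.H62O.Pol
open Pool.Agent.H62O.Elim (prj prj_pos prj_neg prj_rep prj_prj PW)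

noncomputable section

variable {K : Type} [Field K] [CharZero K] [IsAlgClosed K]
  {I : Type} [Fintype I] [DecidableEq I] {E : I → Type} [∀ i, AddCommGroup (E i)]
  [∀ i, Module K (E i)] [∀ i, FiniteDimensional K (E i)] {G : Type} [Group G]
  {r : ∀ i, Representation K G (E i)} {χ μ : G →* K} {st : I → I}
  (hμ : ∀ g, μ g ^ 2 = χ g)
  (ω : (∀ i, E i) →ₗ[K] (∀ i, E i) →ₗ[K] K)
  (hnd : ∀ u, (∀ w, ω u w = 0) → u = 0)
  (hωρ : ∀ g u v, ω (piRep r g u) (piRep r g v) = χ g * ω u v)
  (hst : ∀ i, st (st i) = i)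
  (hor : ∀ i j, j ≠ st i → ∀ (u : E i) (v : E j), ω (Pi.single i u) (Pi.single j v) = 0)
  (O : I → Prop) (hO : ∀ i, O i → st i = i)
  (hsy : ∀ i, O i → ∀ u v : E i,
    ω (Pi.single i u) (Pi.single i v) = ω (Pi.single i v) (Pi.single i u))
  (hsk : ∀ i, ¬O i → ∀ (u : E i) (v : E (st i)),
    ω (Pi.single i u) (Pi.single (st i) v) = -ω (Pi.single (st i) v) (Pi.single i u))
  (hirr : ∀ i, Irr (r i))
  (hdist : ∀ i j, i ≠ j → ∀ (Δ : Subgroup G), Δ.FiniteIndex → ∀ T : E i →ₗ[K] E j,
    (∀ g ∈ Δ, ∀ u, T (r i g u) = r j g (T u)) → T = 0)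
  (hlog : ∀ (m : ℕ) (φ : MultilinearMap K (fun _ : Fin m × Fin 2 => ∀ i, E i) K),
    (∀ x ∈ lieT (piRep r) χ, Kills x φ) → IsTate (piRep r) χ m φ)
  (hpos : ∀ i, 0 < finrank K (E i))
  (hk : ∀ x, BD ω x → (∀ i, LinearMap.trace K (E i) (bl x i) = 0) →
    ∀ φ : MultilinearMap K (fun _ : Fin 2 × Fin 2 => ∀ i, E i) K, IsTate (piRep r) χ 2 φ →
      Kills x φ)

include hnd hωρ hst hor hirr hdist hlog hpos hk in
/-- The operators of an orthogonal block are in the Lie algebra. -/
theorem aa_mem' {o : I} (ho : st o = o)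
    (hsyo : ∀ u v : E o, ω (Pi.single o u) (Pi.single o v) = ω (Pi.single o v) (Pi.single o u))
    (a b : E o) : Ort.aa ω (Pi.single o a) (Pi.single o b) ∈ lieT (piRep r) χ := by
  by_cases h3 : 3 ≤ finrank K (E o)
  · exact Ort.aa_mem ω hnd hωρ hst hor ho hsyo hirr hdist hlog hpos hk h3 a b
  · have h1 := hpos o
    have h2 := Ort.ne_two ω hnd hωρ hst hor ho hsyo hirr
    have h4 : finrank K (E o) = 1 := by omega
    have h5 : Ort.aa ω (Pi.single o a) (Pi.single o b) = 0 := by
      obtain ⟨e, he, hes⟩ := finrank_eq_one_iff'.1 h4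
      obtain ⟨x, rfl⟩ := hes a
      obtain ⟨y, rfl⟩ := hes b
      refine LinearMap.ext fun v => ?_
      have h6 : ∀ c : K, (Pi.single o (c • e) : ∀ i, E i) = c • Pi.single o e := fun c =>
        Pi.single_smul _ _ _
      rw [Ort.aa_apply, h6, h6, map_smul, map_smul, LinearMap.smul_apply, LinearMap.smul_apply,
        smul_smul, smul_smul, LinearMap.zero_apply, ← sub_smul]
      have h7 : (y • ω (Pi.single o e) v) * x - (x • ω (Pi.single o e) v) * y = 0 := by
        simp only [smul_eq_mul]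
        ring
      rw [h7, zero_smul]
    rw [h5]
    exact Submodule.zero_mem _

include hμ hnd hωρ hst hor hO hsy hirr hdist hlog hpos hk in
/-- One step, for the forms of one type. -/
theorem step_type {o : I} (ho : O o) {A A' : I → Prop} (hAo : ¬A o)
    {B B' : I → Prop} (hB : ∀ i, B i → i ≠ o ∧ B' i) (hB' : B' o)
    (ih : ∀ (κ : Type) [Fintype κ] [DecidableEq κ] (ψ : MultilinearMap K (fun _ : κ => ∀ i, E i) K),
      TM r μ ψ → (∀ v, ψ (fun k => prj (K := K) A (v k)) = ψ v) →
      ψ ∈ Submodule.span K (PM r χ μ st B κ))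
    {κ S : Type} [Fintype κ] [DecidableEq κ] [Fintype S] [DecidableEq S]
    (ψ : MultilinearMap K (fun _ : κ ⊕ S => ∀ i, E i) K) (hψ : TM r μ ψ)
    (hsupp : ∀ v, ψ (Sum.elim (fun k => prj (K := K) A (v (Sum.inl k)))
      (fun k => Pi.single o (v (Sum.inr k) o))) = ψ v) :
    ψ ∈ Submodule.span K (PM r χ μ st B' (κ ⊕ S)) := by
  have hoo : st o = o := hO o ho
  obtain ⟨N, p, hp1, hp2, hp3⟩ := exists_li (K := K) ω o S
  have hdet := det_mu hμ ω hnd hωρ hst hor hoo
  obtain ⟨w, hw1, hw2⟩ := decomp ω o hnd hor hoo (hsy o ho) ψ (prj (K := K) A)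
    (fun v => prj_neg hAo v) (fun a => by
      funext i
      by_cases hi : A i
      · rw [prj_pos hi, Pi.single_eq_of_ne]
        · rfl
        · rintro rfl
          exact hAo hi
      · rw [prj_neg hi]
        rfl) (prj_prj A) hsupp
    (fun a b => kills_TM hμ (aa_mem' ω hnd hωρ hst hor hirr hdist hlog hpos hk hoo (hsy o ho)
      a b) hψ) hp3 hp1
  have h4 := coeff_TM hμ ω hωρ hdet hp1 hp2 hψ hw2
  rw [hw2]
  exact Submodule.sum_mem _ fun j _ => mul_mem_mu hμ ω hωρ hst hoo hdet hB hB' (hp1 j)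
    (ih κ (w j) (h4 j) (hw1 j))

include hμ hnd hωρ hst hor hO hsy hirr hdist hlog hpos hk in
/-- One step. -/
theorem step {o : I} (ho : O o) {A : I → Prop} (hAo : ¬A o)
    {B B' : I → Prop} (hB : ∀ i, B i → i ≠ o ∧ B' i) (hB' : B' o)
    (ih : ∀ (κ : Type) [Fintype κ] [DecidableEq κ] (ψ : MultilinearMap K (fun _ : κ => ∀ i, E i) K),
      TM r μ ψ → (∀ v, ψ (fun k => prj (K := K) A (v k)) = ψ v) →
      ψ ∈ Submodule.span K (PM r χ μ st B κ))
    {κ : Type} [Fintype κ] [DecidableEq κ]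
    (ψ : MultilinearMap K (fun _ : κ => ∀ i, E i) K) (hψ : TM r μ ψ)
    (hsupp : ∀ v, ψ (fun k => prj (K := K) A (v k) + Pi.single o (v k o)) = ψ v) :
    ψ ∈ Submodule.span K (PM r χ μ st B' κ) := by
  classical
  let p₀ : (∀ i, E i) →ₗ[K] (∀ i, E i) := prj (K := K) A
  let p₁ : (∀ i, E i) →ₗ[K] (∀ i, E i) := (LinearMap.single K E o).comp (LinearMap.proj o)
  have hp₁ : ∀ v, p₁ v = Pi.single o (v o) := fun _ => rfl
  have hp₁r : ∀ g v, p₁ (piRep r g v) = piRep r g (p₁ v) := by
    intro g v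
    rw [hp₁, hp₁, piRep_single]
    rfl
  have h1 : ψ = ∑ s : Finset κ, ψ.compLinearMap (fun k => if k ∈ s then p₁ else p₀) := by
    refine MultilinearMap.ext fun v => ?_
    rw [_root_.sum_apply, ← hsupp]
    have h2 := ψ.map_add_univ (fun k => p₁ (v k)) (fun k => p₀ (v k))
    have h3 : (fun k => prj (K := K) A (v k) + Pi.single o (v k o)) =
        (fun k => p₁ (v k)) + fun k => p₀ (v k) := by
      funext k
      rw [Pi.add_apply, add_comm]
      rfl
    rw [h3, h2]
    refine Finset.sum_congr rfl fun s _ => ?_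
    rw [MultilinearMap.compLinearMap_apply]
    congr 1
    funext k
    by_cases hk : k ∈ s
    · rw [Finset.piecewise_eq_of_mem _ _ _ hk, if_pos hk]
    · rw [Finset.piecewise_eq_of_notMem _ _ _ hk, if_neg hk]
  rw [h1]
  refine Submodule.sum_mem _ fun s _ => ?_
  set φ := ψ.compLinearMap (fun k => if k ∈ s then p₁ else p₀) with hφ
  have hφa : ∀ v, φ v = ψ (fun k => (if k ∈ s then p₁ else p₀) (v k)) := fun _ => rfl
  let c : {k // k ∉ s} ⊕ {k // k ∈ s} ≃ κ := (Equiv.sumComm _ _).trans (Equiv.sumCompl (· ∈ s))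
  have hc1 : ∀ k : {k // k ∉ s}, c (Sum.inl k) = k.1 := fun _ => rfl
  have hc2 : ∀ k : {k // k ∈ s}, c (Sum.inr k) = k.1 := fun _ => rfl
  have hφT : TM r μ φ := by
    obtain ⟨Δ, hΔ, h2⟩ := hψ
    refine ⟨Δ, hΔ, fun g hg v => ?_⟩
    rw [hφa, hφa, ← h2 g hg]
    congr 1
    funext k
    by_cases hk : k ∈ s
    · rw [if_pos hk, hp₁r]
    · rw [if_neg hk]
      exact prj_rep A g _
  have h2 : φ.domDomCongr c.symm ∈
      Submodule.span K (PM r χ μ st B' ({k // k ∉ s} ⊕ {k // k ∈ s})) := by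
    refine step_type hμ ω hnd hωρ hst hor O hO hsy hirr hdist hlog hpos hk ho (A' := A) hAo hB hB' ih
      _ ?_ fun v => ?_
    · obtain ⟨Δ, hΔ, h2⟩ := hφT
      exact ⟨Δ, hΔ, fun g hg v => by
        rw [Fintype.card_congr c]
        exact h2 g hg _⟩
    · rw [MultilinearMap.domDomCongr_apply, MultilinearMap.domDomCongr_apply, hφa, hφa]
      congr 1
      funext k
      obtain ⟨x, rfl⟩ := c.surjective k
      rw [c.symm_apply_apply]
      rcases x with x | x
      · rw [hc1, if_neg x.2, Sum.elim_inl]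
        exact prj_prj A _
      · rw [hc2, if_pos x.2, Sum.elim_inr, hp₁, hp₁, Pi.single_eq_same]
  have h4 := pm_congr c h2
  have h5 : (φ.domDomCongr c.symm).domDomCongr c = φ := by
    refine MultilinearMap.ext fun v => ?_
    rw [MultilinearMap.domDomCongr_apply, MultilinearMap.domDomCongr_apply]
    simp only [Equiv.apply_symm_apply]
  rwa [h5] at h4

include hμ hnd hωρ hst hor hO hsk hirr hdist hlog hpos hk in
/-- The beginning of the induction. -/
theorem base {κ : Type} [Fintype κ] [DecidableEq κ]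
    (ψ : MultilinearMap K (fun _ : κ => ∀ i, E i) K) (hψ : TM r μ ψ) {A B : I → Prop}
    (hA : ∀ i, A i ↔ ¬O i) (hB : ∀ i, st i ≠ i → B i)
    (hsupp : ∀ v, ψ (fun k => prj (K := K) A (v k)) = ψ v) :
    ψ ∈ Submodule.span K (PM r χ μ st B κ) := by
  classical
  have hN : ∀ i, ¬O i → ¬O (st i) := by
    intro i hi h
    apply hi
    have h1 := hO _ h
    rw [hst] at h1
    rw [h1]
    exact h
  obtain ⟨Δ, hΔ, h2⟩ := hψ
  have hir : ∀ v : ∀ i, E i, inc (K := K) (fun i => ¬O i) (res (K := K) (fun i => ¬O i) v) =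
      prj (K := K) A v := by
    intro v
    funext i
    by_cases hi : O i
    · rw [inc_neg (fun i => ¬O i) _ (not_not.2 hi), prj_neg (fun h => (hA i).1 h hi)]
    · rw [inc_pos (fun i => ¬O i) _ hi, prj_pos ((hA i).2 hi)]
      rfl
  have h3 : TM (fun i : {i // ¬O i} => r i.1) μ
      (ψ.compLinearMap (fun _ => inc (K := K) (E := E) (fun i => ¬O i))) := by
    refine ⟨Δ, hΔ, fun g hg v => ?_⟩
    rw [MultilinearMap.compLinearMap_apply, MultilinearMap.compLinearMap_apply]
    rw [← h2 g hg]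
    congr 1
    funext k
    exact inc_rep (fun i => ¬O i) g _
  have hirr' : ∀ i : {i // ¬O i}, Irr (r i.1) := fun i => hirr i.1
  have hst' : ∀ i, stS (fun i => ¬O i) hN (stS (fun i => ¬O i) hN i) = i :=
    fun i => Subtype.ext (hst i.1)
  have hsk' : ∀ i, ¬O i → ∀ (u : E i) (v : E (st i)),
      ω (Pi.single i u) (Pi.single (st i) v) = -ω (Pi.single (st i) v) (Pi.single i u) := hsk
  have h4 := main_pi_mu hμ (omS (fun i => ¬O i) ω) (omS_alt (fun i => ¬O i) ω hst hor hsk')
    (omS_nd (fun i => ¬O i) ω hnd hor hN) (omS_rep (fun i => ¬O i) ω hωρ) hst'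
    (omS_or (fun i => ¬O i) ω hor hN)
    (El2.hel_of_kills (omS (fun i => ¬O i) ω) (omS_alt (fun i => ¬O i) ω hst hor hsk')
      (omS_nd (fun i => ¬O i) ω hnd hor hN)
      (omS_rep (fun i => ¬O i) ω hωρ) hst' (omS_or (fun i => ¬O i) ω hor hN) hirr'
      (fun i j hij => hdist i.1 j.1 (fun h => hij (Subtype.ext h)))
      (log_sub (fun i => ¬O i) ω hnd hωρ hlog) (fun i => hpos i.1)
      (k_sub (fun i => ¬O i) ω hst hor hN hk) (hasProj_pi hirr'))
    hirr' (fun i => hpos i.1) _ h3
  have h5 : ∀ φ ∈ Submodule.span K (PM (E := fun i : {i // ¬O i} => E i.1)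
      (fun i : {i // ¬O i} => r i.1) χ μ (stS (fun i => ¬O i) hN)
        (fun i => stS (fun i => ¬O i) hN i ≠ i) κ),
      φ.compLinearMap (fun _ => res (K := K) (E := E) (fun i => ¬O i)) ∈
        Submodule.span K (PM r χ μ st B κ) := by
    intro φ hφ
    induction hφ using Submodule.span_induction with
    | mem φ hφ =>
      obtain ⟨P, Q, _, _, i, e, Bf, C, k1, k2, k3, k4, ⟨Δ', hΔ', hdet'⟩, k5⟩ := hφ
      refine Submodule.subset_span ⟨P, Q, inferInstance, inferInstance, fun q => (i q).1,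
        e, fun p => (Bf p).compl₁₂ (res (K := K) (E := E) (fun i => ¬O i))
          (res (K := K) (E := E) (fun i => ¬O i)),
          fun q s => (C q s).compl₁₂ (res (K := K) (E := E) (fun i => ¬O i))
          (res (K := K) (E := E) (fun i => ¬O i)), fun p => ?_, fun q s => ?_, fun q q' hq h => ?_,
          fun q => ?_, ⟨Δ', hΔ', hdet'⟩, fun v => ?_⟩
      · obtain ⟨Δ₁, hΔ₁, k6⟩ := k1 p
        exact ⟨Δ₁, hΔ₁, fun g hg u v => k6 g hg _ _⟩
      · obtain ⟨Δ₁, hΔ₁, k6⟩ := k2 q s
        exact ⟨Δ₁, hΔ₁, fun g hg u v => k6 g hg _ _⟩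
      · exact k3 q q' hq (Subtype.ext h)
      · exact hB _ fun h => k4 q (Subtype.ext h)
      · rw [MultilinearMap.compLinearMap_apply, k5]
        congr 1
        refine Finset.prod_congr rfl fun q _ => ?_
        congr 1
        ext s s'
        rw [Matrix.of_apply, Matrix.of_apply, LinearMap.compl₁₂_apply,
          res_single (fun i => ¬O i) (i q).2]
    | zero =>
      have h : (0 : MultilinearMap K (fun _ : κ => ∀ i : {i // ¬O i}, E i.1) K).compLinearMap
        (fun _ => res (K := K) (E := E) (fun i => ¬O i)) = 0 := rfl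
      rw [h]
      exact Submodule.zero_mem _
    | add a b _ _ ha hb =>
      have h : (a + b).compLinearMap (fun _ => res (K := K) (E := E) (fun i => ¬O i)) =
        a.compLinearMap (fun _ => res (K := K) (E := E) (fun i => ¬O i)) +
        b.compLinearMap (fun _ => res (K := K) (E := E) (fun i => ¬O i)) := rfl
      rw [h]
      exact Submodule.add_mem _ ha hb
    | smul c a _ ha =>
      have h : (c • a).compLinearMap (fun _ => res (K := K) (E := E) (fun i => ¬O i)) =
        c • a.compLinearMap (fun _ => res (K := K) (E := E) (fun i => ¬O i)) := rfl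
      rw [h]
      exact Submodule.smul_mem _ _ ha
  have h6 := h5 _ h4
  have h7 : (ψ.compLinearMap (fun _ => inc (K := K) (E := E) (fun i => ¬O i))).compLinearMap
      (fun _ => res (K := K) (E := E) (fun i => ¬O i)) = ψ := by
    refine MultilinearMap.ext fun v => ?_
    rw [MultilinearMap.compLinearMap_apply, MultilinearMap.compLinearMap_apply]
    simp only [hir]
    exact hsupp v
  rwa [h7] at h6

include hμ hnd hωρ hst hor hO hsy hsk hirr hdist hlog hpos hk in
theorem elim (T : Finset I) : (∀ i ∈ T, O i) → ∀ (κ : Type) [Fintype κ] [DecidableEq κ]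
    (ψ : MultilinearMap K (fun _ : κ => ∀ i, E i) K), TM r μ ψ →
    (∀ v, ψ (fun k => prj (K := K) (fun i => ¬O i ∨ i ∈ T) (v k)) = ψ v) →
    ψ ∈ Submodule.span K (PM r χ μ st (fun i => st i ≠ i ∨ i ∈ T) κ) := by
  classical
  induction T using Finset.induction_on with
  | empty =>
    intro _ κ _ _ ψ hψ hsupp
    exact base hμ ω hnd hωρ hst hor O hO hsk hirr hdist hlog hpos hk ψ hψ
      (A := fun i => ¬O i ∨ i ∈ (∅ : Finset I)) (fun i => by simp) (fun i hi => Or.inl hi) hsupp
  | insert o T hoT ih =>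
    intro hT κ _ _ ψ hψ hsupp
    have ho : O o := hT o (Finset.mem_insert_self _ _)
    have hAo : ¬(¬O o ∨ o ∈ T) := by
      rintro (h | h)
      · exact h ho
      · exact hoT h
    refine step hμ ω hnd hωρ hst hor O hO hsy hirr hdist hlog hpos hk ho hAo
      (B := fun i => st i ≠ i ∨ i ∈ T) (B' := fun i => st i ≠ i ∨ i ∈ insert o T) (fun i hi => ?_)
      (Or.inr (Finset.mem_insert_self _ _))
      (ih (fun i hi => hT i (Finset.mem_insert_of_mem hi))) ψ hψ fun v => ?_
    · refine ⟨?_, ?_⟩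
      · rintro rfl
        rcases hi with h | h
        · exact h (hO _ ho)
        · exact hoT h
      · rcases hi with h | h
        · exact Or.inl h
        · exact Or.inr (Finset.mem_insert_of_mem h)
    · rw [← hsupp]
      refine Eq.trans ?_ (hsupp v)
      congr 1
      funext k i
      by_cases hi : i = o
      · subst hi
        rw [prj_pos (A := fun j => ¬O j ∨ j ∈ insert i T) (Or.inr (Finset.mem_insert_self _ _)),
          prj_pos (A := fun j => ¬O j ∨ j ∈ insert i T) (Or.inr (Finset.mem_insert_self _ _)),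
          Pi.add_apply, prj_neg (A := fun j => ¬O j ∨ j ∈ T) hAo, zero_add, Pi.single_eq_same]
      · by_cases h : ¬O i ∨ i ∈ T
        · have h' : ¬O i ∨ i ∈ insert o T := h.imp id Finset.mem_insert_of_mem
          rw [prj_pos (A := fun j => ¬O j ∨ j ∈ insert o T) h',
            prj_pos (A := fun j => ¬O j ∨ j ∈ insert o T) h', Pi.add_apply,
            prj_pos (A := fun j => ¬O j ∨ j ∈ T) h, Pi.single_eq_of_ne hi, add_zero]
        · have h' : ¬(¬O i ∨ i ∈ insert o T) := by
            rintro (h1 | h1)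
            · exact h (Or.inl h1)
            · exact h (Or.inr ((Finset.mem_insert.1 h1).resolve_left hi))
          rw [prj_neg (A := fun j => ¬O j ∨ j ∈ insert o T) h',
            prj_neg (A := fun j => ¬O j ∨ j ∈ insert o T) h']

include hμ hnd hωρ hst hor hO hsy hsk hirr hdist hlog hpos hk in
/-- **All Tate forms are combinations of products of bilinear Tate forms and determinants.** -/
theorem main {m : ℕ} (φ : MultilinearMap K (fun _ : Fin m × Fin 2 => ∀ i, E i) K)
    (hφ : IsTate (piRep r) χ m φ) :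
    φ ∈ Submodule.span K (PW r χ st (fun i => st i ≠ i ∨ O i) (Fin m × Fin 2)) := by
  classical
  obtain ⟨Δ, hΔ, h⟩ := hφ
  have h1 := elim hμ ω hnd hωρ hst hor O hO hsy hsk hirr hdist hlog hpos hk
    (Finset.univ.filter O) (fun i hi => (Finset.mem_filter.1 hi).2) (Fin m × Fin 2) φ
    ⟨Δ, hΔ, fun g hg v => by
      rw [h g hg, Fintype.card_prod, Fintype.card_fin, Fintype.card_fin, mul_comm m, pow_mul, hμ]⟩
    (fun v => by
      congr 1
      funext k i
      refine prj_pos ?_ _
      by_cases hi : O i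
      · exact Or.inr (Finset.mem_filter.2 ⟨Finset.mem_univ _, hi⟩)
      · exact Or.inl hi)
  refine Submodule.span_mono ?_ h1
  rintro φ ⟨P, Q, hP, hQ, i, e, B, C, k1, k2, k3, k4, ⟨Δ', hΔ', k5⟩, k6⟩
  have hcard := Fintype.card_congr e
  rw [Fintype.card_sum, Fintype.card_prod, Fintype.card_prod, Fintype.card_fin, Fintype.card_fin,
    Fintype.card_sigma] at hcard
  simp only [Fintype.card_fin] at hcard
  refine ⟨P, Q, hP, hQ, i, e, B, C, k1, k2, k3, fun q => (k4 q).imp id fun h =>
    (Finset.mem_filter.1 h).2, ⟨m - Fintype.card P, Δ', hΔ', by omega, fun g hg => ?_⟩, k6⟩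
  have h2 : ∑ q, finrank K (E (i q)) = 2 * (m - Fintype.card P) := by omega
  rw [k5 g hg, h2, pow_mul, hμ]

end

end Pool.Agent.H62O.Mu
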