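import Mathlib
import Pool.Agent.Y126.Notions

/-!
# Weil families of all types

As in `Pool.Agent.Y126.Notions`, but orthogonal self-dual strongly irreducible subspaces are allowed in
the Weil families.
-/

set_option autoImplicit false

namespace Pool.Agent.H62O.Notions

open Module TensorProduct Pool.Agent.Y126.Notions

noncomputable section

section notions

variable {K X Γ : Type} [Field K] [AddCommGroup X] [Module K X] [Group Γ]

/-- A family of strongly irreducible subspaces which are not symplectic, no two of them (with
different indices) dual to each other, such that a subgroup of finite index acts on the tensor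
product of their determinants through the power of `χ` whose exponent is half of the sum of the
dimensions. -/
def IsWeilFamily (R : Representation K Γ X) (χ : Γ →* K) {Q : Type} [Fintype Q]
    (L : Q → Submodule K X) : Prop :=
  (∀ q, StronglyIrreducible R (L q)) ∧ (∀ q, ¬IsSymplectic R χ (L q)) ∧
    (∀ q q', q ≠ q' → ¬AreDual R χ (L q) (L q')) ∧
    ∃ (c : ℕ) (Δ : Subgroup Γ) (h : ∀ q, ∀ g ∈ Δ, ∀ u ∈ L q, R g u ∈ L q), Δ.FiniteIndex ∧
      2 * c = ∑ q, finrank K (L q) ∧
      ∀ (g : Γ) (hg : g ∈ Δ), ∏ q, LinearMap.det ((R g).restrict (h q g hg)) = χ g ^ c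

/-- The exterior products, on `X ^ n`, of Tate forms `B p` of degree two and of the Weil classes of a
Weil family `L` in `X ^ n`: of the lines `Λ ^ max (L q)`, where `b q` is a basis of `L q` and a vector is
considered as a linear form by means of `sumForm ω n`. -/
def weilProducts (R : Representation K Γ X) (χ : Γ →* K) (ω : X →ₗ[K] X →ₗ[K] K) (n m : ℕ) :
    Set ((Fin m × Fin 2 → Fin n → X) → K) :=
  {g | ∃ (P Q : Type) (_ : Fintype P) (_ : Fintype Q) (d : Q → ℕ)
    (L : Q → Submodule K (Fin n → X)) (b : ∀ q, Basis (Fin (d q)) K (L q))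
    (e : (P × Fin 2) ⊕ (Σ q, Fin (d q)) ≃ Fin m × Fin 2)
    (B : P → (Fin n → X) →ₗ[K] (Fin n → X) →ₗ[K] K),
    (∀ p, IsTateForm (diagonal R n) χ (B p)) ∧ IsWeilFamily (diagonal R n) χ L ∧
    g = wedge e B (fun s => sumForm ω n (b s.1 s.2 : Fin n → X))}

end notions

section classes

variable {k V Γ : Type} [Field k] [AddCommGroup V] [Module k V] [Group Γ]

/-- On the power `A ^ n` all Tate classes of codimension `m` are, over the extension `K`, linear
combinations of exterior products of Tate classes of degree two and of Weil classes. -/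
def GeneratedByWeilClassesIn (K : Type) [Field K] [Algebra k K] (ρ : Representation k Γ V)
    (χ : Γ →* k) (ω : V →ₗ[k] V →ₗ[k] k) (n m : ℕ) : Prop :=
  ∀ f : (Fin n → V) [⋀^Fin m × Fin 2]→ₗ[k] k, IsTateClass ρ χ f →
    (fun v => algebraMap k K (f v)) ∈ Submodule.span K
      ((fun (g : (Fin m × Fin 2 → Fin n → K ⊗[k] V) → K) (v : Fin m × Fin 2 → Fin n → V) =>
        g (fun l i => (1 : K) ⊗ₜ[k] v l i)) ''
          weilProducts (extend K ρ) ((algebraMap k K : k →* K).comp χ)
            (LinearMap.BilinForm.baseChange K ω) n m)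

end classes

end

end Pool.Agent.H62O.Notions
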