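import Mathlib
import Pool.Agent.H62O.Elim2
import Pool.Agent.H62O.Notions
import Pool.Agent.Y126.Toric.Final
import Pool.Agent.H62CT.WT

/-!
# Tate forms and Weil classes of all types
-/

set_option autoImplicit false
set_option linter.unusedSectionVars false
set_option linter.unusedVariables false

namespace Pool.Agent.H62O

open Module Pool.Agent.H204R3.SP Pool.Agent.H204R3.GP Pool.Agent.W522.U Pool.Agent.W529.Ta
open Pool.Agent.W528.Odd Pool.Agent.TH118.WC Pool.Agent.H62CT Pool.Agent.H62CT.El2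
open Pool.Agent.W528.Tor (AltDual)
open Pool.Agent.H62O.Elim (PW)
open Pool.Agent.Y126.Toric (altDual_du)
open TensorProduct

noncomputable section

section reps

variable {K : Type} [Field K] [CharZero K] {X : Type} [AddCommGroup X] [Module K X]
  [FiniteDimensional K X]
  {Γ : Type} [Group Γ]

/-- The products of bilinear Tate forms and determinants. -/
def DetProdW (R : Representation K Γ X) (χ : Γ →* K) (m : ℕ) :
    Set (MultilinearMap K (fun _ : Fin m × Fin 2 => X) K) :=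
  {φ | ∃ (P Q : Type) (_ : Fintype P) (_ : Fintype Q) (U : Q → Submodule K X)
    (f : ∀ q, Basis (Fin (finrank K (U q))) K (U q))
    (e : (P × Fin 2) ⊕ (Σ q, Fin (finrank K (U q))) ≃ Fin m × Fin 2)
    (B : P → X →ₗ[K] X →ₗ[K] K) (C : ∀ q, Fin (finrank K (U q)) → X →ₗ[K] X →ₗ[K] K),
    (∀ p, IsTate2 R χ (B p)) ∧ (∀ q s, IsTate2 R χ (C q s)) ∧
    (∀ q, SI R (U q)) ∧ (∀ q, ¬AltDual R χ (U q)) ∧ (∀ q q', q ≠ q' → ¬Du R χ (U q) (U q')) ∧
    (∃ (d : ℕ) (Δ : Subgroup Γ) (h : ∀ q, ∀ g ∈ Δ, ∀ u ∈ U q, R g u ∈ U q), Δ.FiniteIndex ∧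
      2 * d = ∑ q, finrank K (U q) ∧
      ∀ (g : Γ) (hg : g ∈ Δ), ∏ q, LinearMap.det ((R g).restrict (h q g hg)) = χ g ^ d) ∧
    ∀ v, φ v = (∏ p, B p (v (e (Sum.inl (p, 0)))) (v (e (Sum.inl (p, 1))))) *
      ∏ q, Matrix.det (Matrix.of fun s s' => C q s (v (e (Sum.inr ⟨q, s⟩))) (f q s' : X))}

variable {R : Representation K Γ X} {χ : Γ →* K}

/-- From the sum of the representatives to the whole space. -/
theorem det_of_reps_w (hss : HasProj R) {s : ℕ} (W : Fin s → Submodule K X) (hW : ∀ i, SI R (W i))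
    (hall : ∀ U, SI R U → ∃ i, Tw R (fun _ => 1) U (W i))
    (st : Fin s → Fin s) (hDu' : ∀ i j, Du R χ (W i) (W j) → j = st i) (O : Fin s → Prop)
    (hO : ∀ i, O i → ¬AltDual R χ (W i))
    (Δ : Subgroup Γ) (hΔ : Δ.FiniteIndex) (hWΔ : ∀ i, ∀ g ∈ Δ, ∀ u ∈ W i, R g u ∈ W i) (m : ℕ)
    (hE : ∀ (φ : MultilinearMap K (fun _ : Fin m × Fin 2 => ∀ i, W i) K),
        IsTate (piRep (fun i => resR R Δ (W i) (hWΔ i))) (χ.comp Δ.subtype) m φ →
        φ ∈ Submodule.span K (PW (fun i => resR R Δ (W i) (hWΔ i))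
          (χ.comp Δ.subtype) st (fun i => st i ≠ i ∨ O i) (Fin m × Fin 2)))
    (φ : MultilinearMap K (fun _ : Fin m × Fin 2 => X) K) (hφ : IsTate R χ m φ) :
    φ ∈ Submodule.span K (DetProdW R χ m) := by
  classical
  obtain ⟨Δφ, hΔφ, hφ⟩ := hφ
  obtain ⟨n, f, T, hfT⟩ := Submodule.mem_span_set'.1 (decomp hss W hW hall)
  choose i p ι D hD hp hι hT using fun l => (T l).2
  choose Qp hQ1 hQ2 hQ3 using fun i => hss Δ hΔ (W i) (hWΔ i)
  -- expansion
  have hexp : φ = ∑ L : Fin m × Fin 2 → Fin n, (∏ k, f (L k)) •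
      φ.compLinearMap (fun k => (T (L k)).1) := by
    ext v
    rw [_root_.sum_apply]
    have h1 : v = fun k => ∑ l, f l • (T l).1 (v k) := by
      funext k
      have h2 := congrArg (fun F : Module.End K X => F (v k)) hfT
      simp only [LinearMap.sum_apply, LinearMap.smul_apply, Module.End.one_apply] at h2
      exact h2.symm
    conv_lhs => rw [h1]
    rw [MultilinearMap.map_sum]
    refine Finset.sum_congr rfl fun L _ => ?_
    rw [MultilinearMap.map_smul_univ]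
    rfl
  rw [hexp]
  refine Submodule.sum_mem _ fun L _ => Submodule.smul_mem _ _ ?_
  -- the form on the sum of the representatives
  let r := fun i => resR R Δ (W i) (hWΔ i)
  let φL : MultilinearMap K (fun _ : Fin m × Fin 2 => ∀ i, W i) K :=
    φ.compLinearMap (fun k => (ι (L k)).comp (LinearMap.proj (i (L k))))
  have hDD : (⨅ l, D l).FiniteIndex := Subgroup.finiteIndex_iInf hD
  have hφL : IsTate (piRep r) (χ.comp Δ.subtype) m φL := by
    refine ⟨(Δφ ⊓ ⨅ l, D l).subgroupOf Δ, inferInstance, fun g hg w => ?_⟩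
    rw [Subgroup.mem_subgroupOf] at hg
    change φ (fun k => ι (L k) (piRep r g (w k) (i (L k)))) = χ g.1 ^ m * φ (fun k => _)
    rw [← hφ g.1 hg.1]
    congr 1
    funext k
    exact hι (L k) g.1 (Subgroup.mem_iInf.1 hg.2 _) _ _ rfl
  let q : Fin m × Fin 2 → (X →ₗ[K] ∀ i, W i) := fun k =>
    (LinearMap.single K (fun i => W i) (i (L k))).comp (p (L k))
  have hq : ∀ (k : Fin m × Fin 2) (g : Γ) (hg : g ∈ Δ), g ∈ (⨅ l, D l) → ∀ x,
      q k (R g x) = piRep r ⟨g, hg⟩ (q k x) := by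
    intro k g hg hg' x
    change (Pi.single (i (L k)) (p (L k) (R g x)) : ∀ i, W i) =
      piRep r ⟨g, hg⟩ (Pi.single (i (L k)) (p (L k) x))
    rw [piRep_single]
    congr 1
    exact Subtype.ext (hp (L k) g (Subgroup.mem_iInf.1 hg' _) x)
  -- the projections to the representatives
  let pr : ∀ j, X →ₗ[K] ∀ i, W i := fun j =>
    (LinearMap.single K (fun i => W i) j).comp ((Qp j).codRestrict (W j) (hQ1 j))
  have hpr : ∀ (j : Fin s) (g : Γ) (hg : g ∈ Δ) x, pr j (R g x) = piRep r ⟨g, hg⟩ (pr j x) := by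
    intro j g hg x
    change (Pi.single j ((Qp j).codRestrict (W j) (hQ1 j) (R g x)) : ∀ i, W i) =
      piRep r ⟨g, hg⟩ (Pi.single j ((Qp j).codRestrict (W j) (hQ1 j) x))
    rw [piRep_single]
    congr 1
    exact Subtype.ext (hQ3 j g hg x)
  have hprW : ∀ (j : Fin s) (u : W j), pr j (u : X) = Pi.single j u := by
    intro j u
    change (Pi.single j ((Qp j).codRestrict (W j) (hQ1 j) (u : X)) : ∀ i, W i) = _
    congr 1
    exact Subtype.ext (hQ2 j u u.2)
  have h1 : φ.compLinearMap (fun k => (T (L k)).1) = MultilinearMap.compLinearMapₗ q φL := by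
    ext v
    change φ (fun k => (T (L k)).1 (v k)) = φ (fun k => ι (L k)
      ((Pi.single (i (L k)) (p (L k) (v k)) : ∀ i, W i) (i (L k))))
    congr 1
    funext k
    rw [hT, Pi.single_eq_same]
    rfl
  rw [h1]
  have h2 : (Submodule.span K (PW r (χ.comp Δ.subtype) st (fun i => st i ≠ i ∨ O i)
      (Fin m × Fin 2))).map (MultilinearMap.compLinearMapₗ q) ≤
        Submodule.span K (DetProdW R χ m) := by
    rw [Submodule.map_span, Submodule.span_le]
    rintro _ ⟨ψ, ⟨P, Q, hP, hQ, j, e, B, C, hB, hC, hj, hjA, ⟨d, Δ₁, hΔ₁, hd, hdet⟩, hψ⟩, rfl⟩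
    refine Submodule.subset_span ⟨P, Q, hP, hQ, fun x => W (j x),
      fun x => finBasis K (W (j x)), e,
      fun x => (B x).compl₁₂ (q (e (Sum.inl (x, 0)))) (q (e (Sum.inl (x, 1)))),
      fun x y => (C x y).compl₁₂ (q (e (Sum.inr ⟨x, y⟩))) (pr (j x)),
      fun x => ?_, fun x y => ?_, fun x => hW _, fun x h => ?_, fun x y hxy h => hj x y hxy (hDu' _ _ h).symm,
      ⟨d, Δ₁.map Δ.subtype, ?_, fi_map hΔ Δ₁ hΔ₁, hd, ?_⟩, fun v => ?_⟩
    · obtain ⟨ΔB, hΔB, hB'⟩ := hB x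
      have hfi := fi_map hΔ ΔB hΔB
      refine ⟨ΔB.map Δ.subtype ⊓ ⨅ l, D l, inferInstance, ?_⟩
      rintro _ ⟨⟨g, hg, rfl⟩, hg2⟩ u v
      change B x (q _ (R g.1 u)) (q _ (R g.1 v)) = χ g.1 * B x (q _ u) (q _ v)
      rw [hq _ g.1 g.2 hg2, hq _ g.1 g.2 hg2]
      exact hB' g hg _ _
    · obtain ⟨ΔB, hΔB, hB'⟩ := hC x y
      have hfi := fi_map hΔ ΔB hΔB
      refine ⟨ΔB.map Δ.subtype ⊓ ⨅ l, D l, inferInstance, ?_⟩
      rintro _ ⟨⟨g, hg, rfl⟩, hg2⟩ u v
      change C x y (q _ (R g.1 u)) (pr _ (R g.1 v)) = χ g.1 * C x y (q _ u) (pr _ v)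
      rw [hq _ g.1 g.2 hg2, hpr _ g.1 g.2]
      exact hB' g hg _ _
    · rcases hjA x with h1 | h1
      · exact h1 (hDu' _ _ (altDual_du h)).symm
      · exact hO _ h1 h
    · rintro x _ ⟨g, hg, rfl⟩ u hu
      exact hWΔ _ g.1 g.2 u hu
    · rintro _ ⟨g, hg, rfl⟩
      exact hdet g hg
    · change ψ (fun k => q k (v k)) = _
      rw [hψ]
      congr 1
      refine Finset.prod_congr rfl fun x _ => ?_
      congr 1
      ext a b
      rw [Matrix.of_apply, Matrix.of_apply, LinearMap.compl₁₂_apply, hprW]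
  exact h2 (Submodule.mem_map_of_mem (hE φL hφL))


/-- The exterior products of alternating Tate forms of degree two and Weil classes. -/
def WeilWedgeW (R : Representation K Γ X) (χ : Γ →* K) (ω : X →ₗ[K] X →ₗ[K] K) (n m : ℕ) :
    Set ((Fin m × Fin 2 → Fin n → X) → K) :=
  {g | ∃ (P Q : Type) (_ : Fintype P) (_ : Fintype Q) (d : Q → ℕ)
    (L : Q → Submodule K (Fin n → X)) (b : ∀ q, Basis (Fin (d q)) K (L q))
    (e : (P × Fin 2) ⊕ (Σ q, Fin (d q)) ≃ Fin m × Fin 2)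
    (B : P → (Fin n → X) →ₗ[K] (Fin n → X) →ₗ[K] K),
    (∀ p, IsTate2 (powRep R n) χ (B p)) ∧ (∀ p y, B p y y = 0) ∧
    Notions.IsWeilFamily (powRep R n) χ L ∧
    g = wedge e B (fun s => powForm ω n (b s.1 s.2 : Fin n → X))}

theorem alt_of_map {Y : Type} [AddCommGroup Y] [Module K Y] {R : Representation K Γ X}
    {R' : Representation K Γ Y} {χ : Γ →* K} {U : Submodule K X} {T : X →ₗ[K] Y}
    {Δ : Subgroup Γ} (hΔ : Δ.FiniteIndex)
    (hT : ∀ g ∈ Δ, ∀ x, T (R g x) = R' g (T x))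
    (h : AltDual R' χ (U.map T)) : AltDual R χ U := by
  obtain ⟨Δ1, hΔ1, D, ⟨_, ⟨u, hu, rfl⟩, _, ⟨v, hv, rfl⟩, h1⟩, h3, h2⟩ := h
  refine ⟨Δ ⊓ Δ1, inferInstance, D.compl₁₂ T T, ⟨u, hu, v, hv, h1⟩, fun u hu => ?_,
    fun g hg u hu v hv => ?_⟩
  · rw [LinearMap.compl₁₂_apply]
    exact h3 _ ⟨u, hu, rfl⟩
  · rw [LinearMap.compl₁₂_apply, LinearMap.compl₁₂_apply, hT g hg.1, hT g hg.1]
    exact h2 g hg.2 _ ⟨u, hu, rfl⟩ _ ⟨v, hv, rfl⟩

/-- Alternation of the products of bilinear forms and determinants. -/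
theorem alt_mem_w (ω : X →ₗ[K] X →ₗ[K] K) (hnd : ∀ u, (∀ v, ω u v = 0) → u = 0)
    (hωR : ∀ g u v, ω (R g u) (R g v) = χ g * ω u v) {n m : ℕ}
    (I : Fin m × Fin 2 → Fin n) (φ : MultilinearMap K (fun _ : Fin m × Fin 2 => X) K)
    (hφ : φ ∈ DetProdW R χ m) :
    (fun v : Fin m × Fin 2 → Fin n → X => ∑ σ : Equiv.Perm (Fin m × Fin 2),
      ((Equiv.Perm.sign σ : ℤ) : K) * φ (fun l => v (σ l) (I l))) ∈
      Submodule.span K (WeilWedgeW R χ ω n m) := by
  classical
  obtain ⟨P, Q, hP, hQ, U, f, e, B, C, hB, hC, hU, hUA, hUU, ⟨d, Δ, hΔU, hΔ, hd, hdet⟩, hφ⟩ := hφ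
  choose T hT ΔT hΔT hTe using fun (q : Q) (s : Fin (finrank K (U q))) =>
    exists_rep ω hnd hωR (C q s) (hC q s) n (I (e (Sum.inr ⟨q, s⟩)))
  let B' : P → (Fin n → X) →ₗ[K] (Fin n → X) →ₗ[K] K := fun p =>
    (B p).compl₁₂ (LinearMap.proj (I (e (Sum.inl (p, 0))))) (LinearMap.proj (I (e (Sum.inl (p, 1)))))
  have hB' : ∀ p, IsTate2 (powRep R n) χ (B' p) := by
    intro p
    obtain ⟨Δ1, hΔ1, h1⟩ := hB p
    exact ⟨Δ1, hΔ1, fun g hg u v => h1 g hg _ _⟩
  let c : ∀ q, Fin (finrank K (U q)) → Fin (finrank K (U q)) → Dual K (Fin n → X) :=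
    fun q s s' => powForm ω n (T q s (f q s' : X))
  have h1 : (fun v : Fin m × Fin 2 → Fin n → X => ∑ σ : Equiv.Perm (Fin m × Fin 2),
      ((Equiv.Perm.sign σ : ℤ) : K) * φ (fun l => v (σ l) (I l))) =
      ∑ A : (∀ q, Finset (Fin (finrank K (U q)))), (∏ q, (-1 : K) ^ (A q).card) •
        wedge e (fun p => (2⁻¹ : K) • (B' p - (B' p).flip))
          (fun s => ∑ t ∈ (A s.1)ᶜ, c s.1 t s.2) := by
    funext v
    rw [Finset.sum_apply]
    simp only [Pi.smul_apply, smul_eq_mul]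
    simp only [wedge_alt e B']
    rw [← det_wedge (fun q => finrank K (U q)) e B' c v]
    refine Finset.sum_congr rfl fun σ _ => ?_
    rw [hφ]
    have h2 : ∀ q, (Matrix.of fun s s' => C q s (v (σ (e (Sum.inr ⟨q, s⟩)))
        (I (e (Sum.inr ⟨q, s⟩)))) (f q s' : X)) =
        (Matrix.of fun s s' => c q s s' (v (σ (e (Sum.inr ⟨q, s⟩))))) := by
      intro q
      ext s s'
      rw [Matrix.of_apply, Matrix.of_apply]
      exact (hT q s (f q s') (v (σ (e (Sum.inr ⟨q, s⟩))))).symm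
    simp only [h2]
    rfl
  rw [h1]
  refine Submodule.sum_mem _ fun A _ => Submodule.smul_mem _ _ ?_
  let TA : Q → X →ₗ[K] (Fin n → X) := fun q => ∑ t ∈ (A q)ᶜ, T q t
  have hTA : ∀ s : (Σ q, Fin (finrank K (U q))), ∑ t ∈ (A s.1)ᶜ, c s.1 t s.2 =
      powForm ω n (TA s.1 (f s.1 s.2 : X)) := by
    intro s
    simp only [TA, c]
    rw [LinearMap.sum_apply, map_sum]
  simp only [hTA]
  let Δ0 : Subgroup Γ := ⨅ q, ⨅ s, ΔT q s
  have hΔ0 : Δ0.FiniteIndex := by
    have : ∀ q, (⨅ s, ΔT q s).FiniteIndex := fun q => Subgroup.finiteIndex_iInf (hΔT q)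
    exact Subgroup.finiteIndex_iInf this
  have hTAe : ∀ q, ∀ g ∈ Δ0, ∀ u, TA q (R g u) = powRep R n g (TA q u) := by
    intro q g hg u
    simp only [TA]
    rw [LinearMap.sum_apply, LinearMap.sum_apply, map_sum]
    refine Finset.sum_congr rfl fun t _ => ?_
    exact hTe q t g (Subgroup.mem_iInf.1 (Subgroup.mem_iInf.1 hg q) t) u
  by_cases h0 : ∀ q, ∃ u ∈ U q, TA q u ≠ 0
  · choose E hE using fun q => exists_equiv_map (hU q) hΔ0 (hTAe q) (h0 q)
    refine Submodule.subset_span ⟨P, Q, hP, hQ, fun q => finrank K (U q),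
      fun q => (U q).map (TA q), fun q => (f q).map (E q), e,
      fun p => (2⁻¹ : K) • (B' p - (B' p).flip), fun p => ?_, fun p y => ?_,
      ⟨fun q => si_map (hU q) hΔ0 (hTAe q) (h0 q), fun q h => hUA q
        (alt_of_map hΔ0 (hTAe q) h), fun q q' hq h => hUU q q' hq
        (du_of_map hΔ0 (hTAe q) (hTAe q') h), ⟨d, Δ ⊓ Δ0, ?_, inferInstance, ?_, ?_⟩⟩, ?_⟩
    · obtain ⟨Δ1, hΔ1, h2⟩ := hB' p
      refine ⟨Δ1, hΔ1, fun g hg u v => ?_⟩
      simp only [LinearMap.smul_apply, LinearMap.sub_apply, LinearMap.flip_apply, h2 g hg,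
        smul_eq_mul]
      ring
    · simp only [LinearMap.smul_apply, LinearMap.sub_apply, LinearMap.flip_apply, sub_self,
        smul_zero]
    · rintro q g hg _ ⟨u, hu, rfl⟩
      exact ⟨R g u, hΔU q g hg.1 u hu, hTAe q g hg.2 u⟩
    · rw [hd]
      exact Finset.sum_congr rfl fun q _ => (E q).finrank_eq
    · intro g hg
      rw [← hdet g hg.1]
      refine Finset.prod_congr rfl fun q _ => ?_
      exact det_map (hTAe q) (E q) (hE q) hg.2 _ _
    · congr 1
      funext s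
      rw [Basis.map_apply, hE]
  · push Not at h0
    obtain ⟨q, hq⟩ := h0
    have hpos : 0 < finrank K (U q) := by
      rw [Nat.pos_iff_ne_zero, ne_eq, Submodule.finrank_eq_zero]
      exact (hU q).1
    have h2 : wedge e (fun p => (2⁻¹ : K) • (B' p - (B' p).flip))
        (fun s : (Σ q, Fin (finrank K (U q))) => powForm ω n (TA s.1 (f s.1 s.2 : X))) = 0 := by
      funext v
      rw [wedge_apply]
      refine Finset.sum_eq_zero fun σ _ => ?_
      have h3 : ∏ s : (Σ q, Fin (finrank K (U q))), powForm ω n (TA s.1 (f s.1 s.2 : X))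
          (v (σ (e (Sum.inr s)))) = 0 := by
        refine Finset.prod_eq_zero (Finset.mem_univ ⟨q, ⟨0, hpos⟩⟩) ?_
        rw [hq _ (f q ⟨0, hpos⟩).2, map_zero, LinearMap.zero_apply]
      rw [h3, mul_zero, mul_zero]
    rw [h2]
    exact Submodule.zero_mem _

/-- If there are no Weil families there are no determinants. -/
theorem pt_of_noWeil_w (hno : ∀ (Q : Type) [Fintype Q] [Nonempty Q] (L : Q → Submodule K X),
    ¬Notions.IsWeilFamily R χ L) {m : ℕ}
    {φ : MultilinearMap K (fun _ : Fin m × Fin 2 => X) K}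
    (hφ : φ ∈ Submodule.span K (DetProdW R χ m)) : φ ∈ Submodule.span K (PT R χ m) := by
  classical
  refine Submodule.span_mono ?_ hφ
  rintro φ ⟨P, Q, _, _, U, f, e, B, C, hB, -, hU, hUA, hDu, hdet, hφ⟩
  have hQ : IsEmpty Q := by
    by_contra hne
    rw [not_isEmpty_iff] at hne
    exact hno Q U ⟨hU, hUA, hDu, hdet⟩
  have hcard : Fintype.card P = m := by
    have h1 := Fintype.card_congr e
    have h2 : Fintype.card (Σ q, Fin (finrank K (U q))) = 0 := Fintype.card_eq_zero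
    rw [Fintype.card_sum, h2, Fintype.card_prod, Fintype.card_prod, Fintype.card_fin,
      Fintype.card_fin] at h1
    omega
  let i : P ≃ Fin m := Fintype.equivFinOfCardEq hcard
  let e' : Fin m × Fin 2 ≃ Fin m × Fin 2 :=
    ((Equiv.prodCongr i.symm (Equiv.refl _)).trans (Equiv.sumEmpty _ _).symm).trans e
  refine ⟨e', fun l => B (i.symm l), fun l => hB _, ?_⟩
  ext v
  have h3 : (∏ q, Matrix.det (Matrix.of fun s s' => C q s (v (e (Sum.inr ⟨q, s⟩))) (f q s' : X))) = 1 :=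
    Fintype.prod_empty _
  rw [hφ, mmG_apply, h3, mul_one]
  rw [← Equiv.prod_comp i]
  refine Finset.prod_congr rfl fun p _ => ?_
  change _ = B (i.symm (i p)) (v (e (Sum.inl (i.symm (i p), 0)))) (v (e (Sum.inl (i.symm (i p), 1))))
  rw [Equiv.symm_apply_apply]


end reps

section classes

variable {k : Type} [Field k] [CharZero k] {V : Type} [AddCommGroup V] [Module k V]
  [FiniteDimensional k V] {Γ : Type} [Group Γ]

/-- From tensors to classes on the powers. -/
theorem classes_of_tensors_w (K : Type) [Field K] [CharZero K] [Algebra k K]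
    (ρ : Representation k Γ V) (χ : Γ →* k) (ω : (K ⊗[k] V) →ₗ[K] (K ⊗[k] V) →ₗ[K] K)
    (hnd : ∀ u, (∀ v, ω u v = 0) → u = 0)
    (hωR : ∀ g u v, ω (bcr ρ K g u) (bcr ρ K g v) = bcc χ K g * ω u v) {n m : ℕ}
    (hall : ∀ (φ : MultilinearMap K (fun _ : Fin m × Fin 2 => K ⊗[k] V) K),
      IsTate (bcr ρ K) (bcc χ K) m φ → φ ∈ Submodule.span K (DetProdW (bcr ρ K) (bcc χ K) m))
    (f : (Fin n → V) [⋀^Fin m × Fin 2]→ₗ[k] k) (hf : IsTateClass ρ χ m f) :
    (fun v : Fin m × Fin 2 → Fin n → V => algebraMap k K (f v)) ∈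
      Submodule.span K ((fun (g : (Fin m × Fin 2 → Fin n → K ⊗[k] V) → K)
        (v : Fin m × Fin 2 → Fin n → V) => g (fun l i => (1 : K) ⊗ₜ[k] v l i)) ''
          WeilWedgeW (bcr ρ K) (bcc χ K) ω n m) := by
  classical
  obtain ⟨Δ, hΔ, hf⟩ := hf
  let b := Module.finBasis k V
  let fc : (Fin m × Fin 2 → Fin n) → MultilinearMap k (fun _ : Fin m × Fin 2 => V) k := fun c =>
    f.toMultilinearMap.compLinearMap (fun l => LinearMap.single k (fun _ : Fin n => V) (c l))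
  have hfc : ∀ c, IsTate ρ χ m (fc c) := by
    intro c
    refine ⟨Δ, hΔ, fun s hs v => ?_⟩
    have h1 := hf s hs (fun l => Pi.single (c l) (v l))
    change f (fun l => Pi.single (c l) (ρ s (v l))) = χ s ^ m * f (fun l => Pi.single (c l) (v l))
    rw [← h1]
    congr 1
    funext l i
    by_cases h : i = c l
    · subst h
      rw [Pi.single_eq_same, Pi.single_eq_same]
    · rw [Pi.single_eq_of_ne h, Pi.single_eq_of_ne h, map_zero]
  have hF : ∀ c, bcm (Ω := K) b (fc c) ∈ Submodule.span K (DetProdW (bcr ρ K) (bcc χ K) m) :=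
    fun c => hall _ (bcm_tate (Ω := K) b ρ χ (fc c) (hfc c))
  -- alternation
  let J : (Fin m × Fin 2 → Fin n) → MultilinearMap K (fun _ : Fin m × Fin 2 => K ⊗[k] V) K →ₗ[K]
      ((Fin m × Fin 2 → Fin n → K ⊗[k] V) → K) := fun c =>
    { toFun := fun φ v => ∑ σ : Equiv.Perm (Fin m × Fin 2),
        ((Equiv.Perm.sign σ : ℤ) : K) * φ (fun l => v (σ l) (c l))
      map_add' := fun φ φ' => by
        funext v
        simp only [_root_.add_apply, mul_add, Finset.sum_add_distrib, Pi.add_apply]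
      map_smul' := fun a φ => by
        funext v
        simp only [_root_.smul_apply, smul_eq_mul, RingHom.id_apply, Pi.smul_apply, Finset.mul_sum]
        refine Finset.sum_congr rfl fun σ _ => ?_
        ring }
  have hJ : ∀ c, J c (bcm (Ω := K) b (fc c)) ∈
      Submodule.span K (WeilWedgeW (bcr ρ K) (bcc χ K) ω n m) := by
    intro c
    have h1 : (Submodule.span K (DetProdW (bcr ρ K) (bcc χ K) m)).map (J c) ≤
        Submodule.span K (WeilWedgeW (bcr ρ K) (bcc χ K) ω n m) := by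
      rw [Submodule.map_span, Submodule.span_le]
      rintro _ ⟨φ, hφ, rfl⟩
      exact alt_mem_w ω hnd hωR c φ hφ
    exact h1 (Submodule.mem_map_of_mem (hF c))
  let ev : ((Fin m × Fin 2 → Fin n → K ⊗[k] V) → K) →ₗ[K] ((Fin m × Fin 2 → Fin n → V) → K) :=
    { toFun := fun g v => g (fun l i => (1 : K) ⊗ₜ[k] v l i)
      map_add' := fun _ _ => rfl
      map_smul' := fun _ _ => rfl }
  have hev : ∀ c, ev (J c (bcm (Ω := K) b (fc c))) ∈
      Submodule.span K ((fun (g : (Fin m × Fin 2 → Fin n → K ⊗[k] V) → K)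
        (v : Fin m × Fin 2 → Fin n → V) => g (fun l i => (1 : K) ⊗ₜ[k] v l i)) ''
          WeilWedgeW (bcr ρ K) (bcc χ K) ω n m) := by
    intro c
    have h1 : (Submodule.span K (WeilWedgeW (bcr ρ K) (bcc χ K) ω n m)).map ev ≤
        Submodule.span K ((fun (g : (Fin m × Fin 2 → Fin n → K ⊗[k] V) → K)
        (v : Fin m × Fin 2 → Fin n → V) => g (fun l i => (1 : K) ⊗ₜ[k] v l i)) ''
          WeilWedgeW (bcr ρ K) (bcc χ K) ω n m) := by
      rw [Submodule.map_span]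
      exact le_refl _
    exact h1 (Submodule.mem_map_of_mem (hJ c))
  -- the sum
  have hsum : ((Fintype.card (Equiv.Perm (Fin m × Fin 2)) : K)) •
      (fun v : Fin m × Fin 2 → Fin n → V => algebraMap k K (f v)) =
      ∑ c, ev (J c (bcm (Ω := K) b (fc c))) := by
    funext v
    rw [Finset.sum_apply, Pi.smul_apply, smul_eq_mul]
    change _ = ∑ c, ∑ σ : Equiv.Perm (Fin m × Fin 2), ((Equiv.Perm.sign σ : ℤ) : K) *
      bcm (Ω := K) b (fc c) (fun l => (1 : K) ⊗ₜ[k] v (σ l) (c l))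
    rw [Finset.sum_comm, ← Finset.card_univ, ← nsmul_eq_mul, ← Finset.sum_const]
    refine Finset.sum_congr rfl fun σ _ => ?_
    have h1 : ∀ c, bcm (Ω := K) b (fc c) (fun l => (1 : K) ⊗ₜ[k] v (σ l) (c l)) =
        algebraMap k K (f (fun l => Pi.single (c l) (v (σ l) (c l)))) := fun c =>
      bcm_one b (fc c) _
    simp only [h1]
    rw [← Finset.mul_sum, ← map_sum]
    have h2 : ∑ c : Fin m × Fin 2 → Fin n, f (fun l => Pi.single (c l) (v (σ l) (c l))) =
        f (fun l => v (σ l)) := by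
      have h3 : (fun l => v (σ l)) = fun l => ∑ i, Pi.single i (v (σ l) i) := by
        funext l
        exact (Finset.univ_sum_single (v (σ l))).symm
      rw [h3]
      exact (f.toMultilinearMap.map_sum (fun l i => (Pi.single i (v (σ l) i) : Fin n → V))).symm
    rw [h2]
    have h4 := f.map_perm v σ
    change f (fun l => v (σ l)) = _ at h4
    rw [h4, Units.smul_def, zsmul_eq_mul, map_mul, map_intCast, ← mul_assoc, ← Int.cast_mul,
      ← Units.val_mul, ← _root_.sq, Int.units_sq]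
    simp
  have hc : (Fintype.card (Equiv.Perm (Fin m × Fin 2)) : K) ≠ 0 :=
    Nat.cast_ne_zero.2 Fintype.card_ne_zero
  have h1 : (fun v : Fin m × Fin 2 → Fin n → V => algebraMap k K (f v)) =
      ((Fintype.card (Equiv.Perm (Fin m × Fin 2)) : K))⁻¹ •
        ∑ c, ev (J c (bcm (Ω := K) b (fc c))) := by
    rw [← hsum, smul_smul, inv_mul_cancel₀ hc, one_smul]
  rw [h1]
  exact Submodule.smul_mem _ _ (Submodule.sum_mem _ fun c _ => hev c)


end classes

section kill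

variable {K : Type} [Field K] [CharZero K] [IsAlgClosed K] {X : Type} [AddCommGroup X] [Module K X]
  [FiniteDimensional K X] {Γ : Type} [Group Γ] {R : Representation K Γ X} {χ : Γ →* K}

variable {s : ℕ} {W : Fin s → Submodule K X} (hW : ∀ i, SI R (W i))
  (hall : ∀ U, SI R U → ∃ i, Tw R (fun _ => 1) U (W i))
  {Δ : Subgroup Γ} (hΔ : Δ.FiniteIndex) (hWΔ : ∀ i, ∀ g ∈ Δ, ∀ u ∈ W i, R g u ∈ W i)
  (sec : (∀ i, W i) →ₗ[K] X)
  (hsec : ∀ (g : Δ) (y : ∀ i, W i), sec (piRep (fun i => resR R Δ (W i) (hWΔ i)) g y) =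
    R g.1 (sec y))
  (ω : X →ₗ[K] X →ₗ[K] K) (hωR : ∀ g u v, ω (R g u) (R g v) = χ g * ω u v)
  {x : End K (∀ i, W i)}
  (hx2 : ∀ B, IsTate2 (piRep (fun i => resR R Δ (W i) (hWΔ i))) (χ.comp Δ.subtype) B →
    ∀ u v, B (x u) v + B u (x v) = 0)
  (hxc : ∀ c : Fin s → K, x * bs c = bs c * x)
  (htr : ∀ i, LinearMap.trace K (W i) (bl x i) = 0)

include hW hall hΔ hsec hωR hx2 hxc htr in
/-- **Products of Tate forms and Weil classes are killed.** -/
theorem kill_weil_w {n m : ℕ} {g : (Fin m × Fin 2 → Fin n → X) → K}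
    (hg : g ∈ Notions.weilProducts R χ ω n m)
    (v : Fin m × Fin 2 → Fin n → ∀ i, W i) :
    ∑ k, g (fun l i => sec (Function.update v k (fun i => x (v k i)) l i)) = 0 := by
  classical
  obtain ⟨P, Q, hP, hQ, d, L, b, e, B, hB, hL, rfl⟩ := hg
  let J : (Fin n → ∀ i, W i) →ₗ[K] (Fin n → X) := LinearMap.pi fun i => sec.comp (LinearMap.proj i)
  have hJ : ∀ u, J u = fun i => sec (u i) := fun _ => rfl
  let D : End K (Fin n → ∀ i, W i) := LinearMap.pi fun i => x.comp (LinearMap.proj i)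
  have hD : ∀ u, D u = fun i => x (u i) := fun _ => rfl
  choose M hM0 hM using fun q => WT.kill_line hW hall hΔ hWΔ sec hsec ω hωR hx2 hxc htr (hL.1 q) (b q)
  let B' : P → (Fin n → ∀ i, W i) →ₗ[K] (Fin n → ∀ i, W i) →ₗ[K] K := fun p =>
    (B p).compl₁₂ J J
  let a' : (Σ q, Fin (d q)) → Dual K (Fin n → ∀ i, W i) := fun s =>
    (Pool.Agent.Y126.Notions.sumForm ω n (b s.1 s.2 : Fin n → X)).comp J
  let N : (Σ q, Fin (d q)) → (Σ q, Fin (d q)) → K := fun s t =>
    if h : t.1 = s.1 then M s.1 s.2 (h ▸ t.2) else 0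
  have h1 : ∀ w : Fin m × Fin 2 → Fin n → ∀ i, W i,
      Pool.Agent.Y126.Notions.wedge e B (fun s =>
        Pool.Agent.Y126.Notions.sumForm ω n (b s.1 s.2 : Fin n → X)) (fun l i => sec (w l i)) =
      Pool.Agent.TH118.WC.wedge e B' a' w := fun w => rfl
  have h2 := Pool.Agent.H62CT.KW.der_wedge e B' a' D (fun p u v => ?_) N (fun s u => ?_) v
  · have h3 : ∑ s, N s s = 0 := by
      rw [Fintype.sum_sigma]
      refine Finset.sum_eq_zero fun q _ => ?_
      rw [← hM0 q]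
      refine Finset.sum_congr rfl fun s _ => ?_
      change (if h : q = q then M q s (h ▸ s) else 0) = _
      rw [dif_pos rfl]
    rw [h3, zero_mul] at h2
    exact h2
  · exact WT.kill_form hWΔ sec hsec hx2 (hB p).1 u v
  · change Pool.Agent.Y126.Notions.sumForm ω n (b s.1 s.2 : Fin n → X)
      (fun l => sec (x (u l))) = _
    rw [hM s.1 s.2 u, Fintype.sum_sigma, Finset.sum_eq_single s.1]
    · refine Finset.sum_congr rfl fun t _ => ?_
      change _ = (if h : s.1 = s.1 then M s.1 s.2 (h ▸ t) else 0) * _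
      rw [dif_pos rfl]
      rfl
    · intro q _ hq
      refine Finset.sum_eq_zero fun t _ => ?_
      change (if h : q = s.1 then M s.1 s.2 (h ▸ t) else 0) * _ = 0
      rw [dif_neg hq, zero_mul]
    · intro h
      exact absurd (Finset.mem_univ _) h


end kill

end

end Pool.Agent.H62O
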