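import Mathlib
import Pool.Agent.H62O.Wide
import Pool.Agent.H62O.Mu4
import Pool.Agent.H62CT.Fin2

/-!
# Tate forms of all degrees if those of degree four are products of Tate forms and Weil classes
-/

set_option autoImplicit false
set_option linter.unusedSectionVars false

namespace Pool.Agent.H62O.Reps

open Module Pool.Agent.H204R3.SP Pool.Agent.H204R3.GP Pool.Agent.W522.U Pool.Agent.W529.Ta
open Pool.Agent.W528.Odd Pool.Agent.TH118.WC Pool.Agent.TH118.CR
open Pool.Agent.W528.Tor (AltDual)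
open Pool.Agent.H62CT
open Pool.Agent.H62O.Elim (PW)

noncomputable section

variable {K : Type} [Field K] [CharZero K] {X : Type} [AddCommGroup X] [Module K X]
  [FiniteDimensional K X] {Γ : Type} [Group Γ] {R : Representation K Γ X} {χ : Γ →* K}

/-- The products of Tate forms and Weil classes on the fourth power, restricted to the factors. -/
def WTs (R : Representation K Γ X) (χ : Γ →* K) (ω : X →ₗ[K] X →ₗ[K] K)
    (e₀ : Fin 2 × Fin 2 → Fin 4) : Set (MultilinearMap K (fun _ : Fin 2 × Fin 2 => X) K) :=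
  {ψ | ∃ g ∈ Notions.weilProducts R χ ω 4 2,
    ∀ v, ψ v = g (fun l => Pi.single (e₀ l) (v l))}

variable (ω : X →ₗ[K] X →ₗ[K] K) (hnd : ∀ u, (∀ v, ω u v = 0) → u = 0)
  (hωR : ∀ g u v, ω (R g u) (R g v) = χ g * ω u v)
  (hss : HasProj R)
  (hlog : ∀ (m : ℕ) (φ : MultilinearMap K (fun _ : Fin m × Fin 2 => X) K),
    (∀ x ∈ lieT R χ, Kills x φ) → IsTate R χ m φ)
  (e₀ : Fin 2 × Fin 2 → Fin 4)
  (h4 : ∀ φ : MultilinearMap K (fun _ : Fin 2 × Fin 2 => X) K,
    IsTate R χ 2 φ → φ ∈ Submodule.span K (WTs R χ ω e₀ ∪ PT R χ 2))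

include hnd hωR hss hlog h4 in
theorem four_reps [IsAlgClosed K] {s : ℕ} (W : Fin s → Submodule K X) (hW : ∀ i, SI R (W i))
    (hall : ∀ U, SI R U → ∃ i, Tw R (fun _ => 1) U (W i))
    (hWW : ∀ i j, Tw R (fun _ => 1) (W i) (W j) → i = j)
    (st : Fin s → Fin s) (hst : ∀ i, st (st i) = i) (hDu : ∀ i, Du R χ (W i) (W (st i)))
    (hDu' : ∀ i j, Du R χ (W i) (W j) → j = st i) :
    ∃ (Δ : Subgroup Γ) (_ : Δ.FiniteIndex) (hWΔ : ∀ i, ∀ g ∈ Δ, ∀ u ∈ W i, R g u ∈ W i),
      ∀ (m : ℕ) (φ : MultilinearMap K (fun _ : Fin m × Fin 2 => ∀ i, W i) K),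
        IsTate (piRep (fun i => resR R Δ (W i) (hWΔ i))) (χ.comp Δ.subtype) m φ →
        φ ∈ Submodule.span K (PW (fun i => resR R Δ (W i) (hWΔ i))
          (χ.comp Δ.subtype) st (fun i => st i ≠ i ∨ (st i = i ∧ ¬AltDual R χ (W i)))
          (Fin m × Fin 2)) := by
  classical
  choose D hDfi hDs using fun i => (hW i).2.1
  have hpos : ∀ i, 0 < finrank K (W i) := by
    intro i
    rw [Nat.pos_iff_ne_zero, ne_eq, Submodule.finrank_eq_zero]
    exact (hW i).1
  have hDuA : ∀ i, ∃ D' : Subgroup Γ, D'.FiniteIndex ∧ ∃ B : X →ₗ[K] X →ₗ[K] K,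
      (∃ u ∈ W i, ∃ v ∈ W (st i), B u v ≠ 0) ∧
      (∀ g ∈ D', ∀ u ∈ W i, ∀ v ∈ W (st i), B (R g u) (R g v) = χ g * B u v) ∧
      (st i = i → (AltDual R χ (W i) → ∀ u ∈ W i, B u u = 0) ∧
        (¬AltDual R χ (W i) → ∀ u ∈ W i, ∀ v ∈ W i, B u v = B v u)) := by
    intro i
    obtain ⟨D', hD', B, hB0, hB⟩ := hDu i
    by_cases hi : st i = i
    · rw [hi] at hB hB0 ⊢
      by_cases hal : AltDual R χ (W i)
      · obtain ⟨D2, hD2, B2, hB20, hB2a, hB2⟩ := hal
        refine ⟨D2, hD2, B2, hB20, hB2, fun _ => ⟨fun _ => hB2a, fun h => ?_⟩⟩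
        exact absurd ⟨D2, hD2, B2, hB20, hB2a, hB2⟩ h
      · refine ⟨D', hD', B + B.flip, ?_, fun g hg u hu v hv => ?_, fun _ =>
          ⟨fun h => absurd h hal, fun _ u _ v _ => ?_⟩⟩
        · by_contra hcon
          push Not at hcon
          refine hal ⟨D', hD', B, hB0, fun u hu => ?_, hB⟩
          have h1 := hcon u hu u hu
          rw [LinearMap.add_apply, LinearMap.add_apply, LinearMap.flip_apply] at h1
          have h2 : (2 : K) * B u u = 0 := by linear_combination h1
          exact (mul_eq_zero.1 h2).resolve_left two_ne_zero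
        · rw [LinearMap.add_apply, LinearMap.add_apply, LinearMap.flip_apply,
            LinearMap.add_apply, LinearMap.add_apply, LinearMap.flip_apply, hB g hg u hu v hv,
            hB g hg v hv u hu]
          ring
        · rw [LinearMap.add_apply, LinearMap.add_apply, LinearMap.flip_apply,
            LinearMap.add_apply, LinearMap.add_apply, LinearMap.flip_apply]
          ring
    · exact ⟨D', hD', B, hB0, hB, fun h => absurd h hi⟩
  choose D' hD' B hB0 hB hBA using hDuA
  let Δ : Subgroup Γ := ⨅ i, D i ⊓ D' i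
  have hΔ : Δ.FiniteIndex := Subgroup.finiteIndex_iInf (fun i => inferInstance)
  have hm : ∀ g ∈ Δ, ∀ i, g ∈ D i ∧ g ∈ D' i := fun g hg i => Subgroup.mem_iInf.1 hg i
  have hWΔ : ∀ i, ∀ g ∈ Δ, ∀ u ∈ W i, R g u ∈ W i := fun i g hg u hu => hDs i g (hm g hg i).1 u hu
  have hBl : ∀ i j, j = st i → ∀ u ∈ W i, (∀ v ∈ W j, B i u v = 0) → u = 0 := by
    rintro i _ rfl
    exact du_left (hW i) (hW _).2.1 (hD' i) (hB0 i) (hB i)
  have hBr : ∀ i j, j = st i → ∀ v ∈ W j, (∀ u ∈ W i, B i u v = 0) → v = 0 := by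
    rintro i _ rfl
    exact du_right (hW i).2.1 (hW _) (hD' i) (hB0 i) (hB i)
  have hBs : ∀ i j, j = st i → ∀ g ∈ Δ, ∀ u ∈ W i, ∀ v ∈ W j,
      B i (R g u) (R g v) = χ g * B i u v := by
    rintro i _ rfl g hg
    exact hB i g (hm g hg i).2
  let r : ∀ i, Representation K Δ (W i) := fun i => resR R Δ (W i) (hWΔ i)
  have hr : ∀ (i : Fin s) (g : Δ) (u : W i), ((r i g u : W i) : X) = R g.1 u := fun _ _ _ => rfl
  -- the conditions
  have hsim : ∀ (g : Δ) u v, pf W st B (piRep r g u) (piRep r g v) =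
      (χ.comp Δ.subtype) g * pf W st B u v := by
    intro g u v
    rw [pf_apply, pf_apply, Finset.mul_sum]
    refine Finset.sum_congr rfl fun i _ => ?_
    rw [Finset.mul_sum]
    refine Finset.sum_congr rfl fun j _ => ?_
    rw [piRep_apply, piRep_apply, hr, hr]
    change _ = χ g.1 * _
    unfold Pool.Agent.W522.U.cf
    by_cases h : j = st i
    · rw [if_pos h]
      rcases lt_trichotomy i j with h1 | h1 | h1
      · rw [if_pos h1]
        exact hBs i j h g.1 g.2 _ (u i).2 _ (v j).2
      · rw [if_neg (not_lt.2 h1.ge), if_neg (not_lt.2 h1.le)]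
        exact hBs i j h g.1 g.2 _ (u i).2 _ (v j).2
      · rw [if_neg (not_lt.2 h1.le), if_pos h1, LinearMap.neg_apply, LinearMap.neg_apply,
          LinearMap.neg_apply, LinearMap.neg_apply, LinearMap.flip_apply, LinearMap.flip_apply,
          hBs j i (by rw [h, hst]) g.1 g.2 _ (v j).2 _ (u i).2, mul_neg]
    · rw [if_neg h, LinearMap.zero_apply, LinearMap.zero_apply, LinearMap.zero_apply,
        LinearMap.zero_apply, mul_zero]
  have hor : ∀ i j, j ≠ st i → ∀ (u : W i) (v : W j),
      pf W st B (Pi.single i u) (Pi.single j v) = 0 := by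
    intro i j hij u v
    rw [pf_single]
    unfold Pool.Agent.W522.U.cf
    rw [if_neg hij, LinearMap.zero_apply, LinearMap.zero_apply]
  have hdist : ∀ i j, i ≠ j → ∀ (Δ' : Subgroup Δ), Δ'.FiniteIndex → ∀ T : W i →ₗ[K] W j,
      (∀ g ∈ Δ', ∀ u, T (r i g u) = r j g (T u)) → T = 0 := by
    intro i j hij Δ' hΔ' T hT
    by_contra hT0
    obtain ⟨p, hp⟩ := exists_pr (W i)
    refine hij (hWW _ _ ⟨Δ'.map Δ.subtype, fi_map hΔ Δ' hΔ', (W j).subtype.comp (T.comp p),
      fun u _ => SetLike.coe_mem _, ?_, ?_⟩)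
    · by_contra hcon
      push Not at hcon
      apply hT0
      ext u
      have h1 := hcon u u.2
      rw [LinearMap.comp_apply, LinearMap.comp_apply, hp] at h1
      exact h1
    · rintro _ ⟨g, hg, rfl⟩ u hu
      have h1 := hT g hg ⟨u, hu⟩
      have h2 : p (R g.1 u) = r i g ⟨u, hu⟩ := hp (r i g ⟨u, hu⟩)
      have h3 : p u = ⟨u, hu⟩ := hp ⟨u, hu⟩
      change ((T (p (R g.1 u)) : W j) : X) = (1 : K) • R g.1 ((T (p u) : W j) : X)
      rw [h2, h3, h1, one_smul]
      rfl
  have hirr : ∀ i, Irr (r i) := by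
    intro i Δ' hΔ' U hU
    have h1 : Pot R (U.map (W i).subtype) := by
      refine ⟨Δ'.map Δ.subtype, fi_map hΔ Δ' hΔ', ?_⟩
      rintro _ ⟨g, hg, rfl⟩ _ ⟨u, hu, rfl⟩
      exact ⟨r i g u, hU g hg u hu, rfl⟩
    rcases (hW i).2.2 _ (Submodule.map_subtype_le _ _) h1 with h2 | h2
    · left
      rw [eq_bot_iff]
      intro u hu
      have h3 : (u : X) ∈ U.map (W i).subtype := ⟨u, hu, rfl⟩
      rw [h2, Submodule.mem_bot] at h3
      rw [Submodule.mem_bot]
      exact Subtype.ext h3
    · right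
      rw [eq_top_iff]
      intro u _
      have h3 : (u : X) ∈ U.map (W i).subtype := by
        rw [h2]
        exact u.2
      obtain ⟨u', hu', huu⟩ := h3
      have h4 : u' = u := Subtype.ext huu
      rw [← h4]
      exact hu'
  -- the projection and the section
  choose p hp1 hp2 hp3 using fun i => hss Δ hΔ (W i) (hWΔ i)
  have hzero : ∀ i j, j ≠ i → ∀ u ∈ W j, p i u = 0 := by
    intro i j hij u hu
    by_contra hc
    apply hij
    apply hWW j i
    refine ⟨Δ, hΔ, p i, fun u _ => hp1 i u, ⟨u, hu, hc⟩, fun g hg u _ => ?_⟩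
    rw [one_smul]
    exact hp3 i g hg u
  let Q : X →ₗ[K] (∀ i, W i) := LinearMap.pi fun i => (p i).codRestrict (W i) (hp1 i)
  have hQ : ∀ x i, ((Q x i : W i) : X) = p i x := fun x i => rfl
  have hQR : ∀ (g : Δ) (x : X), Q (R g.1 x) = piRep r g (Q x) := by
    intro g x
    funext i
    apply Subtype.ext
    rw [hQ, hp3 i g.1 g.2]
    rfl
  let sec : (∀ i, W i) →ₗ[K] X := ∑ i, (W i).subtype.comp (LinearMap.proj i)
  have hsec : ∀ y, sec y = ∑ i, (y i : X) := by
    intro y
    change (∑ i, (W i).subtype.comp (LinearMap.proj i)) y = _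
    rw [LinearMap.sum_apply]
    rfl
  have hQsec : ∀ y, Q (sec y) = y := by
    intro y
    funext i
    apply Subtype.ext
    rw [hQ, hsec, map_sum, Finset.sum_eq_single i]
    · exact hp2 i _ (y i).2
    · intro j _ hj
      exact hzero i j hj _ (y j).2
    · intro h; exact absurd (Finset.mem_univ i) h
  have hsecR : ∀ (g : Δ) (y : ∀ i, W i), sec (piRep r g y) = R g.1 (sec y) := by
    intro g y
    rw [hsec, hsec, map_sum]
    rfl
  have hpull : ∀ {m : ℕ} (φ : MultilinearMap K (fun _ : Fin m × Fin 2 => ∀ i, W i) K),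
      IsTate R χ m (φ.compLinearMap (fun _ => Q)) → IsTate (piRep r) (χ.comp Δ.subtype) m φ := by
    rintro m φ ⟨Δ', hΔ', h⟩
    refine ⟨Δ'.comap Δ.subtype, Pool.Agent.TH118.WC.fi_comap _ _ hΔ', fun g hg v => ?_⟩
    have h1 := h g.1 hg (fun k => sec (v k))
    rw [MultilinearMap.compLinearMap_apply, MultilinearMap.compLinearMap_apply] at h1
    simp only [← hsecR, hQsec] at h1
    exact h1
  have hlog' : ∀ (m : ℕ) (φ : MultilinearMap K (fun _ : Fin m × Fin 2 => ∀ i, W i) K),
      (∀ x ∈ lieT (piRep r) (χ.comp Δ.subtype), Kills x φ) →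
      IsTate (piRep r) (χ.comp Δ.subtype) m φ := by
    intro m φ hφ
    refine hpull φ (hlog m _ fun x₀ hx₀ v => ?_)
    obtain ⟨Y, hY, hYx⟩ := Pool.Agent.W839.OT.HTFam.main K X Γ R χ ω hnd hωR hss s W hW hWW Δ hΔ
      hWΔ x₀ hx₀
    have hQx : ∀ x, Q (x₀ x) = blk Y (Q x) := by
      intro x
      funext i
      apply Subtype.ext
      have h1 := Pool.Agent.W839.OT.HTFam.comm R χ ω hnd hωR Δ hΔ (p i) (hp3 i) x₀ hx₀ x
      rw [hQ, ← h1, blk_apply, hYx]
      rfl
    rw [← hφ (blk Y) hY (fun k => Q (v k))]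
    refine Finset.sum_congr rfl fun k _ => ?_
    rw [MultilinearMap.compLinearMap_apply]
    congr 1
    funext k'
    by_cases h : k' = k
    · subst h
      rw [Function.update_self, Function.update_self, hQx]
    · rw [Function.update_of_ne h, Function.update_of_ne h]
  have hk' : ∀ x, BD (pf W st B) x → (∀ i, LinearMap.trace K (W i) (El2.bl x i) = 0) →
      ∀ φ : MultilinearMap K (fun _ : Fin 2 × Fin 2 => ∀ i, W i) K,
      IsTate (piRep r) (χ.comp Δ.subtype) 2 φ → Kills x φ := by
    rintro x hx htr φ ⟨Δ', hΔ', h⟩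
    have hT : IsTate R χ 2 (φ.compLinearMap (fun _ => Q)) := by
      refine ⟨Δ'.map Δ.subtype, fi_map hΔ Δ' hΔ', ?_⟩
      rintro _ ⟨g, hg, rfl⟩ v
      rw [MultilinearMap.compLinearMap_apply, MultilinearMap.compLinearMap_apply]
      have h1 := h g hg (fun k => Q (v k))
      rw [MonoidHom.comp_apply] at h1
      rw [← h1]
      congr 1
      funext k
      exact hQR g (v k)
    have hx2 : ∀ C, IsTate2 (piRep r) (χ.comp Δ.subtype) C → ∀ u v, C (x u) v + C u (x v) = 0 :=
      fun C hC => bd_tate2 (pf W st B) (pf_nondeg W st B hst hBl hBr) hsim hirr hdist hx hC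
    have key : ∀ ψ ∈ Submodule.span K (WTs R χ ω e₀ ∪ PT R χ 2),
        Kills x (ψ.compLinearMap (fun _ => sec)) := by
      intro ψ hψ
      induction hψ using Submodule.span_induction with
      | mem ψ hψ =>
        rcases hψ with ⟨g, hg, hψ⟩ | ⟨σ, C, hC, rfl⟩
        swap
        · have h1 : Kills x (mmG σ fun l => (C l).compl₁₂ sec sec) := by
            refine kills_mmG σ _ fun l => hx2 _ ?_
            obtain ⟨D₁, hD₁, h1⟩ := hC l
            refine ⟨D₁.comap Δ.subtype, Pool.Agent.TH118.WC.fi_comap _ _ hD₁, fun g hg u v => ?_⟩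
            rw [LinearMap.compl₁₂_apply, LinearMap.compl₁₂_apply, hsecR, hsecR]
            exact h1 g.1 hg _ _
          exact h1
        intro v
        have h1 := kill_weil_w hW hall hΔ hWΔ sec hsecR ω hωR hx2 hx.2 htr hg
          (fun l => Pi.single (e₀ l) (v l))
        rw [← h1]
        refine Finset.sum_congr rfl fun k _ => ?_
        rw [MultilinearMap.compLinearMap_apply, hψ]
        congr 1
        funext l i
        by_cases hl : l = k
        · subst hl
          rw [Function.update_self, Function.update_self]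
          by_cases hi : i = e₀ l
          · subst hi
            rw [Pi.single_eq_same, Pi.single_eq_same]
          · rw [Pi.single_eq_of_ne hi, Pi.single_eq_of_ne hi, map_zero, map_zero]
        · rw [Function.update_of_ne hl, Function.update_of_ne hl]
          by_cases hi : i = e₀ l
          · subst hi
            rw [Pi.single_eq_same, Pi.single_eq_same]
          · rw [Pi.single_eq_of_ne hi, Pi.single_eq_of_ne hi, map_zero]
      | zero =>
        intro v
        exact Finset.sum_eq_zero fun k _ => rfl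
      | add a b _ _ ha hb =>
        intro v
        have h3 : ∑ k, ((a + b).compLinearMap (fun _ => sec)) (Function.update v k (x (v k))) =
            ∑ k, (a.compLinearMap (fun _ => sec)) (Function.update v k (x (v k))) +
            ∑ k, (b.compLinearMap (fun _ => sec)) (Function.update v k (x (v k))) :=
          Finset.sum_add_distrib
        rw [h3, ha, hb, add_zero]
      | smul c a _ ha =>
        intro v
        have h3 : ∑ k, ((c • a).compLinearMap (fun _ => sec)) (Function.update v k (x (v k))) =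
            c * ∑ k, (a.compLinearMap (fun _ => sec)) (Function.update v k (x (v k))) :=
          (Finset.mul_sum _ _ _).symm
        rw [h3, ha, mul_zero]
    have h1 := key _ (h4 _ hT)
    have h2 : (φ.compLinearMap (fun _ => Q)).compLinearMap (fun _ => sec) = φ := by
      refine MultilinearMap.ext fun v => ?_
      rw [MultilinearMap.compLinearMap_apply, MultilinearMap.compLinearMap_apply]
      simp only [hQsec]
    rwa [h2] at h1
  have hnd' := pf_nondeg W st B hst hBl hBr
  have hcii : ∀ i, st i = i → Pool.Agent.W522.U.cf st B i i = B i := by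
    intro i hi
    unfold Pool.Agent.W522.U.cf
    rw [if_pos hi.symm, if_neg (lt_irrefl _), if_neg (lt_irrefl _)]
  have hsy : ∀ i, (st i = i ∧ ¬AltDual R χ (W i)) → ∀ u v : W i,
      pf W st B (Pi.single i u) (Pi.single i v) = pf W st B (Pi.single i v) (Pi.single i u) := by
    intro i hi u v
    rw [pf_single, pf_single, hcii i hi.1]
    exact (hBA i hi.1).2 hi.2 _ u.2 _ v.2
  have hsk : ∀ i, ¬(st i = i ∧ ¬AltDual R χ (W i)) → ∀ (u : W i) (v : W (st i)),
      pf W st B (Pi.single i u) (Pi.single (st i) v) =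
        -pf W st B (Pi.single (st i) v) (Pi.single i u) := by
    intro i hi u v
    rw [pf_single, pf_single]
    by_cases h : st i = i
    · have hal : AltDual R χ (W i) := by
        by_contra hc
        exact hi ⟨h, hc⟩
      have hB2 := (hBA i h).1 hal
      obtain ⟨v, hv⟩ := v
      have hv' : v ∈ W i := by
        rw [h] at hv
        exact hv
      change Pool.Agent.W522.U.cf st B i (st i) (u : X) v = -Pool.Agent.W522.U.cf st B (st i) i v (u : X)
      rw [h, hcii i h]
      have h2 := hB2 (u + v) ((W i).add_mem u.2 hv')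
      have h3 := hB2 u u.2
      have h4 := hB2 v hv'
      simp only [map_add, LinearMap.add_apply, h3, h4] at h2
      linear_combination h2
    · unfold Pool.Agent.W522.U.cf
      rw [if_pos rfl, if_pos (hst i).symm]
      rcases lt_trichotomy i (st i) with h1 | h1 | h1
      · rw [if_pos h1, if_neg (not_lt.2 h1.le), if_pos h1, LinearMap.neg_apply,
          LinearMap.neg_apply, LinearMap.flip_apply, neg_neg]
      · exact absurd h1.symm h
      · rw [if_neg (not_lt.2 h1.le), if_pos h1, if_pos h1, LinearMap.neg_apply,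
          LinearMap.neg_apply, LinearMap.flip_apply]
  refine ⟨Δ, hΔ, hWΔ, fun m φ hφ => ?_⟩
  by_cases hodd : ∀ i, (st i = i ∧ ¬AltDual R χ (W i)) → ∃ h, finrank K (W i) = 2 * h
  · exact Elim.main (pf W st B) hnd' hsim hst hor (fun i => st i = i ∧ ¬AltDual R χ (W i))
      (fun i h => h.1) hsy hsk hodd hirr hdist hlog' hpos hk' φ hφ
  · push Not at hodd
    obtain ⟨o, ho, hno⟩ := hodd
    obtain ⟨h, hh⟩ : ∃ h, finrank K (W o) = 2 * h + 1 := by
      rcases Nat.even_or_odd' (finrank K (W o)) with ⟨h, h1 | h1⟩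
      · exact absurd h1 (hno h)
      · exact ⟨h, h1⟩
    let μ : Δ →* K :=
      { toFun := fun g => LinearMap.det (r o g) * ((χ.comp Δ.subtype) g)⁻¹ ^ h
        map_one' := by simp
        map_mul' := fun a b => by
          rw [map_mul, map_mul, map_mul, mul_inv, mul_pow]
          ring }
    have hμ : ∀ g, μ g ^ 2 = (χ.comp Δ.subtype) g := by
      intro g
      have h2 := det_st (pf W st B) hnd' hsim hst hor g o
      have h3 := chi_ne (χ := χ.comp Δ.subtype) g
      rw [ho.1, hh] at h2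
      change (LinearMap.det (r o g) * ((χ.comp Δ.subtype) g)⁻¹ ^ h) ^ 2 = _
      rw [mul_pow, pow_two (LinearMap.det (r o g))]
      have h4 : LinearMap.det (r o g) * LinearMap.det (r o g) =
          (χ.comp Δ.subtype) g ^ (2 * h + 1) := h2
      rw [h4, ← pow_mul, mul_comm h 2, inv_pow, pow_succ, mul_assoc, mul_comm _ (_ ^ (2 * h))⁻¹,
        ← mul_assoc, mul_inv_cancel₀ (pow_ne_zero _ h3), one_mul]
    exact Mu.main hμ (pf W st B) hnd' hsim hst hor (fun i => st i = i ∧ ¬AltDual R χ (W i))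
      (fun i h => h.1) hsy hsk hirr hdist hlog' hpos hk' φ hφ

include hnd hωR hss hlog h4 in
/-- **The theorem over an algebraically closed field.** -/
theorem four_det [IsAlgClosed K] {m : ℕ}
    (φ : MultilinearMap K (fun _ : Fin m × Fin 2 => X) K) (hφ : IsTate R χ m φ) :
    φ ∈ Submodule.span K (DetProdW R χ m) := by
  obtain ⟨s, W, hW, hWW, hall⟩ := exists_reps hss
  obtain ⟨st, hst, hDu, hDu'⟩ := exists_st hss ω hnd hωR W hW hWW hall
  obtain ⟨Δ, hΔ, hWΔ, hE⟩ := four_reps ω hnd hωR hss hlog e₀ h4 W hW hall hWW st hst hDu hDu'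
  exact det_of_reps_w hss W hW hall st hDu' (fun i => st i = i ∧ ¬AltDual R χ (W i))
    (fun i h => h.2) Δ hΔ hWΔ m (hE m) φ hφ

end

end Pool.Agent.H62O.Reps
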