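import Mathlib
import Pool.Agent.H62O.Conv1
import Pool.Agent.H62O.Reps

/-!
# If the Tate forms are products of bilinear Tate forms then there are no Weil families
-/

set_option autoImplicit false
set_option linter.unusedSectionVars false
set_option linter.unusedVariables false

namespace Pool.Agent.H62O.Conv2

open Module Pool.Agent.H204R3.SP Pool.Agent.H204R3.GP Pool.Agent.W522.U Pool.Agent.W529.Ta
open Pool.Agent.W528.Odd Pool.Agent.TH118.WC Pool.Agent.TH118.CR
open Pool.Agent.W528.Tor (AltDual)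
open Pool.Agent.H62CT

noncomputable section

variable {K : Type} [Field K] [CharZero K] {X : Type} [AddCommGroup X] [Module K X]
  [FiniteDimensional K X] {Γ : Type} [Group Γ] {R : Representation K Γ X} {χ : Γ →* K}

/-- Transport of alternating pairings. -/
theorem alt_of_tw {U U' : Submodule K X} (hU : SI R U) (hU' : SI R U')
    (h : Tw R (fun _ => 1) U U') (hA : AltDual R χ U') : AltDual R χ U := by
  obtain ⟨D1, hD1, T, hTU, h0, hT⟩ := h
  obtain ⟨e, he⟩ := tw_equiv hU hU' hD1 hTU h0 hT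
  obtain ⟨D2, hD2, B, ⟨u, hu, v, hv, huv⟩, hB1, hB2⟩ := hA
  have hs : ∀ w ∈ U', ∃ w' ∈ U, T w' = w := by
    intro w hw
    refine ⟨(e.symm ⟨w, hw⟩ : U), (e.symm ⟨w, hw⟩).2, ?_⟩
    rw [← he, e.apply_symm_apply]
  obtain ⟨u', hu', rfl⟩ := hs u hu
  obtain ⟨v', hv', rfl⟩ := hs v hv
  refine ⟨D1 ⊓ D2, inferInstance, B.compl₁₂ T T, ⟨u', hu', v', hv', huv⟩, fun w hw => ?_,
    fun g hg w hw w' hw' => ?_⟩
  · rw [LinearMap.compl₁₂_apply]
    exact hB1 _ (hTU w hw)
  · rw [LinearMap.compl₁₂_apply, LinearMap.compl₁₂_apply, hT g hg.1 w hw, hT g hg.1 w' hw',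
      one_smul, one_smul]
    exact hB2 g hg.2 _ (hTU w hw) _ (hTU w' hw')

variable (ω : X →ₗ[K] X →ₗ[K] K) (hnd : ∀ u, (∀ v, ω u v = 0) → u = 0)
  (hωR : ∀ g u v, ω (R g u) (R g v) = χ g * ω u v)
  (hss : HasProj R)

include hnd hωR hss in
/-- **No Weil families.** -/
theorem no_weil [IsAlgClosed K]
    (hPT : ∀ (m : ℕ) (φ : MultilinearMap K (fun _ : Fin m × Fin 2 => X) K),
      IsTate R χ m φ → φ ∈ Submodule.span K (PT R χ m))
    {Q : Type} [Fintype Q] [Nonempty Q] (L : Q → Submodule K X) :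
    ¬Notions.IsWeilFamily R χ L := by
  classical
  rintro ⟨hL, hns, hndu, c, Δ₀, hLs, hΔ₀, hc, hdet⟩
  have hL' : ∀ q, SI R (L q) := hL
  obtain ⟨s, W, hW, hWW, hall⟩ := exists_reps hss
  obtain ⟨st, hst, hDu, hDu'⟩ := exists_st hss ω hnd hωR W hW hWW hall
  choose D hDfi hDs using fun i => (hW i).2.1
  have hpos : ∀ i, 0 < finrank K (W i) := by
    intro i
    rw [Nat.pos_iff_ne_zero, ne_eq, Submodule.finrank_eq_zero]
    exact (hW i).1
  have hDuA : ∀ i, ∃ D' : Subgroup Γ, D'.FiniteIndex ∧ ∃ B : X →ₗ[K] X →ₗ[K] K,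
      (∃ u ∈ W i, ∃ v ∈ W (st i), B u v ≠ 0) ∧
      (∀ g ∈ D', ∀ u ∈ W i, ∀ v ∈ W (st i), B (R g u) (R g v) = χ g * B u v) ∧
      (st i = i → (AltDual R χ (W i) → ∀ u ∈ W i, B u u = 0) ∧
        (¬AltDual R χ (W i) → ∀ u ∈ W i, ∀ v ∈ W i, B u v = B v u)) := by
    intro i
    obtain ⟨D', hD', B, hB0, hB⟩ := hDu i
    by_cases hi : st i = i
    · rw [hi] at hB hB0 ⊢
      by_cases hal : AltDual R χ (W i)
      · obtain ⟨D2, hD2, B2, hB20, hB2a, hB2⟩ := hal
        refine ⟨D2, hD2, B2, hB20, hB2, fun _ => ⟨fun _ => hB2a, fun h => ?_⟩⟩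
        exact absurd ⟨D2, hD2, B2, hB20, hB2a, hB2⟩ h
      · refine ⟨D', hD', B + B.flip, ?_, fun g hg u hu v hv => ?_, fun _ =>
          ⟨fun h => absurd h hal, fun _ u _ v _ => ?_⟩⟩
        · by_contra hcon
          push Not at hcon
          refine hal ⟨D', hD', B, hB0, fun u hu => ?_, hB⟩
          have h1 := hcon u hu u hu
          rw [LinearMap.add_apply, LinearMap.add_apply, LinearMap.flip_apply] at h1
          have h2 : (2 : K) * B u u = 0 := by linear_combination h1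
          exact (mul_eq_zero.1 h2).resolve_left two_ne_zero
        · rw [LinearMap.add_apply, LinearMap.add_apply, LinearMap.flip_apply,
            LinearMap.add_apply, LinearMap.add_apply, LinearMap.flip_apply, hB g hg u hu v hv,
            hB g hg v hv u hu]
          ring
        · rw [LinearMap.add_apply, LinearMap.add_apply, LinearMap.flip_apply,
            LinearMap.add_apply, LinearMap.add_apply, LinearMap.flip_apply]
          ring
    · exact ⟨D', hD', B, hB0, hB, fun h => absurd h hi⟩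
  choose D' hD' B hB0 hB hBA using hDuA
  let Δ : Subgroup Γ := ⨅ i, D i ⊓ D' i
  have hΔ : Δ.FiniteIndex := Subgroup.finiteIndex_iInf (fun i => inferInstance)
  have hm : ∀ g ∈ Δ, ∀ i, g ∈ D i ∧ g ∈ D' i := fun g hg i => Subgroup.mem_iInf.1 hg i
  have hWΔ : ∀ i, ∀ g ∈ Δ, ∀ u ∈ W i, R g u ∈ W i := fun i g hg u hu => hDs i g (hm g hg i).1 u hu
  have hBl : ∀ i j, j = st i → ∀ u ∈ W i, (∀ v ∈ W j, B i u v = 0) → u = 0 := by
    rintro i _ rfl
    exact du_left (hW i) (hW _).2.1 (hD' i) (hB0 i) (hB i)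
  have hBr : ∀ i j, j = st i → ∀ v ∈ W j, (∀ u ∈ W i, B i u v = 0) → v = 0 := by
    rintro i _ rfl
    exact du_right (hW i).2.1 (hW _) (hD' i) (hB0 i) (hB i)
  have hBs : ∀ i j, j = st i → ∀ g ∈ Δ, ∀ u ∈ W i, ∀ v ∈ W j,
      B i (R g u) (R g v) = χ g * B i u v := by
    rintro i _ rfl g hg
    exact hB i g (hm g hg i).2
  let r : ∀ i, Representation K Δ (W i) := fun i => resR R Δ (W i) (hWΔ i)
  have hr : ∀ (i : Fin s) (g : Δ) (u : W i), ((r i g u : W i) : X) = R g.1 u := fun _ _ _ => rfl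
  -- the conditions
  have hsim : ∀ (g : Δ) u v, pf W st B (piRep r g u) (piRep r g v) =
      (χ.comp Δ.subtype) g * pf W st B u v := by
    intro g u v
    rw [pf_apply, pf_apply, Finset.mul_sum]
    refine Finset.sum_congr rfl fun i _ => ?_
    rw [Finset.mul_sum]
    refine Finset.sum_congr rfl fun j _ => ?_
    rw [piRep_apply, piRep_apply, hr, hr]
    change _ = χ g.1 * _
    unfold Pool.Agent.W522.U.cf
    by_cases h : j = st i
    · rw [if_pos h]
      rcases lt_trichotomy i j with h1 | h1 | h1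
      · rw [if_pos h1]
        exact hBs i j h g.1 g.2 _ (u i).2 _ (v j).2
      · rw [if_neg (not_lt.2 h1.ge), if_neg (not_lt.2 h1.le)]
        exact hBs i j h g.1 g.2 _ (u i).2 _ (v j).2
      · rw [if_neg (not_lt.2 h1.le), if_pos h1, LinearMap.neg_apply, LinearMap.neg_apply,
          LinearMap.neg_apply, LinearMap.neg_apply, LinearMap.flip_apply, LinearMap.flip_apply,
          hBs j i (by rw [h, hst]) g.1 g.2 _ (v j).2 _ (u i).2, mul_neg]
    · rw [if_neg h, LinearMap.zero_apply, LinearMap.zero_apply, LinearMap.zero_apply,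
        LinearMap.zero_apply, mul_zero]
  have hor : ∀ i j, j ≠ st i → ∀ (u : W i) (v : W j),
      pf W st B (Pi.single i u) (Pi.single j v) = 0 := by
    intro i j hij u v
    rw [pf_single]
    unfold Pool.Agent.W522.U.cf
    rw [if_neg hij, LinearMap.zero_apply, LinearMap.zero_apply]
  have hdist : ∀ i j, i ≠ j → ∀ (Δ' : Subgroup Δ), Δ'.FiniteIndex → ∀ T : W i →ₗ[K] W j,
      (∀ g ∈ Δ', ∀ u, T (r i g u) = r j g (T u)) → T = 0 := by
    intro i j hij Δ' hΔ' T hT
    by_contra hT0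
    obtain ⟨p, hp⟩ := exists_pr (W i)
    refine hij (hWW _ _ ⟨Δ'.map Δ.subtype, fi_map hΔ Δ' hΔ', (W j).subtype.comp (T.comp p),
      fun u _ => SetLike.coe_mem _, ?_, ?_⟩)
    · by_contra hcon
      push Not at hcon
      apply hT0
      ext u
      have h1 := hcon u u.2
      rw [LinearMap.comp_apply, LinearMap.comp_apply, hp] at h1
      exact h1
    · rintro _ ⟨g, hg, rfl⟩ u hu
      have h1 := hT g hg ⟨u, hu⟩
      have h2 : p (R g.1 u) = r i g ⟨u, hu⟩ := hp (r i g ⟨u, hu⟩)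
      have h3 : p u = ⟨u, hu⟩ := hp ⟨u, hu⟩
      change ((T (p (R g.1 u)) : W j) : X) = (1 : K) • R g.1 ((T (p u) : W j) : X)
      rw [h2, h3, h1, one_smul]
      rfl
  have hirr : ∀ i, Irr (r i) := by
    intro i Δ' hΔ' U hU
    have h1 : Pot R (U.map (W i).subtype) := by
      refine ⟨Δ'.map Δ.subtype, fi_map hΔ Δ' hΔ', ?_⟩
      rintro _ ⟨g, hg, rfl⟩ _ ⟨u, hu, rfl⟩
      exact ⟨r i g u, hU g hg u hu, rfl⟩
    rcases (hW i).2.2 _ (Submodule.map_subtype_le _ _) h1 with h2 | h2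
    · left
      rw [eq_bot_iff]
      intro u hu
      have h3 : (u : X) ∈ U.map (W i).subtype := ⟨u, hu, rfl⟩
      rw [h2, Submodule.mem_bot] at h3
      rw [Submodule.mem_bot]
      exact Subtype.ext h3
    · right
      rw [eq_top_iff]
      intro u _
      have h3 : (u : X) ∈ U.map (W i).subtype := by
        rw [h2]
        exact u.2
      obtain ⟨u', hu', huu⟩ := h3
      have h4 : u' = u := Subtype.ext huu
      rw [← h4]
      exact hu'
  -- the projection and the section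
  choose p hp1 hp2 hp3 using fun i => hss Δ hΔ (W i) (hWΔ i)
  have hzero : ∀ i j, j ≠ i → ∀ u ∈ W j, p i u = 0 := by
    intro i j hij u hu
    by_contra hc
    apply hij
    apply hWW j i
    refine ⟨Δ, hΔ, p i, fun u _ => hp1 i u, ⟨u, hu, hc⟩, fun g hg u _ => ?_⟩
    rw [one_smul]
    exact hp3 i g hg u
  let Pr : X →ₗ[K] (∀ i, W i) := LinearMap.pi fun i => (p i).codRestrict (W i) (hp1 i)
  have hQ : ∀ x i, ((Pr x i : W i) : X) = p i x := fun x i => rfl
  have hQR : ∀ (g : Δ) (x : X), Pr (R g.1 x) = piRep r g (Pr x) := by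
    intro g x
    funext i
    apply Subtype.ext
    rw [hQ, hp3 i g.1 g.2]
    rfl
  let sec : (∀ i, W i) →ₗ[K] X := ∑ i, (W i).subtype.comp (LinearMap.proj i)
  have hsec : ∀ y, sec y = ∑ i, (y i : X) := by
    intro y
    change (∑ i, (W i).subtype.comp (LinearMap.proj i)) y = _
    rw [LinearMap.sum_apply]
    rfl
  have hQsec : ∀ y, Pr (sec y) = y := by
    intro y
    funext i
    apply Subtype.ext
    rw [hQ, hsec, map_sum, Finset.sum_eq_single i]
    · exact hp2 i _ (y i).2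
    · intro j _ hj
      exact hzero i j hj _ (y j).2
    · intro h; exact absurd (Finset.mem_univ i) h
  have hsecR : ∀ (g : Δ) (y : ∀ i, W i), sec (piRep r g y) = R g.1 (sec y) := by
    intro g y
    rw [hsec, hsec, map_sum]
    rfl
  have hnd' := pf_nondeg W st B hst hBl hBr
  have hcii : ∀ i, st i = i → Pool.Agent.W522.U.cf st B i i = B i := by
    intro i hi
    unfold Pool.Agent.W522.U.cf
    rw [if_pos hi.symm, if_neg (lt_irrefl _), if_neg (lt_irrefl _)]
  have hsy : ∀ i, (st i = i ∧ ¬AltDual R χ (W i)) → ∀ u v : W i,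
      pf W st B (Pi.single i u) (Pi.single i v) = pf W st B (Pi.single i v) (Pi.single i u) := by
    intro i hi u v
    rw [pf_single, pf_single, hcii i hi.1]
    exact (hBA i hi.1).2 hi.2 _ u.2 _ v.2
  -- the Weil family
  choose i hi using fun q => hall (L q) (hL' q)
  have hi' : ∀ q, ∃ (D1 : Subgroup Γ) (e : L q ≃ₗ[K] W (i q)), D1.FiniteIndex ∧
      ∀ g ∈ D1, ∀ u u' : L q, (u' : X) = R g u → ((e u' : W (i q)) : X) = R g (e u : W (i q)) := by
    intro q
    obtain ⟨D1, hD1, T, hTU, h0, hT⟩ := hi q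
    obtain ⟨e, he⟩ := tw_equiv (hL' q) (hW (i q)) hD1 hTU h0 hT
    refine ⟨D1, e, hD1, fun g hg u u' huu => ?_⟩
    rw [he, he, huu]
    have h2 := hT g hg u u.2
    rwa [one_smul] at h2
  choose D1 e hD1 he using hi'
  have hfr : ∀ q, finrank K (W (i q)) = finrank K (L q) := fun q => (e q).finrank_eq.symm
  let D2 : Subgroup Γ := Δ₀ ⊓ ⨅ q, D1 q
  have hD2 : D2.FiniteIndex := by
    have h1 : (⨅ q, D1 q).FiniteIndex := Subgroup.finiteIndex_iInf hD1
    exact inferInstance
  have hdet' : ∀ g ∈ D2.comap Δ.subtype, ∏ q, LinearMap.det (r (i q) g) =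
      (χ.comp Δ.subtype) g ^ c := by
    intro g hg
    have hg1 : g.1 ∈ Δ₀ := (show g.1 ∈ D2 from hg).1
    have hg2 : ∀ q, g.1 ∈ D1 q := fun q => Subgroup.mem_iInf.1 (show g.1 ∈ D2 from hg).2 q
    change _ = χ g.1 ^ c
    rw [← hdet g.1 hg1]
    refine Finset.prod_congr rfl fun q _ => ?_
    have h1 : r (i q) g = (e q).toLinearMap ∘ₗ (R g.1).restrict (hLs q g.1 hg1) ∘ₗ
        (e q).symm.toLinearMap := by
      refine LinearMap.ext fun y => ?_
      obtain ⟨u, rfl⟩ := (e q).surjective y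
      apply Subtype.ext
      rw [LinearMap.comp_apply, LinearMap.comp_apply, LinearEquiv.coe_coe, LinearEquiv.coe_coe,
        (e q).symm_apply_apply, he q g.1 (hg2 q) u _ rfl]
      rfl
    rw [h1, LinearMap.det_conj]
  have hcard : Fintype.card (Σ q, Fin (finrank K (W (i q)))) = Fintype.card (Fin c × Fin 2) := by
    rw [Fintype.card_sigma, Fintype.card_prod, Fintype.card_fin, Fintype.card_fin]
    simp only [Fintype.card_fin, hfr]
    rw [← hc]
    ring
  let ε : (Σ q, Fin (finrank K (W (i q)))) ≃ Fin c × Fin 2 := Fintype.equivOfCardEq hcard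
  have hpd := Conv.pd_tate (pf W st B) hnd' hsim hst hor i ε
    (Pool.Agent.TH118.WC.fi_comap _ _ hD2) hdet'
  -- the restriction
  have hT : IsTate R χ c ((Conv.pd (pf W st B) i ε).compLinearMap (fun _ => Pr)) := by
    obtain ⟨Δ', hΔ', h⟩ := hpd
    refine ⟨Δ'.map Δ.subtype, fi_map hΔ Δ' hΔ', ?_⟩
    rintro _ ⟨g, hg, rfl⟩ v
    rw [MultilinearMap.compLinearMap_apply, MultilinearMap.compLinearMap_apply]
    have h1 := h g hg (fun k => Pr (v k))
    rw [MonoidHom.comp_apply] at h1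
    rw [← h1]
    congr 1
    funext k
    exact hQR g (v k)
  have key : ∀ ψ ∈ Submodule.span K (PT R χ c), (ψ.compLinearMap (fun _ => sec)) ∈
      Submodule.span K (PT (piRep r) (χ.comp Δ.subtype) c) := by
    intro ψ hψ
    induction hψ using Submodule.span_induction with
    | mem ψ hψ =>
      obtain ⟨σ, C, hC, rfl⟩ := hψ
      refine Submodule.subset_span ⟨σ, fun l => (C l).compl₁₂ sec sec, fun l => ?_, rfl⟩
      obtain ⟨D₁, hD₁, h1⟩ := hC l
      refine ⟨D₁.comap Δ.subtype, Pool.Agent.TH118.WC.fi_comap _ _ hD₁, fun g hg u v => ?_⟩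
      rw [LinearMap.compl₁₂_apply, LinearMap.compl₁₂_apply, hsecR, hsecR]
      exact h1 g.1 hg _ _
    | zero =>
      have h1 : (0 : MultilinearMap K (fun _ : Fin c × Fin 2 => X) K).compLinearMap
          (fun _ => sec) = 0 := rfl
      rw [h1]
      exact Submodule.zero_mem _
    | add a b _ _ ha hb =>
      have h1 : (a + b).compLinearMap (fun _ => sec) = a.compLinearMap (fun _ => sec) +
        b.compLinearMap (fun _ => sec) := rfl
      rw [h1]
      exact Submodule.add_mem _ ha hb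
    | smul c a _ ha =>
      have h1 : (c • a).compLinearMap (fun _ => sec) = c • a.compLinearMap (fun _ => sec) := rfl
      rw [h1]
      exact Submodule.smul_mem _ _ ha
  have h1 := key _ (hPT c _ hT)
  have h2 : ((Conv.pd (pf W st B) i ε).compLinearMap (fun _ => Pr)).compLinearMap
      (fun _ => sec) = Conv.pd (pf W st B) i ε := by
    refine MultilinearMap.ext fun v => ?_
    rw [MultilinearMap.compLinearMap_apply, MultilinearMap.compLinearMap_apply]
    simp only [hQsec]
  rw [h2] at h1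
  have hi2 : ∀ q q', q ≠ q' → st (i q) ≠ i q' := by
    intro q q' hqq h
    refine hndu q q' hqq ?_
    have h3 : Du R χ (W (i q)) (W (i q')) := by
      rw [← h]
      exact hDu (i q)
    have h4 := (hi q).du (hW _) (hL' q) h3
    exact ((hi q').du (hW _) (hL' q') h4.symm).symm
  have hsym : ∀ q, st (i q) = i q → ∀ u v : W (i q),
      pf W st B (Pi.single (i q) u) (Pi.single (i q) v) =
        pf W st B (Pi.single (i q) v) (Pi.single (i q) u) := fun q hq =>
    hsy (i q) ⟨hq, fun h => hns q (alt_of_tw (hL' q) (hW _) (hi q) h)⟩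
  obtain ⟨τ, hτ1, hτ2⟩ := Conv.exists_tau (pf W st B) i hnd' hst hor hi2 hsym hpos
  obtain ⟨v, hv⟩ := Conv.exists_pd (pf W st B) hnd' hst hor i ε
  have h3 := Conv.blk_pt (τ := τ) (fun C hC => Conv.blk_tate2 (pf W st B) hnd' hsim hirr hdist
    hτ1 hC) h1 v
  rw [Conv.pd_blk (pf W st B) hnd' hst hor, hv, mul_one] at h3
  exact hτ2 h3

end

end Pool.Agent.H62O.Conv2
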