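import Mathlib
import Pool.Agent.H62O.Reps
import Pool.Agent.H62CT.Tr2
import Pool.Agent.Y126.Glue

/-!
# Tate classes on all powers from those of codimension two on the fourth power, all types
-/

set_option autoImplicit false
set_option linter.unusedSectionVars false
set_option linter.deprecated false

namespace Pool.Agent.H62O.Two

open Module TensorProduct Pool.Agent.Y126.Notions
open Pool.Agent.H204R3.SP Pool.Agent.H204R3.GP Pool.Agent.W522.U Pool.Agent.TH118.WC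
open Pool.Agent.TH118.CR Pool.Agent.H62CT Pool.Agent.H204R3.CM Pool.Agent.H62CT.Tr
open Pool.Agent.H62CT.Tr2 (pairs pairs_apply wedgeM wedgeM_apply exists_class)

noncomputable section

section ext

variable {ℓ : ℕ} [Fact ℓ.Prime] {V Γ ι : Type} [AddCommGroup V] [Module ℚ_[ℓ] V] [Group Γ]
  [Fintype ι] [DecidableEq ι] (b : Basis ι ℚ_[ℓ] V) (ρ : Representation ℚ_[ℓ] Γ V)
  (χ : Γ →* ℚ_[ℓ]) {Ω : Type} [Field Ω] [CharZero Ω] [Algebra ℚ_[ℓ] Ω]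
  (ω : V →ₗ[ℚ_[ℓ]] V →ₗ[ℚ_[ℓ]] ℚ_[ℓ])

include b in
/-- From classes to tensors. -/
theorem four_weil (h : Notions.GeneratedByWeilClassesIn Ω ρ χ ω 4 2)
    (φ : MultilinearMap Ω (fun _ : Fin 2 × Fin 2 => Ω ⊗[ℚ_[ℓ]] V) Ω)
    (hφ : IsTate (bcr ρ Ω) (bcc χ Ω) 2 φ) :
    φ ∈ Submodule.span Ω (Reps.WTs (bcr ρ Ω) (bcc χ Ω) (bcb Ω ω) finProdFinEquiv) := by
  classical
  let w := Basis.ofVectorSpace ℚ_[ℓ] Ω
  obtain ⟨S, hS⟩ := eq_sum_cmp b w φ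
  rw [hS]
  refine Submodule.sum_mem _ fun i _ => Submodule.smul_mem _ _ ?_
  obtain ⟨f, hf, hfφ⟩ := exists_class ρ χ finProdFinEquiv _ (tate_cmp ρ χ w i φ hφ)
  obtain ⟨n, c, G, hG⟩ := Submodule.mem_span_set'.1 (h f hf)
  choose g hg hgG using fun j => (G j).2
  have key : ∀ j, ∃ ψ ∈ Reps.WTs (bcr ρ Ω) (bcc χ Ω) (bcb Ω ω) finProdFinEquiv,
      ∀ v : Fin 2 × Fin 2 → V, ψ (fun l => (1 : Ω) ⊗ₜ[ℚ_[ℓ]] v l) =
        (G j : (Fin 2 × Fin 2 → Fin 4 → V) → Ω) (fun l => Pi.single (finProdFinEquiv l) (v l)) := by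
    intro j
    obtain ⟨P, Q, hP, hQ, d, L, b', e, B, hB, hL, hgj⟩ := id (hg j)
    have h1 : ∀ v : Fin 2 × Fin 2 → Ω ⊗[ℚ_[ℓ]] V,
        (wedgeM e B (fun s => Pool.Agent.Y126.Notions.sumForm (bcb Ω ω) 4
          (b' s.1 s.2 : Fin 4 → Ω ⊗[ℚ_[ℓ]] V))).compLinearMap (fun l =>
            LinearMap.single Ω (fun _ : Fin 4 => Ω ⊗[ℚ_[ℓ]] V) (finProdFinEquiv l)) v =
        g j (fun l => Pi.single (finProdFinEquiv l) (v l)) := by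
      intro v
      rw [MultilinearMap.compLinearMap_apply, wedgeM_apply, hgj]
      rfl
    refine ⟨_, ⟨g j, hg j, h1⟩, fun v => ?_⟩
    rw [h1, ← hgG j]
    change g j _ = g j _
    congr 1
    funext l i
    change (Pi.single (finProdFinEquiv l) ((1 : Ω) ⊗ₜ[ℚ_[ℓ]] v l) : Fin 4 → Ω ⊗[ℚ_[ℓ]] V) i =
      (1 : Ω) ⊗ₜ[ℚ_[ℓ]] ((Pi.single (finProdFinEquiv l) (v l) : Fin 4 → V) i)
    by_cases hi : i = finProdFinEquiv l
    · subst hi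
      rw [Pi.single_eq_same, Pi.single_eq_same]
    · rw [Pi.single_eq_of_ne hi, Pi.single_eq_of_ne hi, tmul_zero]
  choose ψ hψ hψG using key
  have h2 : bcm (Ω := Ω) b (cmp w i φ) = ∑ j, c j • ψ j := by
    refine Basis.ext_multilinear (fun _ => b.baseChange Ω) fun I => ?_
    rw [bcm_basis, MultilinearMap.sum_apply]
    simp only [Basis.baseChange_apply]
    have h3 := congrFun hG (fun l => Pi.single (finProdFinEquiv l) (b (I l)))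
    rw [Finset.sum_apply] at h3
    rw [← hfφ, ← h3]
    refine Finset.sum_congr rfl fun j _ => ?_
    rw [MultilinearMap.smul_apply, hψG, Pi.smul_apply]
  rw [h2]
  exact Submodule.sum_mem _ fun j _ => Submodule.smul_mem _ _ (Submodule.subset_span (hψ j))

end ext

variable {ℓ : ℕ} [Fact ℓ.Prime] {V Γ ι : Type} [AddCommGroup V] [Module ℚ_[ℓ] V]
    [FiniteDimensional ℚ_[ℓ] V] [Group Γ] [Fintype ι] (b : Basis ι ℚ_[ℓ] V)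
    (ρ : Representation ℚ_[ℓ] Γ V) (χ : Γ →* ℚ_[ℓ])
    (hlat : ∀ g i j, ‖b.repr (ρ g (b j)) i‖ ≤ 1) (hχ : ∀ g, ‖χ g‖ ≤ 1)

include hlat hχ in
theorem core (ω : V →ₗ[ℚ_[ℓ]] V →ₗ[ℚ_[ℓ]] ℚ_[ℓ]) (halt : ∀ v, ω v v = 0)
    (hnondeg : ∀ u, (∀ v, ω v u = 0) → u = 0)
    (hω : ∀ s u v, ω (ρ s u) (ρ s v) = χ s * ω u v)
    (hsemisimple : PotentiallySemisimple ρ)
    (h4 : ∀ φ : MultilinearMap (AlgebraicClosure ℚ_[ℓ])
      (fun _ : Fin 2 × Fin 2 => AlgebraicClosure ℚ_[ℓ] ⊗[ℚ_[ℓ]] V) (AlgebraicClosure ℚ_[ℓ]),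
      IsTate (bcr ρ (AlgebraicClosure ℚ_[ℓ])) (bcc χ (AlgebraicClosure ℚ_[ℓ])) 2 φ →
      φ ∈ Submodule.span (AlgebraicClosure ℚ_[ℓ])
        (Reps.WTs (bcr ρ (AlgebraicClosure ℚ_[ℓ])) (bcc χ (AlgebraicClosure ℚ_[ℓ]))
          (bcb (AlgebraicClosure ℚ_[ℓ]) ω) finProdFinEquiv ∪
        PT (bcr ρ (AlgebraicClosure ℚ_[ℓ])) (bcc χ (AlgebraicClosure ℚ_[ℓ])) 2)) (m : ℕ)
    (φ : MultilinearMap (AlgebraicClosure ℚ_[ℓ])
      (fun _ : Fin m × Fin 2 => AlgebraicClosure ℚ_[ℓ] ⊗[ℚ_[ℓ]] V) (AlgebraicClosure ℚ_[ℓ]))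
    (hφ : IsTate (bcr ρ (AlgebraicClosure ℚ_[ℓ])) (bcc χ (AlgebraicClosure ℚ_[ℓ])) m φ) :
    φ ∈ Submodule.span (AlgebraicClosure ℚ_[ℓ]) (DetProdW (bcr ρ (AlgebraicClosure ℚ_[ℓ]))
      (bcc χ (AlgebraicClosure ℚ_[ℓ])) m) := by
  classical
  exact Reps.four_det (bcb (AlgebraicClosure ℚ_[ℓ]) ω)
    (fun u hu => bcb_nondeg_left ω hnondeg (left_nondeg ω halt hnondeg) u hu)
    (bcb_inv (Ω := AlgebraicClosure ℚ_[ℓ]) ρ χ ω hω) (hasProj_bcr ρ _ hsemisimple)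
    (fun m φ hφ => tate_of_killed b ρ χ hlat hχ φ hφ)
    finProdFinEquiv h4 φ hφ

include hlat hχ in
/-- **Weil classes.** -/
theorem generated (ω : V →ₗ[ℚ_[ℓ]] V →ₗ[ℚ_[ℓ]] ℚ_[ℓ]) (halt : ∀ v, ω v v = 0)
    (hnondeg : ∀ u, (∀ v, ω v u = 0) → u = 0)
    (hω : ∀ s u v, ω (ρ s u) (ρ s v) = χ s * ω u v)
    (hsemisimple : PotentiallySemisimple ρ)
    (h : Notions.GeneratedByWeilClassesIn (AlgebraicClosure ℚ_[ℓ]) ρ χ ω 4 2) (n m : ℕ) :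
    Notions.GeneratedByWeilClassesIn (AlgebraicClosure ℚ_[ℓ]) ρ χ ω n m := by
  classical
  have core := core b ρ χ hlat hχ ω halt hnondeg hω hsemisimple fun φ hφ =>
    Submodule.span_mono Set.subset_union_left (four_weil b ρ χ ω h φ hφ)
  intro f hf
  refine Submodule.span_mono (Set.image_mono ?_)
    (classes_of_tensors_w (AlgebraicClosure ℚ_[ℓ]) ρ χ (bcb _ ω)
      (fun u hu => bcb_nondeg_left ω hnondeg (left_nondeg ω halt hnondeg) u hu)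
      (bcb_inv (Ω := AlgebraicClosure ℚ_[ℓ]) ρ χ ω hω) (core m) f hf)
  rintro g ⟨P, Q, hP, hQ, d, L, b, e, B, hB, hB0, hL, rfl⟩
  exact ⟨P, Q, hP, hQ, d, L, b, e, B, fun p => ⟨hB p, hB0 p⟩, hL, rfl⟩

include hlat hχ in
/-- **No Weil classes.** -/
theorem decomposable (ω : V →ₗ[ℚ_[ℓ]] V →ₗ[ℚ_[ℓ]] ℚ_[ℓ]) (halt : ∀ v, ω v v = 0)
    (hnondeg : ∀ u, (∀ v, ω v u = 0) → u = 0)
    (hω : ∀ s u v, ω (ρ s u) (ρ s v) = χ s * ω u v)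
    (hsemisimple : PotentiallySemisimple ρ)
    (hno : ∀ (Q : Type) [Fintype Q] [Nonempty Q]
      (L : Q → Submodule (AlgebraicClosure ℚ_[ℓ]) (AlgebraicClosure ℚ_[ℓ] ⊗[ℚ_[ℓ]] V)),
      ¬Notions.IsWeilFamily (extend (AlgebraicClosure ℚ_[ℓ]) ρ)
        ((algebraMap ℚ_[ℓ] (AlgebraicClosure ℚ_[ℓ]) : ℚ_[ℓ] →* _).comp χ) L)
    (h4 : ∀ φ : MultilinearMap ℚ_[ℓ] (fun _ : Fin 2 × Fin 2 => V) ℚ_[ℓ], IsTate ρ χ 2 φ →
      φ ∈ Submodule.span ℚ_[ℓ] (PT ρ χ 2)) : GeneratedInDegreeTwo ρ χ := by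
  classical
  have core := core b ρ χ hlat hχ ω halt hnondeg hω hsemisimple fun φ hφ =>
    Submodule.span_mono Set.subset_union_right (Tr.four_ext b ρ χ h4 φ hφ)
  have h := generated_of_ext ρ χ (AlgebraicClosure ℚ_[ℓ]) fun m φ hφ =>
    pt_of_noWeil_w hno (core m φ hφ)
  intro n m f hf
  refine Submodule.span_mono ?_ (h n m f hf)
  rintro g ⟨B, hB, hg⟩
  refine ⟨B, fun l => ?_, hg⟩
  obtain ⟨Δ, hΔ, h1⟩ := hB l
  refine ⟨Δ, hΔ, fun s hs v => ?_⟩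
  have h2 := h1 s hs v
  rwa [pow_one] at h2

end

end Pool.Agent.H62O.Two
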