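import Mathlib
import Pool.Agent.H62O.Conv2
import Pool.Agent.H62O.Two

/-!
# If all Tate classes on all powers are products of classes of degree two then there are no Weil
families
-/

set_option autoImplicit false
set_option linter.unusedSectionVars false
set_option linter.deprecated false

namespace Pool.Agent.H62O.Conv3

open Module TensorProduct Pool.Agent.Y126.Notions
open Pool.Agent.H204R3.SP Pool.Agent.H204R3.GP Pool.Agent.W522.U Pool.Agent.TH118.WC
open Pool.Agent.TH118.CR Pool.Agent.H62CT Pool.Agent.H204R3.CM Pool.Agent.H62CT.Tr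

noncomputable section

section classes

variable {k : Type} [Field k] [CharZero k] {V : Type} [AddCommGroup V] [Module k V]
  {Γ : Type} [Group Γ] (ρ : Representation k Γ V) (χ : Γ →* k) {m n : ℕ}

/-- The restriction of a form on a power. -/
def resG (e : Fin m × Fin 2 ≃ Fin n) :
    ((Fin n → V) [⋀^Fin m × Fin 2]→ₗ[k] k) →ₗ[k]
      MultilinearMap k (fun _ : Fin m × Fin 2 => V) k where
  toFun g := g.toMultilinearMap.compLinearMap
    (fun l => LinearMap.single k (fun _ : Fin n => V) (e l))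
  map_add' _ _ := rfl
  map_smul' _ _ := rfl

theorem resG_apply (e : Fin m × Fin 2 ≃ Fin n) (g : (Fin n → V) [⋀^Fin m × Fin 2]→ₗ[k] k)
    (v : Fin m × Fin 2 → V) : resG (k := k) (V := V) e g v = g (fun l => Pi.single (e l) (v l)) := rfl

theorem single_act' (s : Γ) (i : Fin n) (x : V) :
    (Pi.single i (ρ s x) : Fin n → V) = fun j => ρ s ((Pi.single i x : Fin n → V) j) := by
  funext j
  by_cases h : j = i
  · subst h
    rw [Pi.single_eq_same, Pi.single_eq_same]
  · rw [Pi.single_eq_of_ne h, Pi.single_eq_of_ne h, map_zero]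

/-- From classes to tensors. -/
theorem tensors_all (h : GeneratedInDegreeTwo ρ χ)
    (φ : MultilinearMap k (fun _ : Fin m × Fin 2 => V) k) (hφ : IsTate ρ χ m φ) :
    φ ∈ Submodule.span k (PT ρ χ m) := by
  classical
  let e : Fin m × Fin 2 ≃ Fin (m * 2) := finProdFinEquiv
  let F : MultilinearMap k (fun _ : Fin m × Fin 2 => Fin (m * 2) → V) k :=
    φ.compLinearMap (fun l => LinearMap.proj (e l))
  have hF : ∀ v : Fin m × Fin 2 → Fin (m * 2) → V, F v = φ (fun l => v l (e l)) := fun v => rfl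
  let f : (Fin (m * 2) → V) [⋀^Fin m × Fin 2]→ₗ[k] k := MultilinearMap.alternatization F
  have hf : ∀ v, f v = ∑ σ : Equiv.Perm (Fin m × Fin 2), Equiv.Perm.sign σ •
      φ (fun l => v (σ l) (e l)) := by
    intro v
    change MultilinearMap.alternatization F v = _
    rw [MultilinearMap.alternatization_apply]
    rfl
  obtain ⟨Δ, hΔ, hφ⟩ := hφ
  have h1 := h (m * 2) m f ⟨Δ, hΔ, fun s hs v => by
    rw [hf, hf, Finset.mul_sum]
    refine Finset.sum_congr rfl fun σ _ => ?_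
    rw [hφ s hs, mul_smul_comm]⟩
  have h2 : resG (k := k) (V := V) e f = φ := by
    refine MultilinearMap.ext fun v => ?_
    rw [resG_apply, hf, Finset.sum_eq_single 1]
    · rw [Equiv.Perm.sign_one, one_smul]
      congr 1
      funext l
      rw [Equiv.Perm.one_apply, Pi.single_eq_same]
    · intro σ _ hσ
      obtain ⟨l, hl⟩ : ∃ l, σ l ≠ l := by
        by_contra hcon
        push Not at hcon
        exact hσ (Equiv.ext hcon)
      rw [φ.map_coord_zero l, smul_zero]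
      rw [Pi.single_eq_of_ne]
      exact fun h' => hl (e.injective h').symm
    · intro h'
      exact absurd (Finset.mem_univ _) h'
  rw [← h2]
  have hg' := Submodule.mem_map_of_mem (f := resG (k := k) (V := V) e) h1
  rw [Submodule.map_span] at hg'
  refine Submodule.span_le.2 ?_ hg'
  rintro _ ⟨g, ⟨B, hB, hg⟩, rfl⟩
  let C : Equiv.Perm (Fin m × Fin 2) → Fin m → (V →ₗ[k] V →ₗ[k] k) := fun σ l =>
    (Pool.Agent.Y126.AV.toBil (B l)).compl₁₂
      (LinearMap.single k (fun _ : Fin (m * 2) => V) (e (σ (l, 0))))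
      (LinearMap.single k (fun _ : Fin (m * 2) => V) (e (σ (l, 1))))
  have hC : ∀ σ l x y, C σ l x y =
      B l ![Pi.single (e (σ (l, 0))) x, Pi.single (e (σ (l, 1))) y] := fun _ _ _ _ => rfl
  have h3 : resG (k := k) (V := V) e g = ∑ σ : Equiv.Perm (Fin m × Fin 2),
      ((Equiv.Perm.sign σ : ℤ) : k) • mmG σ (C σ) := by
    refine MultilinearMap.ext fun v => ?_
    rw [resG_apply, hg, MultilinearMap.sum_apply]
    refine Finset.sum_congr rfl fun σ _ => ?_
    rw [MultilinearMap.smul_apply, smul_eq_mul, mmG_apply]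
    rfl
  rw [SetLike.mem_coe, h3]
  refine Submodule.sum_mem _ fun σ _ => Submodule.smul_mem _ _
    (Submodule.subset_span ⟨σ, C σ, fun l => ?_, rfl⟩)
  obtain ⟨Δ', hΔ', h4⟩ := hB l
  refine ⟨Δ', hΔ', fun s hs x y => ?_⟩
  rw [hC, hC, ← h4 s hs]
  congr 1
  funext j
  fin_cases j
  · exact single_act' ρ s _ x
  · exact single_act' ρ s _ y

end classes

variable {ℓ : ℕ} [Fact ℓ.Prime] {V Γ ι : Type} [AddCommGroup V] [Module ℚ_[ℓ] V]
    [FiniteDimensional ℚ_[ℓ] V] [Group Γ] [Fintype ι] (b : Basis ι ℚ_[ℓ] V)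
    (ρ : Representation ℚ_[ℓ] Γ V) (χ : Γ →* ℚ_[ℓ])

include b in
/-- **The converse.** -/
theorem no_weil (ω : V →ₗ[ℚ_[ℓ]] V →ₗ[ℚ_[ℓ]] ℚ_[ℓ]) (halt : ∀ v, ω v v = 0)
    (hnondeg : ∀ u, (∀ v, ω v u = 0) → u = 0)
    (hω : ∀ s u v, ω (ρ s u) (ρ s v) = χ s * ω u v)
    (hsemisimple : PotentiallySemisimple ρ) (h : GeneratedInDegreeTwo ρ χ)
    (Q : Type) [Fintype Q] [Nonempty Q]
      (L : Q → Submodule (AlgebraicClosure ℚ_[ℓ]) (AlgebraicClosure ℚ_[ℓ] ⊗[ℚ_[ℓ]] V)) :
      ¬Notions.IsWeilFamily (extend (AlgebraicClosure ℚ_[ℓ]) ρ)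
        ((algebraMap ℚ_[ℓ] (AlgebraicClosure ℚ_[ℓ]) : ℚ_[ℓ] →* _).comp χ) L := by
  classical
  exact Conv2.no_weil (R := bcr ρ (AlgebraicClosure ℚ_[ℓ])) (χ := bcc χ (AlgebraicClosure ℚ_[ℓ]))
    (bcb (AlgebraicClosure ℚ_[ℓ]) ω)
    (fun u hu => bcb_nondeg_left ω hnondeg (left_nondeg ω halt hnondeg) u hu)
    (bcb_inv (Ω := AlgebraicClosure ℚ_[ℓ]) ρ χ ω hω) (hasProj_bcr ρ _ hsemisimple)
    (fun m φ hφ => Tr.four_ext b ρ χ (tensors_all ρ χ h) φ hφ) L

end

end Pool.Agent.H62O.Conv3
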